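import Pool.Agent.H35.U.FacR
import Pool.Agent.H35.W.VB
import Pool.Agent.H35.W.HRq

/-!
# U BlkA: the average of the error over a block

`g` satisfies `CorB` (from `W.dec`), `S2 g x ≤ S2 f x ≤ 15 x L`; `fb = f - g`, so
`S2 fb x ≤ 2 (S2 f x + S2 g x) ≤ 60 x L`; `S2 (vR R M x) x ≤ x R^6` (`|lamR R n| ≤ R³`, `R ≤ L^B`).
* `v_bound` with the exponent `2(c+2)+5 = 2c+9` (needs `2c+15 ≤ B`): `b1`, `m0`; for `i < J` apply it with
  `P 2^i` in place of `P`, `A = H`, `X = x/(P 2^i)`: `L^b1 ≤ P ≤ P 2^i`, `P 2^i L^b1 ≤ P 2^J L^b ≤ H`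
  (take `b ≥ b1 + 1`, `P ≥ L^b/2`).  `fac_blk` with `c+2` for `c`, `N = x`, `K = x/Q`
  (`x < (x/Q+1) Q ≤ (K+1)(Q+1)`): `≤ J · 3Hx/L^(c+3) + H·2L·sqrt(15 x L · x (1+L)^8/sqrt P)`, `J ≤ 2L`,
  `Nat.log 2 K ≤ 2 L`; `sqrt P ≥ L^(b/2)/2`, `b ≥ 4c + 80`.
* `tail_avg` for `fb` and `vR`, for every `a`, with `m = 2r`, `4^(2r) ≥ L^(2 C2)`, `C2 = c + 3B + 50`:
  `≤ H sqrt(60 x L · x (1+L)^64/L^(2C2)) + H sqrt(x L^(6B) · x (1+L)^64/L^(2 C2)) ≤ 2 H x/L^(c+2)`.
Sum `≤ H x/L^c` for `L ≥ 100`.  (In the tails `S = PP P (P 2^J)`: primes.)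
-/

set_option autoImplicit false

namespace Pool.Agent.H35.U

open Finset
open Pool.Agent.H91.EHA (Lam lamR hR psiA)
open Pool.Agent.H87.WL (PP PPc Mu Om gR)
open Pool.Agent.H76.EHB (S2)
open Pool.Agent.H35.W (Rk rgh fcs CorB)

private theorem BlkA_s1 (x L s P : ℝ) (c b : ℕ) (hL : 1000 ≤ L) (hx : 0 ≤ x) (hs : s ≤ 15 * x * L)
    (hb : 4 * c + 80 ≤ b) (hP : L ^ b / 2 ≤ P) :
    Real.sqrt (s * (x * (1 + L) ^ 8 / Real.sqrt P)) ≤ x / L ^ (c + 3) := by
  have hL0 : 0 < L := by linarith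
  have hL1 : 1 ≤ L := by linarith
  have h1 : L ^ (4 * c + 40) ≤ P := by
    have h2 : L ^ (4 * c + 40) * 2 ≤ L ^ b := by
      calc L ^ (4 * c + 40) * 2 ≤ L ^ (4 * c + 40) * L := by
            apply mul_le_mul_of_nonneg_left (by linarith) (by positivity)
        _ = L ^ (4 * c + 41) := by ring
        _ ≤ L ^ b := pow_le_pow_right₀ hL1 (by omega)
    linarith
  have h2 : L ^ (2 * c + 20) ≤ Real.sqrt P := by
    apply Real.le_sqrt_of_sq_le
    calc (L ^ (2 * c + 20)) ^ 2 = L ^ (4 * c + 40) := by rw [← pow_mul]; ring_nf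
      _ ≤ P := h1
  have h3 : (1 + L) ^ 8 ≤ 256 * L ^ 8 := by
    calc (1 + L) ^ 8 ≤ (2 * L) ^ 8 := pow_le_pow_left₀ (by linarith) (by linarith) 8
      _ = 256 * L ^ 8 := by ring
  apply Real.sqrt_le_iff.2
  refine ⟨by positivity, ?_⟩
  have h4 : x * (1 + L) ^ 8 / Real.sqrt P ≤ x * (256 * L ^ 8) / L ^ (2 * c + 20) := by
    apply div_le_div₀ (by positivity) _ (by positivity) h2
    exact mul_le_mul_of_nonneg_left h3 hx
  have h5 : 0 ≤ x * (1 + L) ^ 8 / Real.sqrt P := by positivity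
  calc s * (x * (1 + L) ^ 8 / Real.sqrt P)
      ≤ (15 * x * L) * (x * (256 * L ^ 8) / L ^ (2 * c + 20)) := by
        apply mul_le_mul hs h4 h5 (by positivity)
    _ = (3840 * x ^ 2 * L ^ 9) / L ^ (2 * c + 20) := by ring
    _ ≤ (x ^ 2 * L ^ 14) / L ^ (2 * c + 20) := by
        apply div_le_div_of_nonneg_right _ (by positivity)
        have h6 : (3840 : ℝ) ≤ L ^ 5 := by
          calc (3840 : ℝ) ≤ 1000 ^ 5 := by norm_num
            _ ≤ L ^ 5 := pow_le_pow_left₀ (by norm_num) hL 5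
        calc 3840 * x ^ 2 * L ^ 9 = 3840 * (x ^ 2 * L ^ 9) := by ring
          _ ≤ L ^ 5 * (x ^ 2 * L ^ 9) := by
              apply mul_le_mul_of_nonneg_right h6 (by positivity)
          _ = x ^ 2 * L ^ 14 := by ring
    _ = (x / L ^ (c + 3)) ^ 2 := by
        rw [div_pow, div_eq_div_iff (by positivity) (by positivity)]
        ring

private theorem BlkA_s2 (x L s t : ℝ) (c B : ℕ) (hL : 1000 ≤ L) (hx : 0 ≤ x)
    (hs : s ≤ x * L ^ (6 * B + 2)) (ht : L ^ (2 * (c + 3 * B + 50)) ≤ t) :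
    Real.sqrt (s * (x * (1 + L) ^ 64 / t)) ≤ x / L ^ (c + 2) := by
  have hL0 : 0 < L := by linarith
  have hL1 : 1 ≤ L := by linarith
  have ht0 : 0 < t := lt_of_lt_of_le (by positivity) ht
  have h3 : (1 + L) ^ 64 ≤ L ^ 30 * L ^ 64 := by
    calc (1 + L) ^ 64 ≤ (2 * L) ^ 64 := pow_le_pow_left₀ (by linarith) (by linarith) 64
      _ = 2 ^ 64 * L ^ 64 := by rw [mul_pow]
      _ ≤ L ^ 30 * L ^ 64 := by
          apply mul_le_mul_of_nonneg_right _ (by positivity)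
          calc (2 : ℝ) ^ 64 ≤ 1000 ^ 30 := by norm_num
            _ ≤ L ^ 30 := pow_le_pow_left₀ (by norm_num) hL 30
  apply Real.sqrt_le_iff.2
  refine ⟨by positivity, ?_⟩
  have h4 : x * (1 + L) ^ 64 / t ≤ x * (L ^ 30 * L ^ 64) / L ^ (2 * (c + 3 * B + 50)) := by
    apply div_le_div₀ (by positivity) _ (by positivity) ht
    exact mul_le_mul_of_nonneg_left h3 hx
  have h5 : 0 ≤ x * (1 + L) ^ 64 / t := by positivity
  calc s * (x * (1 + L) ^ 64 / t)
      ≤ (x * L ^ (6 * B + 2)) * (x * (L ^ 30 * L ^ 64) / L ^ (2 * (c + 3 * B + 50))) := by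
        apply mul_le_mul hs h4 h5 (by positivity)
    _ = (x / L ^ (c + 2)) ^ 2 := by
        rw [div_pow, mul_div_assoc', div_eq_div_iff (by positivity) (by positivity)]
        ring

private theorem BlkA_log (x K : ℕ) (h : K ≤ x) : (Nat.log 2 K : ℝ) ≤ 2 * Real.log x := by
  rcases Nat.eq_zero_or_pos K with rfl | hK
  · simp only [Nat.log_zero_right, Nat.cast_zero]
    have := Real.log_natCast_nonneg x
    positivity
  · have h1 : 2 ^ Nat.log 2 K ≤ x := (Nat.pow_log_le_self 2 hK.ne').trans h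
    have h2 : ((2 : ℝ) ^ Nat.log 2 K) ≤ x := by exact_mod_cast h1
    have h3 := Real.log_le_log (by positivity) h2
    rw [Real.log_pow] at h3
    have h4 : (1 : ℝ) / 2 ≤ Real.log 2 := by
      have := Real.log_two_gt_d9
      linarith
    have h5 : (0 : ℝ) ≤ (Nat.log 2 K : ℝ) := Nat.cast_nonneg _
    nlinarith

private theorem BlkA_S2v (x M B : ℕ) (hB : 1 ≤ B) (hL : 1000 ≤ Real.log x) :
    S2 (vR ⌊Real.log x ^ B⌋₊ M x) x ≤ x * Real.log x ^ (6 * B + 2) := by
  have hL1 : 1 ≤ Real.log x := by linarith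
  have hL0 : 0 < Real.log x := by linarith
  set R := ⌊Real.log x ^ B⌋₊ with hRd
  have hRle : (R : ℝ) ≤ Real.log x ^ B := Nat.floor_le (by positivity)
  have h1 : ∀ n ∈ Icc 1 x, (vR R M x n) ^ 2 ≤ Real.log x ^ (6 * B + 2) := by
    intro n hn
    rw [mem_Icc] at hn
    unfold vR
    split_ifs with h
    · have h2 : |lamR R n| ≤ 2 * Real.log x + R := by
        have h3 := Pool.Agent.H76.EHB.hR_abs R n x hn.1 hn.2
        have h4 : |Lam n| ≤ Real.log x := by
          unfold Lam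
          rw [abs_of_nonneg ArithmeticFunction.vonMangoldt_nonneg]
          refine ArithmeticFunction.vonMangoldt_le_log.trans ?_
          exact Real.log_le_log (by exact_mod_cast hn.1) (by exact_mod_cast hn.2)
        have h5 : lamR R n = Lam n - hR R n := by unfold hR; ring
        rw [h5]
        refine (abs_sub _ _).trans ?_
        linarith
      have h6 : |lamR R n| ≤ 3 * Real.log x ^ B := by
        have h7 : Real.log x ≤ Real.log x ^ B := le_self_pow₀ hL1 (by omega)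
        linarith
      calc lamR R n ^ 2 = |lamR R n| ^ 2 := (sq_abs _).symm
        _ ≤ (3 * Real.log x ^ B) ^ 2 := pow_le_pow_left₀ (abs_nonneg _) h6 2
        _ = 9 * Real.log x ^ (2 * B) := by rw [mul_pow, ← pow_mul]; ring_nf
        _ ≤ Real.log x * Real.log x ^ (2 * B) := by
            apply mul_le_mul_of_nonneg_right (by linarith) (by positivity)
        _ = Real.log x ^ (2 * B + 1) := by ring
        _ ≤ Real.log x ^ (6 * B + 2) := pow_le_pow_right₀ hL1 (by omega)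
    · rw [zero_pow two_ne_zero]
      positivity
  unfold S2
  refine (sum_le_sum h1).trans ?_
  rw [sum_const, nsmul_eq_mul, Nat.card_Icc]
  simp

theorem blk_avg (c B : ℕ) (hB : 2 * c + 15 ≤ B) (η : ℝ) (hη : 0 < η) : ∃ b0 m0 : ℕ, ∀ b : ℕ,
    b0 ≤ b → ∀ m : ℕ, m0 ≤ m → ∃ x0 : ℕ, ∀ x : ℕ, x0 ≤ x →
    ∀ (fb g : ℕ → ℝ) (M a0 Q H P J r : ℕ), CorB x B m η x M a0 g →
      (a0 : ℝ) + x / Real.log x ^ 3 ≤ M →
      (∀ n, fb n + g n = if n ∈ Ioc M x then hR ⌊Real.log x ^ B⌋₊ n else 0) →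
      S2 g x ≤ 15 * x * Real.log x → 1 ≤ Q → (H : ℝ) ^ 2 ≤ x →
      Real.log x ^ b / 2 ≤ P → ((P * 2 ^ J : ℕ) : ℝ) * Real.log x ^ b ≤ H →
      Real.log x ^ (2 * (c + 3 * B + 50)) ≤ (4 : ℝ) ^ (2 * r) → (J : ℝ) ≤ 2 * Real.log x →
      ∑ a ∈ Ioc a0 (a0 + H), ∑ q ∈ Ioc Q (2 * Q),
        (|∑ k ∈ fcs P J (x / Q), g (a + k * q)|
          + ∑ k ∈ Icc 1 (x / Q), tw (PP P (P * 2 ^ J)) (2 * r) k * |fb (a + k * q)|
          + ∑ k ∈ Icc 1 (x / Q), tw (PP P (P * 2 ^ J)) (2 * r) k *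
              |vR ⌊Real.log x ^ B⌋₊ M x (a + k * q)|)
        ≤ H * x / Real.log x ^ c := by
  obtain ⟨b1, m0, hv⟩ := Pool.Agent.H35.W.v_bound (2 * c + 9) B 3 (by omega) η hη
  refine ⟨max (b1 + 1) (4 * c + 80), m0, fun b hb m hm => ?_⟩
  have hb1 : b1 + 1 ≤ b := (le_max_left _ _).trans hb
  have hb2 : 4 * c + 80 ≤ b := (le_max_right _ _).trans hb
  obtain ⟨x1, hx1⟩ := hv m hm
  obtain ⟨x2, hx2⟩ := Pool.Agent.H35.W.hr_sq B
  obtain ⟨x3, hx3⟩ := Filter.eventually_atTop.1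
    ((Real.tendsto_log_atTop.comp tendsto_natCast_atTop_atTop).eventually_ge_atTop (1000 : ℝ) :
      ∀ᶠ x : ℕ in Filter.atTop, (1000 : ℝ) ≤ (Real.log ∘ (Nat.cast : ℕ → ℝ)) x)
  refine ⟨max x1 (max x2 x3), fun x hx => ?_⟩
  intro fb g M a0 Q H P J r hC hM hfb hg2 hQ hHx hP hPJ hr hJ
  have hxx1 : x1 ≤ x := (le_max_left _ _).trans hx
  have hxx2 : x2 ≤ x := ((le_max_left _ _).trans (le_max_right _ _)).trans hx
  have hxx3 : x3 ≤ x := ((le_max_right _ _).trans (le_max_right _ _)).trans hx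
  have hL : 1000 ≤ Real.log x := hx3 x hxx3
  have hL0 : 0 < Real.log x := by linarith
  have hL1 : 1 ≤ Real.log x := by linarith
  have hx0 : (0 : ℝ) ≤ x := Nat.cast_nonneg x
  have hH0 : (0 : ℝ) ≤ H := Nat.cast_nonneg H
  have hgs : ∀ n, n ∉ Icc 1 x → g n = 0 := by
    intro n hn
    apply hC.supp
    intro h
    apply hn
    rw [mem_Ioc] at h
    rw [mem_Icc]
    omega
  have hfs : ∀ n, n ∉ Icc 1 x → fb n = 0 := by
    intro n hn
    have h1 := hfb n
    rw [hgs n hn, if_neg, add_zero] at h1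
    · exact h1
    · intro h
      apply hn
      rw [mem_Ioc] at h
      rw [mem_Icc]
      omega
  have hvs : ∀ n, n ∉ Icc 1 x → vR ⌊Real.log x ^ B⌋₊ M x n = 0 := by
    intro n hn
    unfold vR
    rw [if_neg]
    intro h
    apply hn
    rw [mem_Ioc] at h
    rw [mem_Icc]
    omega
  -- powers
  have hPb1 : Real.log x ^ b1 ≤ P := by
    refine le_trans ?_ hP
    have h1 : Real.log x ^ b1 * 2 ≤ Real.log x ^ b := by
      calc Real.log x ^ b1 * 2 ≤ Real.log x ^ b1 * Real.log x := by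
            apply mul_le_mul_of_nonneg_left (by linarith) (by positivity)
        _ = Real.log x ^ (b1 + 1) := by ring
        _ ≤ Real.log x ^ b := pow_le_pow_right₀ hL1 hb1
    linarith
  have hP1 : 1 ≤ P := by
    have h1 : (1 : ℝ) ≤ P := le_trans (one_le_pow₀ hL1) hPb1
    exact_mod_cast h1
  -- the factorable part
  have hA1 : ∑ a ∈ Ioc a0 (a0 + H), ∑ q ∈ Ioc Q (2 * Q), |∑ k ∈ fcs P J (x / Q), g (a + k * q)|
      ≤ 8 * (H * x / Real.log x ^ (c + 2)) := by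
    rw [sum_comm]
    refine (fac_blk g x x a0 H Q (x / Q) P J (c + 2) (Real.log x) rfl hL1 hP1 ?_ le_rfl hgs
      ?_).trans ?_
    · have h1 : x < Q * (x / Q + 1) := Nat.lt_mul_div_succ x hQ
      calc x < Q * (x / Q + 1) := h1
        _ = (x / Q + 1) * Q := Nat.mul_comm _ _
        _ ≤ (x / Q + 1) * (Q + 1) := Nat.mul_le_mul_left _ (Nat.le_succ Q)
    · intro i hi
      have h1 : P * 2 ^ i ≤ P * 2 ^ J :=
        Nat.mul_le_mul_left _ (Nat.pow_le_pow_right (by norm_num) hi.le)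
      have h2 : P ≤ P * 2 ^ i := Nat.le_mul_of_pos_right _ (by positivity)
      have h3 := hx1 x hxx1 g x M a0 (P * 2 ^ i) H (x / (P * 2 ^ i)) hC le_rfl hM
        (hPb1.trans (by exact_mod_cast h2)) (by
          refine le_trans ?_ hPJ
          apply mul_le_mul (by exact_mod_cast h1) (pow_le_pow_right₀ hL1 (by omega)) (by positivity)
            (by positivity)) hHx
      have e1 : 2 * (c + 2) + 5 = 2 * c + 9 := by ring
      rw [e1]
      exact h3
    · have h1 := BlkA_s1 x (Real.log x) (S2 g x) P c b hL hx0 hg2 hb2 hP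
      have h2 := BlkA_log x (x / Q) (Nat.div_le_self _ _)
      have h3 : (J : ℝ) * (3 * H * x / Real.log x ^ (c + 2 + 1)) ≤
          6 * (H * x / Real.log x ^ (c + 2)) := by
        calc (J : ℝ) * (3 * H * x / Real.log x ^ (c + 2 + 1))
            ≤ (2 * Real.log x) * (3 * H * x / Real.log x ^ (c + 2 + 1)) := by
              apply mul_le_mul_of_nonneg_right hJ (by positivity)
          _ = 6 * (H * x / Real.log x ^ (c + 2)) := by
              rw [pow_succ]
              field_simp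
              ring
      have h4 : (H : ℝ) * (Nat.log 2 (x / Q) *
          Real.sqrt (S2 g x * (x * (1 + Real.log x) ^ 8 / Real.sqrt P))) ≤
          2 * (H * x / Real.log x ^ (c + 2)) := by
        calc (H : ℝ) * (Nat.log 2 (x / Q) *
            Real.sqrt (S2 g x * (x * (1 + Real.log x) ^ 8 / Real.sqrt P)))
            ≤ H * ((2 * Real.log x) * (x / Real.log x ^ (c + 3))) := by
              apply mul_le_mul_of_nonneg_left _ hH0
              apply mul_le_mul h2 h1 (Real.sqrt_nonneg _) (by positivity)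
          _ = 2 * (H * x / Real.log x ^ (c + 2)) := by
              rw [show c + 3 = (c + 2) + 1 by ring, pow_succ]
              field_simp
      linarith
  have hS : ∀ p ∈ PP P (P * 2 ^ J), p.Prime := by
    intro p hp
    unfold PP at hp
    exact (mem_filter.1 hp).2
  have htail : ∀ f : ℕ → ℝ, (∀ n, n ∉ Icc 1 x → f n = 0) →
      S2 f x ≤ x * Real.log x ^ (6 * B + 2) →
      ∑ a ∈ Ioc a0 (a0 + H), ∑ q ∈ Ioc Q (2 * Q), ∑ k ∈ Icc 1 (x / Q),
        tw (PP P (P * 2 ^ J)) (2 * r) k * |f (a + k * q)| ≤ H * x / Real.log x ^ (c + 2) := by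
    intro f hf hf2
    have h1 : ∀ a ∈ Ioc a0 (a0 + H), ∑ q ∈ Ioc Q (2 * Q), ∑ k ∈ Icc 1 (x / Q),
        tw (PP P (P * 2 ^ J)) (2 * r) k * |f (a + k * q)| ≤ x / Real.log x ^ (c + 2) := by
      intro a _
      refine (tail_avg _ hS (2 * r) f x a Q (x / Q) hf).trans ?_
      exact BlkA_s2 x (Real.log x) (S2 f x) _ c B hL hx0 hf2 hr
    refine (sum_le_sum h1).trans ?_
    rw [sum_const, nsmul_eq_mul, Nat.card_Ioc, Nat.add_sub_cancel_left, mul_div_assoc]
  have hfb2 : S2 fb x ≤ x * Real.log x ^ (6 * B + 2) := by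
    have h1 := hx2 x hxx2 x le_rfl
    have h2 : S2 fb x ≤ 2 * S2 (hR ⌊Real.log x ^ B⌋₊) x + 2 * S2 g x := by
      unfold S2
      rw [mul_sum, mul_sum, ← sum_add_distrib]
      refine sum_le_sum fun n _ => ?_
      have h3 : fb n = (if n ∈ Ioc M x then hR ⌊Real.log x ^ B⌋₊ n else 0) - g n := by
        rw [← hfb n]
        ring
      rw [h3]
      split_ifs with h4
      · nlinarith [sq_nonneg (hR ⌊Real.log x ^ B⌋₊ n + g n)]
      · nlinarith [sq_nonneg (hR ⌊Real.log x ^ B⌋₊ n), sq_nonneg (g n)]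
    have h3 : 60 * (x : ℝ) * Real.log x ≤ x * Real.log x ^ (6 * B + 2) := by
      calc 60 * (x : ℝ) * Real.log x ≤ Real.log x * (x * Real.log x) := by
            have : 0 ≤ (x : ℝ) * Real.log x := by positivity
            nlinarith
        _ = x * Real.log x ^ 2 := by ring
        _ ≤ x * Real.log x ^ (6 * B + 2) := by
            apply mul_le_mul_of_nonneg_left _ hx0
            exact pow_le_pow_right₀ hL1 (by omega)
    linarith
  have hA2 := htail fb hfs hfb2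
  have hA3 := htail _ hvs (BlkA_S2v x M B (by omega) hL)
  have hsum : ∑ a ∈ Ioc a0 (a0 + H), ∑ q ∈ Ioc Q (2 * Q),
        (|∑ k ∈ fcs P J (x / Q), g (a + k * q)|
          + ∑ k ∈ Icc 1 (x / Q), tw (PP P (P * 2 ^ J)) (2 * r) k * |fb (a + k * q)|
          + ∑ k ∈ Icc 1 (x / Q), tw (PP P (P * 2 ^ J)) (2 * r) k *
              |vR ⌊Real.log x ^ B⌋₊ M x (a + k * q)|)
      ≤ 10 * (H * x / Real.log x ^ (c + 2)) := by
    simp only [sum_add_distrib]
    linarith
  refine hsum.trans ?_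
  have h1 : 10 ≤ Real.log x ^ 2 := by nlinarith
  calc 10 * (H * x / Real.log x ^ (c + 2))
      ≤ Real.log x ^ 2 * (H * x / Real.log x ^ (c + 2)) := by
        apply mul_le_mul_of_nonneg_right h1 (by positivity)
    _ = H * x / Real.log x ^ c := by
        rw [pow_add]
        field_simp

end Pool.Agent.H35.U
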