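import Pool.Agent.H35.U.Defs
import Pool.Agent.H3.LC.Mertens
import Pool.Agent.H91.PK.MR
import Pool.Agent.H91.PK.MB

/-!
# U MuU: Mertens' estimates for `Mu (PP P P')`

From `Pool.Agent.H3.LC.Mertens` as in `W.Rough` (private lemmas there: `∑_{p ≤ y} 1/p ≤ loglog y + C` and
`log(log Z/log P) - 4 ≤ ∑_{P<p≤Z} 1/p`): copy these proofs.
`mu_exp`: if `log P' < ...` is small everything is trivial with a large constant: `exp(-Mu) ≤ 1`.
-/

set_option autoImplicit false

namespace Pool.Agent.H35.U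

open Finset
open Pool.Agent.H87.WL (PP PPc Mu Om)

open Pool.Agent.H91.Gold (Pr) in
private theorem muU_upper : ∃ C : ℝ, 0 < C ∧ ∀ y : ℕ, 2 ≤ y →
    ∑ p ∈ (Icc 1 y).filter Nat.Prime, (1 : ℝ) / p ≤ Real.log (Real.log y) + C := by
  have hll : (0 : ℝ) < Real.log 65536 := Real.log_pos (by norm_num)
  have hl2 : (0 : ℝ) < Real.log 2 := Real.log_pos (by norm_num)
  have key : ∀ y : ℕ, 65536 ≤ y →
      ∑ p ∈ (Icc 1 y).filter Nat.Prime, (1 : ℝ) / p ≤ Real.log (Real.log y) + 1 := by
    intro y hy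
    have h1 := Pool.Agent.H91.PK.MR_sum_inv hy (le_refl (Real.log y))
    have hsub : (Icc 1 y).filter Nat.Prime ⊆ insert 2 (Pr 2 y) := by
      intro p hp
      rw [mem_filter, mem_Icc] at hp
      rw [mem_insert]
      rcases Nat.lt_or_ge 2 p with h | h
      · right
        unfold Pr
        rw [mem_filter, mem_Ioc]
        exact ⟨⟨h, hp.1.2⟩, hp.2⟩
      · left
        have := hp.2.two_le
        omega
    have h2 : ∑ p ∈ (Icc 1 y).filter Nat.Prime, (1 : ℝ) / p ≤
        ∑ p ∈ insert 2 (Pr 2 y), (1 : ℝ) / p :=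
      Finset.sum_le_sum_of_subset_of_nonneg hsub (fun _ _ _ => by positivity)
    have h3 : (2 : ℕ) ∉ Pr 2 y := by
      unfold Pr
      rw [mem_filter, mem_Ioc]
      omega
    rw [Finset.sum_insert h3] at h2
    push_cast at h2
    linarith
  refine ⟨1 + |Real.log (Real.log 65536)| + |Real.log (Real.log 2)|, by positivity, ?_⟩
  intro y hy
  rcases Nat.lt_or_ge y 65536 with h | h
  · have h1 := key 65536 le_rfl
    have h2 : ∑ p ∈ (Icc 1 y).filter Nat.Prime, (1 : ℝ) / p ≤
        ∑ p ∈ (Icc 1 65536).filter Nat.Prime, (1 : ℝ) / p := by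
      apply Finset.sum_le_sum_of_subset_of_nonneg
      · apply Finset.filter_subset_filter
        apply Finset.Icc_subset_Icc le_rfl h.le
      · intro _ _ _; positivity
    have h3 : Real.log (Real.log 2) ≤ Real.log (Real.log y) := by
      apply Real.log_le_log hl2
      apply Real.log_le_log (by norm_num)
      exact_mod_cast hy
    have h4 := neg_abs_le (Real.log (Real.log 2))
    have h5 := le_abs_self (Real.log (Real.log 65536))
    push_cast at h1
    linarith
  · have h1 := key y h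
    have h4 := abs_nonneg (Real.log (Real.log 2))
    have h5 := abs_nonneg (Real.log (Real.log 65536))
    linarith

open Pool.Agent.H91.Gold (Pr) in
private theorem muU_Pr_mono (P w Z : ℕ) (h : P ≤ w) :
    ∑ p ∈ Pr w Z, (1 : ℝ) / p ≤ ∑ p ∈ (Ioc P Z).filter Nat.Prime, (1 : ℝ) / p := by
  apply Finset.sum_le_sum_of_subset_of_nonneg
  · intro p hp
    unfold Pr at hp
    rw [mem_filter, mem_Ioc] at hp ⊢
    exact ⟨⟨lt_of_le_of_lt h hp.1.1, hp.1.2⟩, hp.2⟩
  · intro _ _ _; positivity

open Pool.Agent.H91.Gold (Pr) in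
private theorem muU_lower (P Z : ℕ) (hP : 2 ≤ P) (hPZ : P ≤ Z) :
    Real.log (Real.log Z / Real.log P) - 4 ≤ ∑ p ∈ (Ioc P Z).filter Nat.Prime, (1 : ℝ) / p := by
  have hlP : (0 : ℝ) < Real.log P := Real.log_pos (by exact_mod_cast hP)
  have hlZ : (0 : ℝ) < Real.log Z := Real.log_pos (by exact_mod_cast (by omega : 1 < Z))
  have hZ0 : (0 : ℝ) < Z := by
    have : 0 < Z := by omega
    exact_mod_cast this
  have hl2 : (0 : ℝ) < Real.log 2 := Real.log_pos (by norm_num)
  have hl6 : Real.log 65536 = 16 * Real.log 2 := by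
    rw [show (65536 : ℝ) = 2 ^ 16 by norm_num, Real.log_pow]; norm_num
  have hl6' : (11 : ℝ) ≤ Real.log 65536 := by
    rw [hl6]; have := Real.log_two_gt_d9; linarith
  have hl16 : Real.log 16 ≤ 3 := by
    rw [show (16 : ℝ) = 2 ^ 4 by norm_num, Real.log_pow]
    have := Real.log_two_lt_d9; push_cast; linarith
  rcases Nat.lt_or_ge P 65536 with h | h
  · have hP2 : Real.log 2 ≤ Real.log P := Real.log_le_log (by norm_num) (by exact_mod_cast hP)
    rcases Nat.lt_or_ge Z 65536 with hz | hz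
    · have h1 : Real.log Z ≤ Real.log 65536 := Real.log_le_log (by positivity) (by exact_mod_cast hz.le)
      have h2 : Real.log Z / Real.log P ≤ 16 := by
        rw [div_le_iff₀ hlP]; rw [hl6] at h1; nlinarith
      have h3 : Real.log (Real.log Z / Real.log P) ≤ Real.log 16 :=
        Real.log_le_log (by positivity) h2
      have h4 : (0 : ℝ) ≤ ∑ p ∈ (Ioc P Z).filter Nat.Prime, (1 : ℝ) / p :=
        Finset.sum_nonneg (fun _ _ => by positivity)
      linarith
    · have h1 := Pool.Agent.H91.PK.mertens_lower (le_refl 65536) hz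
      have h2 : ∑ p ∈ Pr 65536 Z, (1 : ℝ) / p ≤ ∑ p ∈ (Ioc P Z).filter Nat.Prime, (1 : ℝ) / p :=
        muU_Pr_mono P 65536 Z h.le
      have h3 : (0.25 : ℝ) / Real.log ((65536 : ℕ) : ℝ) ≤ 1 := by
        push_cast
        rw [div_le_one (by linarith)]; linarith
      have h4 : Real.log (Real.log Z / Real.log P) - Real.log 16 ≤
          Real.log (Real.log Z / Real.log ((65536 : ℕ) : ℝ)) := by
        push_cast
        rw [← Real.log_div (by positivity) (by norm_num)]
        apply Real.log_le_log (by positivity)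
        rw [div_div]
        apply div_le_div_of_nonneg_left hlZ.le (by linarith)
        rw [hl6]; nlinarith
      linarith
  · have h1 := Pool.Agent.H91.PK.mertens_lower h hPZ
    have h3 : (0.25 : ℝ) / Real.log P ≤ 1 := by
      have : Real.log 65536 ≤ Real.log P := Real.log_le_log (by norm_num) (by exact_mod_cast h)
      rw [div_le_one hlP]; linarith
    have h2 : ∑ p ∈ Pr P Z, (1 : ℝ) / p = ∑ p ∈ (Ioc P Z).filter Nat.Prime, (1 : ℝ) / p := rfl
    linarith

theorem mu_exp : ∃ C : ℝ, 0 < C ∧ ∀ P P' : ℕ, 2 ≤ P → P ≤ P' →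
    Real.exp (-Mu (PP P P')) ≤ C * (Real.log P / Real.log P') := by
  refine ⟨Real.exp 4, Real.exp_pos _, fun P P' hP hPP => ?_⟩
  have hlP : (0 : ℝ) < Real.log P := Real.log_pos (by exact_mod_cast hP)
  have hlZ : (0 : ℝ) < Real.log P' := Real.log_pos (by exact_mod_cast (by omega : 1 < P'))
  have h1 : Real.log (Real.log P' / Real.log P) - 4 ≤ Mu (PP P P') := muU_lower P P' hP hPP
  have h2 : -Mu (PP P P') ≤ 4 + Real.log (Real.log P / Real.log P') := by
    have e : Real.log (Real.log P / Real.log P') = -Real.log (Real.log P' / Real.log P) := by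
      rw [← Real.log_inv, inv_div]
    rw [e]
    linarith
  calc Real.exp (-Mu (PP P P')) ≤ Real.exp (4 + Real.log (Real.log P / Real.log P')) :=
        Real.exp_le_exp.2 h2
    _ = Real.exp 4 * (Real.log P / Real.log P') := by
        rw [Real.exp_add, Real.exp_log (by positivity)]

theorem mu_loglog : ∃ C : ℝ, 0 < C ∧ ∀ P P' : ℕ, 3 ≤ P' →
    Mu (PP P P') ≤ Real.log (Real.log P') + C := by
  obtain ⟨C, hC, h⟩ := muU_upper
  refine ⟨C, hC, fun P P' hP => (?_ : _ ≤ _).trans (h P' (by omega))⟩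
  unfold Mu PP
  apply Finset.sum_le_sum_of_subset_of_nonneg
  · intro p hp
    rw [mem_filter, mem_Ioc] at hp
    rw [mem_filter, mem_Icc]
    exact ⟨⟨hp.2.one_lt.le, hp.1.2⟩, hp.2⟩
  · intro _ _ _
    positivity

end Pool.Agent.H35.U
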