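import Pool.Agent.H35.U.Defs

/-!
# U Par: choice of the parameters

`L = log x`, `l = log L`.  `P = ⌊L^b⌋₊`, `r = ⌈C2 l⌉₊`, `C1 = ⌈400 (C2+1)/(1-θ)⌉₊ + 1`,
`Pm = min ⌊H/L^b⌋₊ ⌊exp(L/(C1 l))⌋₊`, `J = Nat.log 2 (Pm/P)`, so `P 2^J ≤ Pm < 2 P 2^J` (`P ≤ Pm` for large `x`:
`H/L^b ≥ L^(b+2)`, `exp(L/(C1 l)) ≥ 2 L^b`).
* `P 2^J L^b ≤ Pm L^b ≤ H`.
* `(P 2^J + 1)^(2r) ≤ (2 exp(L/(C1 l)))^(2 C2 l + 2) = 2^(2 C2 l+2) exp(L (2 C2 l + 2)/(C1 l))
  ≤ exp((1-θ) L/100)` for large `x`: `(2 C2 l + 2)/(C1 l) ≤ (2 C2+2)/C1 ≤ (1-θ)/200` and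
  `2^(2 C2 l + 2) ≤ exp((1-θ)L/200)`.
* `log(P 2^J) ≥ log(Pm/2) ≥ min(log H/2, L/(2 C1 l))` (`H/L^b - 1 ≥ 2 H^(1/2)` as `H ≥ L^(2b+2)`), `log P ≤ b l`, so
  `log P/log(P 2^J) ≤ b l max(2/log H, 2 C1 l/L) ≤ 2 b (C1+1) rho x H`.
* `4 r ≤ P`, `8 r/P ≤ 1/L^2` for large `x` (`b ≥ 4`); `4^(2r) ≥ exp(2r) ≥ exp(2 C2 l) = L^(2 C2)`, and
  `8^(2r) ≥ exp(4 r) ≥ L^(4 C2)` (`8 ≥ e²`).
* `(J : ℝ) ≤ 2 L`: `2^J ≤ H ≤ x`.
-/

set_option autoImplicit false

namespace Pool.Agent.H35.U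

open Finset

private theorem Par_ev (K : ℝ) : ∃ x0 : ℕ, ∀ x : ℕ, x0 ≤ x → 3 ≤ Real.log x ∧
    1 ≤ Real.log (Real.log x) ∧ K * Real.log (Real.log x) ^ 2 ≤ Real.log x := by
  have h1 : ∀ᶠ L : ℝ in Filter.atTop, 3 ≤ L ∧ 1 ≤ Real.log L ∧ K * Real.log L ^ 2 ≤ L := by
    have ho := (Real.isLittleO_pow_log_id_atTop (n := 2)).def
      (c := 1 / (|K| + 1)) (by positivity)
    filter_upwards [Filter.eventually_ge_atTop (3 : ℝ),
      Real.tendsto_log_atTop.eventually_ge_atTop 1, ho] with L h3 h1 hL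
    refine ⟨h3, h1, ?_⟩
    have hL0 : 0 < L := by linarith
    rw [Real.norm_of_nonneg (by positivity), id, Real.norm_of_nonneg hL0.le] at hL
    have hK : 0 < |K| + 1 := by positivity
    have h4 : (|K| + 1) * Real.log L ^ 2 ≤ L := by
      have := mul_le_mul_of_nonneg_left hL hK.le
      calc (|K| + 1) * Real.log L ^ 2 ≤ (|K| + 1) * (1 / (|K| + 1) * L) := this
        _ = L := by field_simp
    have h5 : K ≤ |K| + 1 := (le_abs_self K).trans (by linarith)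
    calc K * Real.log L ^ 2 ≤ (|K| + 1) * Real.log L ^ 2 :=
          mul_le_mul_of_nonneg_right h5 (by positivity)
      _ ≤ L := h4
  have h2 := (Real.tendsto_log_atTop.comp tendsto_natCast_atTop_atTop).eventually h1
  obtain ⟨x0, hx0⟩ := Filter.eventually_atTop.1 h2
  exact ⟨x0, fun x hx => hx0 x hx⟩

private theorem Par_exp : (3 : ℝ) ≤ Real.exp (3 / 2) := by
  have h3 := Real.exp_one_gt_d9
  have h4 : Real.exp (3 / 2) = Real.exp 1 * Real.exp (1 / 2) := by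
    rw [← Real.exp_add]
    norm_num
  have h5 : (1 : ℝ) / 2 + 1 ≤ Real.exp (1 / 2) := Real.add_one_le_exp _
  rw [h4]
  nlinarith

theorem par (θ : ℝ) (hθ : θ < 1) (b C2 : ℕ) (hb : 4 ≤ b) : ∃ C : ℝ, 0 < C ∧ ∃ x0 : ℕ,
    ∀ x : ℕ, x0 ≤ x → ∀ H : ℕ, Real.log x ^ (2 * b + 2) ≤ H → (H : ℝ) ^ 2 ≤ x →
    ∃ P J r : ℕ, Real.log x ^ b / 2 ≤ P ∧ (P : ℝ) ≤ Real.log x ^ b ∧
      ((P * 2 ^ J : ℕ) : ℝ) * Real.log x ^ b ≤ H ∧
      (((P * 2 ^ J : ℕ) : ℝ) + 1) ^ (2 * r) ≤ (x : ℝ) ^ ((1 - θ) / 100) ∧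
      Real.log P / Real.log ((P * 2 ^ J : ℕ) : ℝ) ≤ C * rho x H ∧
      4 * r ≤ P ∧ 8 * (r : ℝ) / P ≤ 1 / Real.log x ^ 2 ∧
      Real.log x ^ (2 * C2) ≤ (4 : ℝ) ^ (2 * r) ∧ Real.log x ^ (4 * C2) ≤ (8 : ℝ) ^ (2 * r) ∧
      (J : ℝ) ≤ 2 * Real.log x := by
  have hθ' : 0 < 1 - θ := by linarith
  set c1 : ℝ := 400 * (C2 + 1) / (1 - θ) + 1 with hc1
  have hc1' : 1 ≤ c1 := by
    have : 0 ≤ 400 * ((C2 : ℝ) + 1) / (1 - θ) := by positivity
    linarith
  have hc10 : 0 < c1 := by linarith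
  have hb0 : (0 : ℝ) ≤ b := Nat.cast_nonneg b
  have hC20 : (0 : ℝ) ≤ C2 := Nat.cast_nonneg C2
  obtain ⟨x0, hx0⟩ := Par_ev ((b + 3) * c1 + 16 * (C2 + 1))
  refine ⟨2 * b * c1, by have : (4 : ℝ) ≤ b := by exact_mod_cast hb
                         positivity, x0, ?_⟩
  intro x hx H hH1 hH2
  obtain ⟨hL3, hl1, hKL⟩ := hx0 x hx
  unfold rho
  set L := Real.log x with hLdef
  set l := Real.log L with hldef
  have hL0 : 0 < L := by linarith
  have hL1 : 1 ≤ L := by linarith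
  have hl0 : 0 < l := by linarith
  have hxpos : (0 : ℝ) < x := by
    rcases Nat.eq_zero_or_pos x with h | h
    · rw [h, Nat.cast_zero, Real.log_zero] at hLdef
      linarith
    · exact_mod_cast h
  have hexpL : Real.exp L = x := Real.exp_log hxpos
  have hexpl : Real.exp l = L := Real.exp_log hL0
  have hll : l ≤ l ^ 2 := le_self_pow₀ hl1 (by norm_num)
  have hbc : 0 ≤ (b : ℝ) * c1 := by positivity
  -- consequences of the largeness condition
  have hK1 : c1 * l ≤ L := by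
    have h1 : c1 * l ≤ c1 * l ^ 2 := mul_le_mul_of_nonneg_left hll hc10.le
    have h2 : c1 * l ^ 2 ≤ ((b + 3) * c1 + 16 * (C2 + 1)) * l ^ 2 := by
      refine mul_le_mul_of_nonneg_right ?_ (by positivity)
      linarith
    linarith
  have hK3 : 3 * c1 * l ≤ L := by
    have h1 : 3 * c1 * l ≤ 3 * c1 * l ^ 2 := mul_le_mul_of_nonneg_left hll (by positivity)
    have h2 : 3 * c1 * l ^ 2 ≤ ((b + 3) * c1 + 16 * (C2 + 1)) * l ^ 2 := by
      refine mul_le_mul_of_nonneg_right ?_ (by positivity)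
      linarith
    linarith
  have hKb : b * c1 * l ^ 2 ≤ L := by
    have h2 : b * c1 * l ^ 2 ≤ ((b + 3) * c1 + 16 * (C2 + 1)) * l ^ 2 := by
      refine mul_le_mul_of_nonneg_right ?_ (by positivity)
      linarith
    linarith
  have hK16 : 16 * (C2 + 1) * l ≤ L := by
    have h1 : 16 * ((C2 : ℝ) + 1) * l ≤ 16 * (C2 + 1) * l ^ 2 :=
      mul_le_mul_of_nonneg_left hll (by positivity)
    have h2 : 16 * ((C2 : ℝ) + 1) * l ^ 2 ≤ ((b + 3) * c1 + 16 * (C2 + 1)) * l ^ 2 := by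
      refine mul_le_mul_of_nonneg_right ?_ (by positivity)
      linarith
    linarith
  have hLb81 : 81 ≤ L ^ b := by
    calc (81 : ℝ) = 3 ^ 4 := by norm_num
      _ ≤ L ^ 4 := pow_le_pow_left₀ (by norm_num) hL3 4
      _ ≤ L ^ b := pow_le_pow_right₀ hL1 hb
  have hLb0 : 0 < L ^ b := by positivity
  -- `P`
  set P := ⌊L ^ b⌋₊ with hPdef
  have hP1 : (P : ℝ) ≤ L ^ b := Nat.floor_le hLb0.le
  have hP2 : L ^ b < P + 1 := Nat.lt_floor_add_one _
  have hP3 : L ^ b / 2 ≤ P := by linarith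
  have hPpos : (0 : ℝ) < P := by linarith
  have hPpos' : 0 < P := by exact_mod_cast hPpos
  -- `T`, `Pm`
  set T := Real.exp (L / (c1 * l)) with hTdef
  have hT1 : 1 ≤ T := Real.one_le_exp (by positivity)
  set Pm := min ⌊(H : ℝ) / L ^ b⌋₊ ⌊T⌋₊ with hPmdef
  have hH0 : (0 : ℝ) ≤ H := Nat.cast_nonneg H
  have hHpos : (0 : ℝ) < H := lt_of_lt_of_le (by positivity) hH1
  have hLbT : L ^ b ≤ T := by
    have h1 : L ^ b = Real.exp (b * l) := by
      rw [mul_comm, Real.exp_mul, hexpl, Real.rpow_natCast]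
    rw [h1]
    refine Real.exp_le_exp.2 ?_
    rw [le_div_iff₀ (by positivity)]
    calc b * l * (c1 * l) = b * c1 * l ^ 2 := by ring
      _ ≤ L := hKb
  have hLbH : L ^ b ≤ (H : ℝ) / L ^ b := by
    rw [le_div_iff₀ hLb0]
    calc L ^ b * L ^ b = L ^ (2 * b) := by ring
      _ ≤ L ^ (2 * b + 2) := pow_le_pow_right₀ hL1 (by omega)
      _ ≤ H := hH1
  have hPPm : P ≤ Pm := le_min (Nat.floor_le_floor hLbH) (Nat.floor_le_floor hLbT)
  have hPmH : (Pm : ℝ) ≤ (H : ℝ) / L ^ b := by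
    have h1 : (Pm : ℝ) ≤ (⌊(H : ℝ) / L ^ b⌋₊ : ℝ) := by exact_mod_cast min_le_left _ _
    exact h1.trans (Nat.floor_le (by positivity))
  have hPmT : (Pm : ℝ) ≤ T := by
    have h1 : (Pm : ℝ) ≤ (⌊T⌋₊ : ℝ) := by exact_mod_cast min_le_right _ _
    exact h1.trans (Nat.floor_le (by positivity))
  -- `J`
  set J := Nat.log 2 (Pm / P) with hJdef
  have hq : Pm / P ≠ 0 := by
    have := Nat.div_pos hPPm hPpos'
    omega
  have hJ1 : 2 ^ J ≤ Pm / P := Nat.pow_log_le_self 2 hq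
  have hJ2 : Pm / P < 2 ^ (J + 1) := Nat.lt_pow_succ_log_self (by norm_num) _
  have hJ3 : P * 2 ^ J ≤ Pm := (Nat.mul_le_mul_left P hJ1).trans (Nat.mul_div_le Pm P)
  have hJ4 : Pm < 2 * (P * 2 ^ J) := by
    rw [Nat.div_lt_iff_lt_mul hPpos'] at hJ2
    calc Pm < 2 ^ (J + 1) * P := hJ2
      _ = 2 * (P * 2 ^ J) := by ring
  have hJ3' : ((P * 2 ^ J : ℕ) : ℝ) ≤ Pm := by exact_mod_cast hJ3
  have hJ4' : (Pm : ℝ) < 2 * ((P * 2 ^ J : ℕ) : ℝ) := by exact_mod_cast hJ4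
  -- `r`
  set r := ⌈(C2 : ℝ) * l⌉₊ with hrdef
  have hr1 : (C2 : ℝ) * l ≤ r := Nat.le_ceil _
  have hr2 : (r : ℝ) < C2 * l + 1 := Nat.ceil_lt_add_one (by positivity)
  have hr3 : (r : ℝ) ≤ (C2 + 1) * l := by linarith
  have hr0 : (0 : ℝ) ≤ r := Nat.cast_nonneg r
  have h16r : 16 * (r : ℝ) ≤ L := by linarith
  have h8r : 8 * (r : ℝ) * L ^ 2 ≤ P := by
    calc 8 * (r : ℝ) * L ^ 2 = (16 * r) * (L ^ 2 / 2) := by ring
      _ ≤ L * (L ^ 2 / 2) := mul_le_mul_of_nonneg_right h16r (by positivity)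
      _ = L ^ 3 / 2 := by ring
      _ ≤ L ^ b / 2 := by
          have := pow_le_pow_right₀ hL1 (show 3 ≤ b by omega)
          linarith
      _ ≤ P := hP3
  refine ⟨P, J, r, hP3, hP1, ?_, ?_, ?_, ?_, ?_, ?_, ?_, ?_⟩
  · -- (3)
    have h1 : ((P * 2 ^ J : ℕ) : ℝ) ≤ (H : ℝ) / L ^ b := hJ3'.trans hPmH
    rwa [le_div_iff₀ hLb0] at h1
  · -- (4)
    have h1 : ((P * 2 ^ J : ℕ) : ℝ) + 1 ≤ 2 * T := by linarith
    have h2 : 2 * T = Real.exp (Real.log 2 + L / (c1 * l)) := by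
      rw [Real.exp_add, Real.exp_log (by norm_num)]
    have h3 : (((P * 2 ^ J : ℕ) : ℝ) + 1) ^ (2 * r) ≤ (2 * T) ^ (2 * r) :=
      pow_le_pow_left₀ (by positivity) h1 _
    refine h3.trans ?_
    rw [h2, ← Real.exp_nat_mul, Real.rpow_def_of_pos hxpos]
    refine Real.exp_le_exp.2 ?_
    have hlog2 : Real.log 2 ≤ 1 := by
      have := Real.log_two_lt_d9
      linarith
    have hlog2' : 0 ≤ Real.log 2 := Real.log_nonneg (by norm_num)
    have hy : 0 ≤ Real.log 2 + L / (c1 * l) := by positivity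
    have h4 : ((2 * r : ℕ) : ℝ) ≤ 2 * ((C2 + 1) * l) := by
      push_cast
      linarith
    have h5 : 400 * ((C2 : ℝ) + 1) ≤ (1 - θ) * c1 := by
      rw [hc1]
      have : (1 - θ) * (400 * ((C2 : ℝ) + 1) / (1 - θ) + 1) =
        400 * ((C2 : ℝ) + 1) + (1 - θ) := by field_simp
      rw [this]
      linarith
    have h6 : 400 * ((C2 : ℝ) + 1) * l ≤ (1 - θ) * L := by
      calc 400 * ((C2 : ℝ) + 1) * l ≤ (1 - θ) * c1 * l :=
            mul_le_mul_of_nonneg_right h5 hl0.le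
        _ = (1 - θ) * (c1 * l) := by ring
        _ ≤ (1 - θ) * L := mul_le_mul_of_nonneg_left hK1 hθ'.le
    calc ((2 * r : ℕ) : ℝ) * (Real.log 2 + L / (c1 * l))
        ≤ 2 * ((C2 + 1) * l) * (Real.log 2 + L / (c1 * l)) :=
          mul_le_mul_of_nonneg_right h4 hy
      _ = 2 * (C2 + 1) * l * Real.log 2 + 2 * (C2 + 1) * L / c1 := by
          field_simp
      _ ≤ (1 - θ) * L / 200 + (1 - θ) * L / 200 := by
          refine add_le_add ?_ ?_
          · have h7 : 2 * ((C2 : ℝ) + 1) * l * Real.log 2 ≤ 2 * (C2 + 1) * l * 1 :=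
              mul_le_mul_of_nonneg_left hlog2 (by positivity)
            linarith
          · rw [div_le_iff₀ hc10]
            have h8 := mul_le_mul_of_nonneg_right h5 hL0.le
            linarith
      _ = L * ((1 - θ) / 100) := by ring
  · -- (5)
    have hPm1 : 2 * min ((H : ℝ) ^ (1 / 2 : ℝ)) (T ^ (1 / 2 : ℝ)) ≤ Pm := by
      have hmin : (Pm : ℝ) = min (⌊(H : ℝ) / L ^ b⌋₊ : ℝ) (⌊T⌋₊ : ℝ) := by
        rw [hPmdef, Nat.cast_min]
      rw [hmin]
      have hs1 : (1 : ℝ) ≤ (H : ℝ) ^ (1 / 2 : ℝ) := by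
        refine Real.one_le_rpow ?_ (by norm_num)
        exact (one_le_pow₀ hL1).trans hH1
      have hs2 : (H : ℝ) ^ (1 / 2 : ℝ) * (H : ℝ) ^ (1 / 2 : ℝ) = H := by
        rw [← Real.rpow_add hHpos]
        norm_num
      have ht2 : T ^ (1 / 2 : ℝ) * T ^ (1 / 2 : ℝ) = T := by
        rw [← Real.rpow_add (by positivity)]
        norm_num
      have ht1 : (3 : ℝ) ≤ T ^ (1 / 2 : ℝ) := by
        rw [hTdef, ← Real.exp_mul]
        have h1 : (3 : ℝ) / 2 ≤ L / (c1 * l) * (1 / 2) := by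
          rw [div_mul_eq_mul_div, le_div_iff₀ (by positivity)]
          linarith
        exact Par_exp.trans (Real.exp_le_exp.2 h1)
      refine le_min ?_ ?_
      · have h1 : (H : ℝ) / L ^ b < (⌊(H : ℝ) / L ^ b⌋₊ : ℝ) + 1 := Nat.lt_floor_add_one _
        have h2 : L * (H : ℝ) ^ (1 / 2 : ℝ) ≤ (H : ℝ) / L ^ b := by
          rw [le_div_iff₀ hLb0]
          have h3 : L ^ (b + 1) ≤ (H : ℝ) ^ (1 / 2 : ℝ) := by
            have h4 : (L ^ (2 * b + 2) : ℝ) ^ (1 / 2 : ℝ) ≤ (H : ℝ) ^ (1 / 2 : ℝ) :=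
              Real.rpow_le_rpow (by positivity) hH1 (by norm_num)
            have h5 : (L ^ (2 * b + 2) : ℝ) ^ (1 / 2 : ℝ) = L ^ (b + 1) := by
              rw [← Real.rpow_natCast, ← Real.rpow_mul hL0.le, ← Real.rpow_natCast]
              congr 1
              push_cast
              ring
            rwa [h5] at h4
          calc L * (H : ℝ) ^ (1 / 2 : ℝ) * L ^ b
              = (H : ℝ) ^ (1 / 2 : ℝ) * L ^ (b + 1) := by ring
            _ ≤ (H : ℝ) ^ (1 / 2 : ℝ) * (H : ℝ) ^ (1 / 2 : ℝ) :=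
                mul_le_mul_of_nonneg_left h3 (by positivity)
            _ = H := hs2
        have h6 : 3 * (H : ℝ) ^ (1 / 2 : ℝ) ≤ L * (H : ℝ) ^ (1 / 2 : ℝ) :=
          mul_le_mul_of_nonneg_right hL3 (by positivity)
        have h7 := min_le_left ((H : ℝ) ^ (1 / 2 : ℝ)) (T ^ (1 / 2 : ℝ))
        linarith
      · have h1 : T < (⌊T⌋₊ : ℝ) + 1 := Nat.lt_floor_add_one _
        have h7 := min_le_right ((H : ℝ) ^ (1 / 2 : ℝ)) (T ^ (1 / 2 : ℝ))
        have h8 : 3 * T ^ (1 / 2 : ℝ) ≤ T ^ (1 / 2 : ℝ) * T ^ (1 / 2 : ℝ) :=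
          mul_le_mul_of_nonneg_right ht1 (by positivity)
        linarith
    have hlogmin : min (Real.log H / 2) (L / (2 * (c1 * l))) ≤
        Real.log ((P * 2 ^ J : ℕ) : ℝ) := by
      have h1 : min ((H : ℝ) ^ (1 / 2 : ℝ)) (T ^ (1 / 2 : ℝ)) ≤ ((P * 2 ^ J : ℕ) : ℝ) := by
        linarith
      rcases le_total ((H : ℝ) ^ (1 / 2 : ℝ)) (T ^ (1 / 2 : ℝ)) with h2 | h2
      · rw [min_eq_left h2] at h1
        refine (min_le_left _ _).trans ?_
        have h3 := Real.log_le_log (by positivity) h1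
        rw [Real.log_rpow hHpos] at h3
        linarith
      · rw [min_eq_right h2] at h1
        refine (min_le_right _ _).trans ?_
        have h3 := Real.log_le_log (by positivity) h1
        rw [Real.log_rpow (by positivity), hTdef, Real.log_exp] at h3
        calc L / (2 * (c1 * l)) = 1 / 2 * (L / (c1 * l)) := by field_simp
          _ ≤ _ := h3
    have hlogP : Real.log P ≤ b * l := by
      have h1 := Real.log_le_log hPpos hP1
      rwa [Real.log_pow] at h1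
    have hlogH : 0 < Real.log H := by
      have h1 : (1 : ℝ) < H := by
        have h2 : L ^ 1 ≤ L ^ (2 * b + 2) := pow_le_pow_right₀ hL1 (by omega)
        rw [pow_one] at h2
        linarith
      exact Real.log_pos h1
    have hminpos : 0 < min (Real.log H / 2) (L / (2 * (c1 * l))) :=
      lt_min (by positivity) (by positivity)
    have hden : 0 < Real.log ((P * 2 ^ J : ℕ) : ℝ) := lt_of_lt_of_le hminpos hlogmin
    have hbl : 0 ≤ (b : ℝ) * l := by positivity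
    calc Real.log P / Real.log ((P * 2 ^ J : ℕ) : ℝ)
        ≤ b * l / Real.log ((P * 2 ^ J : ℕ) : ℝ) := by
          exact div_le_div_of_nonneg_right hlogP hden.le
      _ ≤ b * l / min (Real.log H / 2) (L / (2 * (c1 * l))) :=
          div_le_div_of_nonneg_left hbl hminpos hlogmin
      _ ≤ b * l / (Real.log H / 2) + b * l / (L / (2 * (c1 * l))) := by
          rcases le_total (Real.log H / 2) (L / (2 * (c1 * l))) with h2 | h2
          · rw [min_eq_left h2]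
            have : 0 ≤ b * l / (L / (2 * (c1 * l))) := by positivity
            linarith
          · rw [min_eq_right h2]
            have : 0 ≤ b * l / (Real.log H / 2) := by positivity
            linarith
      _ = 2 * b * (l / Real.log H) + 2 * b * c1 * (l ^ 2 / L) := by
          field_simp
      _ ≤ 2 * b * c1 * (l / Real.log H) + 2 * b * c1 * (l ^ 2 / L) := by
          have h3 : 0 ≤ 2 * b * (l / Real.log H) := by positivity
          have h4 : 2 * b * (l / Real.log H) * 1 ≤ 2 * b * (l / Real.log H) * c1 :=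
            mul_le_mul_of_nonneg_left hc1' h3
          linarith
      _ = 2 * b * c1 * (l / Real.log H + l ^ 2 / L) := by ring
  · -- (6)
    have h1 : 4 * (r : ℝ) ≤ P := by
      have h2 : (1 : ℝ) ≤ L ^ 2 := one_le_pow₀ hL1
      have h3 : 8 * (r : ℝ) * 1 ≤ 8 * (r : ℝ) * L ^ 2 :=
        mul_le_mul_of_nonneg_left h2 (by positivity)
      linarith
    exact_mod_cast h1
  · -- (7)
    rw [div_le_div_iff₀ hPpos (by positivity)]
    linarith
  · -- (8)
    have h1 : L ^ (2 * C2) = Real.exp (2 * (C2 * l)) := by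
      rw [← Real.rpow_natCast, Real.rpow_def_of_pos hL0]
      congr 1
      push_cast
      ring
    have h2 : (4 : ℝ) ^ (2 * r) = Real.exp (Real.log 4 * (2 * r)) := by
      rw [← Real.rpow_natCast, Real.rpow_def_of_pos (by norm_num)]
      push_cast
      rfl
    rw [h1, h2]
    refine Real.exp_le_exp.2 ?_
    have h3 : 1 ≤ Real.log 4 := by
      have h4 : Real.log 4 = 2 * Real.log 2 := by
        rw [show (4 : ℝ) = 2 ^ 2 by norm_num, Real.log_pow]
        norm_num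
      have := Real.log_two_gt_d9
      linarith
    have h5 : 1 * (2 * (r : ℝ)) ≤ Real.log 4 * (2 * r) :=
      mul_le_mul_of_nonneg_right h3 (by positivity)
    linarith
  · -- (9)
    have h1 : L ^ (4 * C2) = Real.exp (4 * (C2 * l)) := by
      rw [← Real.rpow_natCast, Real.rpow_def_of_pos hL0]
      congr 1
      push_cast
      ring
    have h2 : (8 : ℝ) ^ (2 * r) = Real.exp (Real.log 8 * (2 * r)) := by
      rw [← Real.rpow_natCast, Real.rpow_def_of_pos (by norm_num)]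
      push_cast
      rfl
    rw [h1, h2]
    refine Real.exp_le_exp.2 ?_
    have h3 : 2 ≤ Real.log 8 := by
      have h4 : Real.log 8 = 3 * Real.log 2 := by
        rw [show (8 : ℝ) = 2 ^ 3 by norm_num, Real.log_pow]
        norm_num
      have := Real.log_two_gt_d9
      linarith
    have h5 : 2 * (2 * (r : ℝ)) ≤ Real.log 8 * (2 * r) :=
      mul_le_mul_of_nonneg_right h3 (by positivity)
    linarith
  · -- (10)
    have h1 : (2 : ℝ) ^ J ≤ x := by
      have h2 : (2 : ℝ) ^ J ≤ ((P * 2 ^ J : ℕ) : ℝ) := by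
        push_cast
        have hP1' : (1 : ℝ) ≤ P := by exact_mod_cast hPpos'
        exact le_mul_of_one_le_left (by positivity) hP1'
      have h3 : (H : ℝ) / L ^ b ≤ H := div_le_self hH0 (by linarith)
      have h4 : (H : ℝ) ≤ (H : ℝ) ^ 2 :=
        le_self_pow₀ ((one_le_pow₀ hL1).trans hH1) (by norm_num)
      linarith
    have h5 := Real.log_le_log (by positivity) h1
    rw [Real.log_pow] at h5
    have h6 := Real.log_two_gt_d9
    have hJ0 : (0 : ℝ) ≤ J := Nat.cast_nonneg J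
    have h7 : (J : ℝ) * (1 / 2) ≤ J * Real.log 2 :=
      mul_le_mul_of_nonneg_left (by linarith) hJ0
    linarith

end Pool.Agent.H35.U
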