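import Pool.Agent.H35.U.PtB
import Pool.Agent.H35.U.Par
import Pool.Agent.H35.U.BlkA
import Pool.Agent.H35.U.BlkP
import Pool.Agent.H35.W.Dec

/-!
# U Blk: one block

Order of the choices: `kap = (1-θ)/2`; `W.dec kap B` gives `η`; `blk_avg c B η` gives `b0`, `m0`;
`b = max b0 (3B+10)`, `m = max m0 20`, `C2 = c + 3B + 50`; `par θ b C2` gives `C0`; `blk_pt` gives `C`.
Result exponent `2b + 2`.  For given `x`, `a0`, `Q`, `H`: `P`, `J`, `r` from `par`; `M = a0 + H + ⌈x/L^3⌉₊`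
(`≤ 2x/L^3`, `≤ x`), `f n = hR R n` on `(M,x]`, `0` elsewhere, `R = ⌊L^B⌋₊`; `S2 f x ≤ S2 (hR R) x ≤ 15 x L ≤ x L²`
(`hr_sq`); `dec` gives `fb`, `g`.  `X a q` = the summand of `blk_avg` (`K = x/Q`).  `pt_blk` with
`δb = 1/L^40` (`1/L^(2m) ≤ 1/L^40`): for `T ∈ sb S (2r)`, the modulus `q pr T` satisfies `H ≤ Q < q ≤ q pr T` and
`q pr T ≤ 2 x^θ (P 2^J)^(2r) ≤ 2 x^(θ + (1-θ)/100) ≤ x^(1 - kap)` (`pr_le`), `x < (x/Q+1) q` as `q > Q`; `R ≤ P`.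
-/

set_option autoImplicit false

namespace Pool.Agent.H35.U

open Finset Filter
open Pool.Agent.H91.EHA (Lam lamR hR psiA)
open Pool.Agent.H87.WL (PP PPc Mu Om gR)
open Pool.Agent.H76.EHB (S2)
open Pool.Agent.H35.W (Rk rgh fcs CorB)

private theorem blk_ev (n : ℕ) {s : ℝ} (hs : 0 < s) :
    ∀ᶠ x : ℕ in atTop, Real.log x ^ n ≤ (x : ℝ) ^ s := by
  have h := (isLittleO_log_rpow_rpow_atTop (n : ℝ) hs).bound one_pos
  have h2 := tendsto_natCast_atTop_atTop.eventually h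
  filter_upwards [h2] with x hx
  rw [one_mul, Real.norm_eq_abs, Real.norm_eq_abs, Real.rpow_natCast] at hx
  rw [abs_of_nonneg (Real.rpow_nonneg (Nat.cast_nonneg x) s)] at hx
  exact (le_abs_self _).trans hx

private theorem blk_S2 (f h : ℕ → ℝ) (M x : ℕ) (hf : ∀ n, f n = if n ∈ Ioc M x then h n else 0) :
    S2 f x ≤ S2 h x := by
  unfold S2
  refine sum_le_sum ?_
  intro n _
  rw [hf n]
  split_ifs
  · exact le_rfl
  · rw [zero_pow (by norm_num)]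
    positivity

private theorem blk_mod (θ : ℝ) (x Q H P J r q : ℕ) (T : Finset ℕ) (hx : (1 : ℝ) ≤ x)
    (h2 : (2 : ℝ) ≤ (x : ℝ) ^ ((1 - θ) / 4)) (hθ : θ < 1)
    (hP : 1 ≤ P) (hq1 : Q < q) (hq2 : q ≤ 2 * Q) (hHQ : H ≤ Q) (hQx : (Q : ℝ) ≤ (x : ℝ) ^ θ)
    (hr : (((P * 2 ^ J : ℕ) : ℝ) + 1) ^ (2 * r) ≤ (x : ℝ) ^ ((1 - θ) / 100))
    (hT : T ∈ sb (PP P (P * 2 ^ J)) (2 * r)) :
    1 ≤ q * pr T ∧ H ≤ q * pr T ∧ ((q * pr T : ℕ) : ℝ) ≤ (x : ℝ) ^ (1 - (1 - θ) / 2) := by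
  rw [mem_sb] at hT
  have hprime : ∀ p ∈ PP P (P * 2 ^ J), p.Prime := by
    intro p hp
    unfold PP at hp
    exact (mem_filter.1 hp).2
  have h1 : 1 ≤ pr T := pr_pos _ hprime T hT.1
  have hX1 : 1 ≤ P * 2 ^ J := Nat.mul_pos hP (Nat.pow_pos (by norm_num))
  have hle : pr T ≤ (P * 2 ^ J) ^ (2 * r) := by
    refine pr_le T _ _ hX1 ?_ hT.2
    intro p hp
    have := hT.1 hp
    unfold PP at this
    exact (mem_Ioc.1 (mem_filter.1 this).1).2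
  have hqp : q ≤ q * pr T := Nat.le_mul_of_pos_right _ h1
  refine ⟨by omega, by omega, ?_⟩
  have hx0 : (0 : ℝ) < x := by linarith
  have hprR : (pr T : ℝ) ≤ (x : ℝ) ^ ((1 - θ) / 100) := by
    have h3 : (pr T : ℝ) ≤ (((P * 2 ^ J : ℕ) : ℝ)) ^ (2 * r) := by exact_mod_cast hle
    refine h3.trans (le_trans ?_ hr)
    gcongr
    linarith
  have hqR : (q : ℝ) ≤ 2 * (x : ℝ) ^ θ := by
    have h3 : (q : ℝ) ≤ 2 * Q := by exact_mod_cast hq2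
    linarith
  push_cast
  calc (q : ℝ) * pr T ≤ (2 * (x : ℝ) ^ θ) * (x : ℝ) ^ ((1 - θ) / 100) := by gcongr
    _ ≤ ((x : ℝ) ^ ((1 - θ) / 4) * (x : ℝ) ^ θ) * (x : ℝ) ^ ((1 - θ) / 100) := by gcongr
    _ = (x : ℝ) ^ ((1 - θ) / 4 + θ + (1 - θ) / 100) := by
        rw [Real.rpow_add hx0, Real.rpow_add hx0]
    _ ≤ (x : ℝ) ^ (1 - (1 - θ) / 2) := by
        refine Real.rpow_le_rpow_of_exponent_le hx ?_
        linarith

theorem blk (θ : ℝ) (hθ : θ < 1) (c B : ℕ) (hB : 2 * c + 15 ≤ B) : ∃ (b : ℕ) (C : ℝ), 0 < C ∧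
    ∃ x0 : ℕ, ∀ x : ℕ, x0 ≤ x → ∀ a0 Q H : ℕ, Real.log x ^ b ≤ H → (H : ℝ) ^ 2 ≤ x → H ≤ Q →
      (a0 : ℝ) ≤ (x : ℝ) ^ θ → (Q : ℝ) ≤ (x : ℝ) ^ θ →
      ∃ X : ℕ → ℕ → ℝ, (∀ a q, 0 ≤ X a q) ∧
        (∑ a ∈ Ioc a0 (a0 + H), ∑ q ∈ Ioc Q (2 * Q), X a q ≤ H * x / Real.log x ^ c) ∧
        ∀ a ∈ Ioc a0 (a0 + H), ∀ q ∈ Ioc Q (2 * Q), Nat.Coprime a q →
          |psiA x q a - (x : ℝ) / q * gR ⌊Real.log x ^ B⌋₊ q| ≤
            C * rho x H * ((x : ℝ) / q.totient) + X a q := by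
  obtain ⟨η, hη, hdec⟩ := Pool.Agent.H35.W.dec ((1 - θ) / 2) (by linarith) B
  obtain ⟨b0, m0, havg⟩ := blk_avg c B hB η hη
  obtain ⟨b, hb⟩ : ∃ b : ℕ, b = max b0 (3 * B + 10) := ⟨_, rfl⟩
  obtain ⟨m, hm⟩ : ∃ m : ℕ, m = max m0 20 := ⟨_, rfl⟩
  have hb0 : b0 ≤ b := hb ▸ le_max_left _ _
  have hb3 : 3 * B + 10 ≤ b := hb ▸ le_max_right _ _
  have hm0 : m0 ≤ m := hm ▸ le_max_left _ _
  have hm20 : 20 ≤ m := hm ▸ le_max_right _ _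
  obtain ⟨x1, havg⟩ := havg b hb0 m hm0
  obtain ⟨x2, hdec⟩ := hdec m hm20
  obtain ⟨C0, hC0, x3, hpar⟩ := par θ hθ b (c + 3 * B + 50) (by omega)
  obtain ⟨C, hC, x4, hpt⟩ := blk_pt θ hθ B b (c + 3 * B + 50) hb3 (by omega) C0 hC0
  obtain ⟨x5, hsq⟩ := Pool.Agent.H35.W.hr_sq B
  have hlogt : Tendsto (fun x : ℕ => Real.log (x : ℝ)) atTop atTop :=
    Real.tendsto_log_atTop.comp tendsto_natCast_atTop_atTop
  have hpowt : ∀ s : ℝ, 0 < s → ∀ᶠ x : ℕ in atTop, (12 : ℝ) ≤ (x : ℝ) ^ s := fun s hs =>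
    ((tendsto_rpow_atTop hs).comp tendsto_natCast_atTop_atTop).eventually_ge_atTop 12
  have hev : ∀ᶠ x : ℕ in atTop, x1 ≤ x ∧ x2 ≤ x ∧ x3 ≤ x ∧ x4 ≤ x ∧ x5 ≤ x ∧ 2 ≤ x ∧
      20 ≤ Real.log x ∧ (12 : ℝ) ≤ (x : ℝ) ^ ((1 - θ) / 4) ∧ (12 : ℝ) ≤ (x : ℝ) ^ (1 / 8 : ℝ) ∧
      Real.log x ^ 3 ≤ (x : ℝ) ^ ((1 - θ) / 4) ∧ Real.log x ^ 3 ≤ (x : ℝ) ^ (1 / 8 : ℝ) := by
    filter_upwards [eventually_ge_atTop x1, eventually_ge_atTop x2, eventually_ge_atTop x3,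
      eventually_ge_atTop x4, eventually_ge_atTop x5, eventually_ge_atTop 2,
      hlogt.eventually_ge_atTop 20, hpowt _ (by linarith : (0 : ℝ) < (1 - θ) / 4),
      hpowt (1 / 8) (by norm_num), blk_ev 3 (by linarith : (0 : ℝ) < (1 - θ) / 4),
      blk_ev 3 (by norm_num : (0 : ℝ) < 1 / 8)] with x h1 h2 h3 h4 h5 h6 h7 h8 h9 h10 h11
    exact ⟨h1, h2, h3, h4, h5, h6, h7, h8, h9, h10, h11⟩
  obtain ⟨x0, hev⟩ := eventually_atTop.1 hev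
  refine ⟨2 * b + 2, C, hC, x0, ?_⟩
  intro x hx a0 Q H hH1 hH2 hHQ ha0 hQx
  obtain ⟨hx1, hx2, hx3, hx4, hx5, hxx, hL20, h12a, h12b, hL3a, hL3b⟩ := hev x hx
  obtain ⟨P, J, r, hP1, hP2, hPJ, hPr, hPlog, hrP, h8r, h4p, h8p, hJ⟩ := hpar x hx3 H hH1 hH2
  set L : ℝ := Real.log x with hL
  have hL0 : 0 < L := by linarith
  have hL1 : 1 ≤ L := by linarith
  have hxR : (2 : ℝ) ≤ x := by exact_mod_cast hxx
  have hx0 : (0 : ℝ) < x := by linarith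
  have hx1R : (1 : ℝ) ≤ x := by linarith
  set R : ℕ := ⌊L ^ B⌋₊ with hRdef
  -- sizes
  have hLb : L ≤ L ^ b := le_self_pow₀ hL1 (by omega)
  have hPR : (1 : ℝ) ≤ P := by linarith
  have hPn : 1 ≤ P := by exact_mod_cast hPR
  have hRle : (R : ℝ) ≤ L ^ B := Nat.floor_le (by positivity)
  have hRP : R ≤ P := by
    have h1 : L ^ B * 2 ≤ L ^ b := by
      calc L ^ B * 2 ≤ L ^ B * L := by
            gcongr
            linarith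
        _ = L ^ (B + 1) := (pow_succ _ _).symm
        _ ≤ L ^ b := pow_le_pow_right₀ hL1 (by omega)
    have h2 : (R : ℝ) ≤ P := by linarith
    exact_mod_cast h2
  have hH0 : (2 : ℝ) ≤ H := by
    have h1 : L ≤ L ^ (2 * b + 2) := le_self_pow₀ hL1 (by omega)
    linarith
  have hHn : 2 ≤ H := by exact_mod_cast hH0
  have hQ1 : 1 ≤ Q := by omega
  have hPJH : ((P * 2 ^ J : ℕ) : ℝ) ≤ H := by
    have h1 : ((P * 2 ^ J : ℕ) : ℝ) * 1 ≤ ((P * 2 ^ J : ℕ) : ℝ) * L ^ b := by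
      gcongr
      linarith
    linarith
  -- the parameter `M`
  obtain ⟨M, hM⟩ : ∃ M : ℕ, M = a0 + H + ⌈(x : ℝ) / L ^ 3⌉₊ := ⟨_, rfl⟩
  have hMR : (M : ℝ) = (a0 : ℝ) + H + (⌈(x : ℝ) / L ^ 3⌉₊ : ℝ) := by rw [hM]; push_cast; ring
  have hceil1 := Nat.le_ceil ((x : ℝ) / L ^ 3)
  have hceil2 : (⌈(x : ℝ) / L ^ 3⌉₊ : ℝ) < (x : ℝ) / L ^ 3 + 1 :=
    Nat.ceil_lt_add_one (by positivity)
  have hsmall1 : 4 * (x : ℝ) ^ θ ≤ (x : ℝ) / L ^ 3 := by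
    rw [le_div_iff₀ (by positivity)]
    calc 4 * (x : ℝ) ^ θ * L ^ 3 ≤ (x : ℝ) ^ ((1 - θ) / 4) * (x : ℝ) ^ θ *
          (x : ℝ) ^ ((1 - θ) / 4) := by
          gcongr
          linarith
      _ = (x : ℝ) ^ ((1 - θ) / 4 + θ + (1 - θ) / 4) := by
          rw [Real.rpow_add hx0, Real.rpow_add hx0]
      _ ≤ (x : ℝ) ^ (1 : ℝ) := by
          refine Real.rpow_le_rpow_of_exponent_le hx1R ?_
          linarith
      _ = x := Real.rpow_one _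
  have hHle : (H : ℝ) ≤ (x : ℝ) ^ (1 / 2 : ℝ) := by
    refine le_of_pow_le_pow_left₀ (n := 2) (by norm_num) (by positivity) ?_
    refine hH2.trans (le_of_eq ?_)
    rw [← Real.rpow_natCast, ← Real.rpow_mul hx0.le]
    norm_num
  have hsmall2 : 4 * (x : ℝ) ^ (1 / 2 : ℝ) ≤ (x : ℝ) / L ^ 3 := by
    rw [le_div_iff₀ (by positivity)]
    calc 4 * (x : ℝ) ^ (1 / 2 : ℝ) * L ^ 3 ≤ (x : ℝ) ^ (1 / 8 : ℝ) * (x : ℝ) ^ (1 / 2 : ℝ) *
          (x : ℝ) ^ (1 / 8 : ℝ) := by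
          gcongr
          linarith
      _ = (x : ℝ) ^ (1 / 8 + 1 / 2 + 1 / 8 : ℝ) := by
          rw [Real.rpow_add hx0, Real.rpow_add hx0]
      _ ≤ (x : ℝ) ^ (1 : ℝ) := by
          refine Real.rpow_le_rpow_of_exponent_le hx1R ?_
          norm_num
      _ = x := Real.rpow_one _
  have hM2 : (M : ℝ) ≤ 2 * x / L ^ 3 := by
    have e1 : 2 * (x : ℝ) / L ^ 3 = (x : ℝ) / L ^ 3 + (x : ℝ) / L ^ 3 := by ring
    rw [hMR, e1]
    linarith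
  have hMx : M ≤ x := by
    have h1 : 2 * (x : ℝ) / L ^ 3 ≤ x := by
      rw [div_le_iff₀ (by positivity)]
      have h2 : L ≤ L ^ 3 := le_self_pow₀ hL1 (by norm_num)
      nlinarith
    have h2 : (M : ℝ) ≤ x := hM2.trans h1
    exact_mod_cast h2
  have hM3 : (a0 : ℝ) + x / L ^ 3 ≤ M := by
    rw [hMR]
    linarith
  have haM : a0 + H ≤ M := by omega
  -- the decomposition
  obtain ⟨f, hf⟩ : ∃ f : ℕ → ℝ, ∀ n, f n = if n ∈ Ioc M x then hR R n else 0 := ⟨_, fun _ => rfl⟩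
  have hS2f : S2 f x ≤ 15 * x * L := (blk_S2 f (hR R) M x hf).trans (hsq x hx5 x le_rfl)
  have hS2f' : S2 f x ≤ x * L ^ 2 := by
    refine hS2f.trans ?_
    have h1 : 15 * (x : ℝ) * L ≤ L * x * L := by
      gcongr
      linarith
    calc 15 * (x : ℝ) * L ≤ L * x * L := h1
      _ = x * L ^ 2 := by ring
  obtain ⟨fb, g, hfg, hcor, hS2g, hfb⟩ := hdec x hx2 x M a0 H f le_rfl haM
    (fun n hn => by rw [hf n, if_pos hn]) (fun n hn => by rw [hf n, if_neg hn]) hS2f'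
  have hfg' : ∀ n, fb n + g n = if n ∈ Ioc M x then hR R n else 0 := by
    intro n
    rw [← hfg n, hf n]
  refine ⟨fun a q => |∑ k ∈ fcs P J (x / Q), g (a + k * q)|
      + ∑ k ∈ Icc 1 (x / Q), tw (PP P (P * 2 ^ J)) (2 * r) k * |fb (a + k * q)|
      + ∑ k ∈ Icc 1 (x / Q), tw (PP P (P * 2 ^ J)) (2 * r) k * |vR R M x (a + k * q)|,
    ?_, ?_, ?_⟩
  · intro a q
    have h1 : ∀ v : ℕ → ℝ, 0 ≤ ∑ k ∈ Icc 1 (x / Q),
        tw (PP P (P * 2 ^ J)) (2 * r) k * |v (a + k * q)| := fun v =>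
      sum_nonneg (fun k _ => mul_nonneg (tw_nonneg _ _ _) (abs_nonneg _))
    have h2 := h1 fb
    have h3 := h1 (vR R M x)
    have h4 := abs_nonneg (∑ k ∈ fcs P J (x / Q), g (a + k * q))
    dsimp only
    linarith
  · exact havg x hx1 fb g M a0 Q H P J r hcor hM3 hfg' (hS2g.trans hS2f) hQ1 hH2 hP1 hPJ h4p hJ
  · intro a ha q hq haq
    dsimp only
    have ha' := mem_Ioc.1 ha
    have hq' := mem_Ioc.1 hq
    have ha1 : 1 ≤ a := by omega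
    have hq1 : 1 ≤ q := by omega
    have haR : (a : ℝ) ≤ 2 * (x : ℝ) ^ θ := by
      have h1 : (a : ℝ) ≤ a0 + H := by exact_mod_cast ha'.2
      have h2 : (H : ℝ) ≤ Q := by exact_mod_cast hHQ
      linarith
    have hK : x < (x / Q + 1) * q := by
      have h1 : x < Q * (x / Q + 1) := Nat.lt_mul_div_succ x hQ1
      calc x < Q * (x / Q + 1) := h1
        _ ≤ q * (x / Q + 1) := Nat.mul_le_mul_right _ hq'.1.le
        _ = (x / Q + 1) * q := mul_comm _ _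
    have hpt' := pt_blk x M a q (x / Q) P J (2 * r) R fb g (1 / L ^ 40) hxx hq1 ha1 haq
      (by omega) hMx hK hRP hPn (by positivity) hfg' hcor.supp (by
        intro T hT
        obtain ⟨hT1, hT2, hT3⟩ := blk_mod θ x Q H P J r q T hx1R (by linarith) hθ hPn hq'.1 hq'.2
          hHQ hQx hPr hT
        refine (hfb a ha (q * pr T) hT1 hT2 hT3).trans ?_
        have h1 : L ^ 40 ≤ L ^ (2 * m) := pow_le_pow_right₀ hL1 (by omega)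
        push_cast
        rw [div_eq_mul_one_div ((x : ℝ) / ((q : ℝ) * pr T)) (L ^ (2 * m))]
        gcongr)
    have hblk := hpt x hx4 a q Q M H P J r ha1 haR hQ1 hq hQx haq hM2 hHn hH2 hP1 hP2 hPJH hPr
      hPlog hrP h8r h8p
    linarith

end Pool.Agent.H35.U
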