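import Pool.Agent.H35.U.Defs

/-!
# U Bonf: the pure sieve

For a set `S` of primes and `k`, `S_k = {p ∈ S : p ∣ k}`, `ω = |S_k| = Om S k`.  For `T ⊆ S`:
`pr T ∣ k ↔ T ⊆ S_k` (distinct primes).  So `∑_{T ∈ sb S m} (-1)^|T| [pr T ∣ k] = ∑_{j ≤ m} (-1)^j C(ω, j)`.

* `bonf_abs`: if `ω ≤ m` the sum is `0^ω` (`Finset.sum_powerset_neg_one_pow_card` or
  `Int.alternating_sum_range_choose`), equal to the indicator of `ω = 0`; if `ω > m` the indicator is `0`
  and the sum is at most `2^ω` in absolute value (at most `2^ω` subsets of `S_k`).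
* `bonf_upper`: `ω = 0`: the sum is `1`.  `ω ≥ 1`: `∑_{j ≤ 2r} (-1)^j C(ω,j) = C(ω-1, 2r) ≥ 0`
  (induction on the upper limit: `∑_{j ≤ n} (-1)^j C(ω,j) = (-1)^n C(ω-1,n)`).
* `bonf_mu`: `∑_{T ⊆ S} (-1)^|T|/pr T = ∏ (1-1/p) ≤ exp(-Mu S)` (`Finset.prod_one_sub...`,
  `Finset.prod_add` / `Finset.prod_one_add`), and the subsets with more than `m` elements contribute at
  most `∑_T 8^(|T|-m)/pr T ≤ 8^(-m) ∏ (1 + 8/p) ≤ exp(8 Mu S)/8^m`.
* `sb_inv`: `∑_{T ⊆ S} 1/pr T = ∏ (1 + 1/p) ≤ exp(Mu S)`.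
* `sb_card`: `∑_{T ∈ sb S m} 1 ≤ (|S|+1)^m`: e.g. the map from functions `Fin m → Option S` (image without
  `none`) onto `sb S m` is surjective; or `∑_{j ≤ m} C(|S|,j) ≤ (|S|+1)^m` by induction on `m`
  (`C(n,j) ≤ n^j/j!`, binomial theorem).
* `pr_pos`, `pr_le`: positivity, `pr T ≤ X^m` if all elements are `≤ X`, `X ≥ 1`.
-/

set_option autoImplicit false

namespace Pool.Agent.H35.U

open Finset
open Pool.Agent.H87.WL (PP PPc Mu Om)

theorem pr_pos (S : Finset ℕ) (hS : ∀ p ∈ S, p.Prime) (T : Finset ℕ) (hT : T ⊆ S) : 1 ≤ pr T :=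
  Nat.one_le_iff_ne_zero.2 (prod_ne_zero_iff.2 fun p hp => (hS p (hT hp)).ne_zero)

theorem pr_le (T : Finset ℕ) (X m : ℕ) (hX : 1 ≤ X) (hT : ∀ p ∈ T, p ≤ X) (hm : T.card ≤ m) :
    pr T ≤ X ^ m := by
  have h1 : pr T ≤ X ^ T.card := prod_le_pow_card T (fun p => p) X hT
  exact h1.trans (Nat.pow_le_pow_right hX hm)

theorem pr_dvd (S : Finset ℕ) (hS : ∀ p ∈ S, p.Prime) (T : Finset ℕ) (hT : T ⊆ S) (k : ℕ) :
    pr T ∣ k ↔ ∀ p ∈ T, p ∣ k := by
  constructor
  · intro h p hp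
    exact (dvd_prod_of_mem (fun p => p) hp).trans h
  · intro h
    exact prod_primes_dvd k (fun p hp => (hS p (hT hp)).prime) h

private theorem Bonf_restrict (S : Finset ℕ) (hS : ∀ p ∈ S, p.Prime) (m k : ℕ) :
    ∑ T ∈ sb S m, (-1 : ℝ) ^ T.card * (if pr T ∣ k then 1 else 0) =
      ∑ T ∈ sb (S.filter (fun p => p ∣ k)) m, (-1 : ℝ) ^ T.card := by
  have h1 : sb (S.filter (fun p => p ∣ k)) m = (sb S m).filter (fun T => pr T ∣ k) := by
    ext T
    rw [mem_filter, mem_sb, mem_sb]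
    constructor
    · rintro ⟨h, hc⟩
      have hTS : T ⊆ S := h.trans (filter_subset _ _)
      exact ⟨⟨hTS, hc⟩, (pr_dvd S hS T hTS k).2 fun p hp => (mem_filter.1 (h hp)).2⟩
    · rintro ⟨⟨hTS, hc⟩, h⟩
      exact ⟨fun p hp => mem_filter.2 ⟨hTS hp, (pr_dvd S hS T hTS k).1 h p hp⟩, hc⟩
  rw [h1, sum_filter]
  refine sum_congr rfl fun T _ => ?_
  split_ifs <;> ring

private theorem Bonf_full (A : Finset ℕ) :
    ∑ T ∈ A.powerset, (-1 : ℝ) ^ T.card = if A = ∅ then 1 else 0 := by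
  have h := sum_powerset_neg_one_pow_card (x := A)
  have h2 := congrArg (fun z : ℤ => (z : ℝ)) h
  push_cast at h2
  rw [h2]

private theorem Bonf_trunc (A : Finset ℕ) (n m : ℕ) (hA : A.card = n + 1) :
    ∑ T ∈ sb A m, (-1 : ℝ) ^ T.card = (-1) ^ m * (n.choose m : ℝ) := by
  have h1 : ∑ T ∈ sb A m, (-1 : ℝ) ^ T.card =
      ∑ T ∈ A.powerset, (fun j : ℕ => if j ≤ m then (-1 : ℝ) ^ j else 0) T.card := by
    unfold sb
    rw [sum_filter]
  rw [h1, sum_powerset_apply_card (fun j : ℕ => if j ≤ m then (-1 : ℝ) ^ j else 0), hA]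
  have h2 : ∑ j ∈ range (n + 1 + 1), (n + 1).choose j • (if j ≤ m then (-1 : ℝ) ^ j else 0) =
      ∑ j ∈ range (max (n + 2) (m + 1)),
        (n + 1).choose j • (if j ≤ m then (-1 : ℝ) ^ j else 0) := by
    apply sum_subset
    · intro j hj
      rw [mem_range] at hj ⊢
      exact lt_of_lt_of_le hj (le_max_left _ _)
    · intro j _ hj
      rw [mem_range, not_lt] at hj
      rw [Nat.choose_eq_zero_of_lt (by omega), zero_nsmul]
  have h3 : ∑ j ∈ range (m + 1), (-1 : ℝ) ^ j * ((n + 1).choose j : ℝ) =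
      ∑ j ∈ range (max (n + 2) (m + 1)),
        (n + 1).choose j • (if j ≤ m then (-1 : ℝ) ^ j else 0) := by
    have h4 : ∑ j ∈ range (m + 1), (-1 : ℝ) ^ j * ((n + 1).choose j : ℝ) =
        ∑ j ∈ range (m + 1), (n + 1).choose j • (if j ≤ m then (-1 : ℝ) ^ j else 0) := by
      refine sum_congr rfl fun j hj => ?_
      rw [mem_range] at hj
      rw [if_pos (by omega), nsmul_eq_mul, mul_comm]
    rw [h4]
    apply sum_subset
    · intro j hj
      rw [mem_range] at hj ⊢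
      exact lt_of_lt_of_le hj (le_max_right _ _)
    · intro j _ hj
      rw [mem_range, not_lt] at hj
      rw [if_neg (by omega), smul_zero]
  rw [h2, ← h3]
  have h5 := Int.alternating_sum_range_choose_eq_choose (n := n) (m := m)
  have h6 := congrArg (fun z : ℤ => (z : ℝ)) h5
  push_cast at h6
  exact h6

private theorem Bonf_ind (S : Finset ℕ) (k : ℕ) :
    (if ∀ p ∈ S, ¬ p ∣ k then (1 : ℝ) else 0) =
      if S.filter (fun p => p ∣ k) = ∅ then 1 else 0 := by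
  have h : (∀ p ∈ S, ¬ p ∣ k) ↔ S.filter (fun p => p ∣ k) = ∅ := filter_eq_empty_iff.symm
  simp only [h]

private theorem Bonf_empty (m : ℕ) : ∑ T ∈ sb (∅ : Finset ℕ) m, (-1 : ℝ) ^ T.card = 1 := by
  have h : sb (∅ : Finset ℕ) m = {∅} := by
    ext T
    rw [mem_sb, mem_singleton, subset_empty]
    constructor
    · exact fun h => h.1
    · rintro rfl
      exact ⟨rfl, by simp⟩
  rw [h, sum_singleton]
  simp

theorem bonf_upper (S : Finset ℕ) (hS : ∀ p ∈ S, p.Prime) (r k : ℕ) :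
    (if ∀ p ∈ S, ¬ p ∣ k then (1 : ℝ) else 0) ≤
      ∑ T ∈ sb S (2 * r), (-1 : ℝ) ^ T.card * (if pr T ∣ k then 1 else 0) := by
  rw [Bonf_restrict S hS, Bonf_ind]
  split_ifs with h
  · rw [h, Bonf_empty]
  · obtain ⟨n, hn⟩ : ∃ n, (S.filter (fun p => p ∣ k)).card = n + 1 :=
      Nat.exists_eq_succ_of_ne_zero (fun h0 => h (card_eq_zero.1 h0))
    rw [Bonf_trunc _ n _ hn, pow_mul]
    norm_num

theorem bonf_abs (S : Finset ℕ) (hS : ∀ p ∈ S, p.Prime) (m k : ℕ) :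
    |∑ T ∈ sb S m, (-1 : ℝ) ^ T.card * (if pr T ∣ k then 1 else 0) -
      (if ∀ p ∈ S, ¬ p ∣ k then (1 : ℝ) else 0)| ≤ tw S m k := by
  rw [Bonf_restrict S hS, Bonf_ind]
  unfold tw Om
  split_ifs with h1 h2 h2
  · rw [h1, card_empty] at h2
    omega
  · rw [h1, Bonf_empty]
    simp
  · rw [sub_zero]
    refine (abs_sum_le_sum_abs _ _).trans ?_
    have h3 : ∀ T ∈ sb (S.filter (fun p => p ∣ k)) m, |(-1 : ℝ) ^ T.card| = 1 := fun T _ => by
      rw [abs_pow, abs_neg, abs_one, one_pow]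
    rw [sum_congr rfl h3, sum_const, nsmul_eq_mul, mul_one]
    have h4 : (sb (S.filter (fun p => p ∣ k)) m).card ≤ 2 ^ (S.filter (fun p => p ∣ k)).card := by
      rw [← card_powerset]
      exact card_le_card (filter_subset _ _)
    exact_mod_cast h4
  · have h3 : sb (S.filter (fun p => p ∣ k)) m = (S.filter (fun p => p ∣ k)).powerset := by
      unfold sb
      rw [filter_true_of_mem]
      intro T hT
      exact (card_le_card (mem_powerset.1 hT)).trans (not_lt.1 h2)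
    rw [h3, Bonf_full, if_neg h1]
    simp

private theorem Bonf_prod (S : Finset ℕ) (c : ℝ) :
    ∑ T ∈ S.powerset, c ^ T.card / (pr T : ℝ) = ∏ p ∈ S, (1 + c / (p : ℝ)) := by
  rw [prod_one_add]
  refine sum_congr rfl fun T _ => ?_
  unfold pr
  rw [prod_div_distrib, prod_const]
  push_cast
  rfl

private theorem Bonf_exp (S : Finset ℕ) (c : ℝ) (hc : ∀ p ∈ S, 0 ≤ 1 + c / (p : ℝ)) :
    ∏ p ∈ S, (1 + c / (p : ℝ)) ≤ Real.exp (c * Mu S) := by
  unfold Mu
  rw [mul_sum, Real.exp_sum]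
  refine prod_le_prod hc fun p _ => ?_
  have h := Real.add_one_le_exp (c * (1 / (p : ℝ)))
  rw [mul_one_div] at h ⊢
  linarith

theorem bonf_mu (S : Finset ℕ) (hS : ∀ p ∈ S, p.Prime) (m : ℕ) :
    |∑ T ∈ sb S m, (-1 : ℝ) ^ T.card / (pr T : ℝ)| ≤ eb S m := by
  have hsplit : ∑ T ∈ S.powerset, (-1 : ℝ) ^ T.card / (pr T : ℝ) =
      ∑ T ∈ sb S m, (-1 : ℝ) ^ T.card / (pr T : ℝ) +
        ∑ T ∈ S.powerset.filter (fun T => ¬ T.card ≤ m), (-1 : ℝ) ^ T.card / (pr T : ℝ) :=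
    (sum_filter_add_sum_filter_not _ _ _).symm
  have hfull : ∑ T ∈ S.powerset, (-1 : ℝ) ^ T.card / (pr T : ℝ) =
      ∏ p ∈ S, (1 + (-1) / (p : ℝ)) := Bonf_prod S (-1)
  have hp1 : ∀ p ∈ S, 0 ≤ 1 + (-1) / (p : ℝ) := by
    intro p hp
    have h2 : (2 : ℝ) ≤ p := by exact_mod_cast (hS p hp).two_le
    have h3 : 1 / (p : ℝ) ≤ 1 := by
      rw [div_le_one (by linarith)]
      linarith
    rw [neg_div]
    linarith
  have h1 : |∏ p ∈ S, (1 + (-1) / (p : ℝ))| ≤ Real.exp (-Mu S) := by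
    rw [abs_of_nonneg (prod_nonneg hp1)]
    have := Bonf_exp S (-1) hp1
    rwa [neg_one_mul] at this
  have h2 : |∑ T ∈ S.powerset.filter (fun T => ¬ T.card ≤ m), (-1 : ℝ) ^ T.card / (pr T : ℝ)| ≤
      Real.exp (8 * Mu S) / 8 ^ m := by
    refine (abs_sum_le_sum_abs _ _).trans ?_
    have h3 : ∑ T ∈ S.powerset.filter (fun T => ¬ T.card ≤ m), |(-1 : ℝ) ^ T.card / (pr T : ℝ)| ≤
        ∑ T ∈ S.powerset.filter (fun T => ¬ T.card ≤ m), (8 : ℝ) ^ T.card / (pr T : ℝ) / 8 ^ m := by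
      refine sum_le_sum fun T hT => ?_
      rw [mem_filter, not_le] at hT
      rw [abs_div, abs_pow, abs_neg, abs_one, one_pow, Nat.abs_cast, div_right_comm]
      refine div_le_div_of_nonneg_right ?_ (Nat.cast_nonneg _)
      rw [le_div_iff₀ (by positivity), one_mul]
      exact pow_le_pow_right₀ (by norm_num) hT.2.le
    refine h3.trans ?_
    have h4 : ∑ T ∈ S.powerset.filter (fun T => ¬ T.card ≤ m),
        (8 : ℝ) ^ T.card / (pr T : ℝ) / 8 ^ m ≤
        ∑ T ∈ S.powerset, (8 : ℝ) ^ T.card / (pr T : ℝ) / 8 ^ m :=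
      sum_le_sum_of_subset_of_nonneg (filter_subset _ _) fun T _ _ => by positivity
    refine h4.trans ?_
    rw [← sum_div, Bonf_prod S 8]
    exact div_le_div_of_nonneg_right (Bonf_exp S 8 fun p _ => by positivity) (by positivity)
  have h3 : ∑ T ∈ sb S m, (-1 : ℝ) ^ T.card / (pr T : ℝ) =
      ∏ p ∈ S, (1 + (-1) / (p : ℝ)) -
        ∑ T ∈ S.powerset.filter (fun T => ¬ T.card ≤ m), (-1 : ℝ) ^ T.card / (pr T : ℝ) := by
    rw [← hfull, hsplit]
    ring
  rw [h3]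
  unfold eb
  exact (abs_sub _ _).trans (add_le_add h1 h2)

theorem sb_inv (S : Finset ℕ) (hS : ∀ p ∈ S, p.Prime) (m : ℕ) :
    ∑ T ∈ sb S m, 1 / (pr T : ℝ) ≤ Real.exp (Mu S) := by
  have h1 : ∑ T ∈ sb S m, 1 / (pr T : ℝ) ≤ ∑ T ∈ S.powerset, (1 : ℝ) ^ T.card / (pr T : ℝ) := by
    have h2 : ∑ T ∈ sb S m, 1 / (pr T : ℝ) = ∑ T ∈ sb S m, (1 : ℝ) ^ T.card / (pr T : ℝ) :=
      sum_congr rfl fun T _ => by rw [one_pow]
    rw [h2]
    exact sum_le_sum_of_subset_of_nonneg (filter_subset _ _) fun T _ _ => by positivity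
  refine h1.trans ?_
  rw [Bonf_prod S 1]
  have h3 := Bonf_exp S 1 fun p _ => by positivity
  rwa [one_mul] at h3

theorem sb_card (S : Finset ℕ) (m : ℕ) : ((sb S m).card : ℝ) ≤ ((S.card : ℝ) + 1) ^ m := by
  have h : (sb S m).card ≤ (S.card + 1) ^ m := by
    induction m with
    | zero =>
      have h0 : sb S 0 = {∅} := by
        ext T
        rw [mem_sb, mem_singleton]
        constructor
        · intro h; exact card_eq_zero.1 (Nat.le_zero.1 h.2)
        · rintro rfl; exact ⟨empty_subset _, by simp⟩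
      rw [h0]
      simp
    | succ m ih =>
      have h1 : sb S (m + 1) ⊆ sb S m ∪ ((sb S m) ×ˢ S).image (fun q => insert q.2 q.1) := by
        intro T hT
        rw [mem_sb] at hT
        rw [mem_union]
        by_cases hc : T.card ≤ m
        · exact Or.inl (mem_sb.2 ⟨hT.1, hc⟩)
        · right
          have hne : T.Nonempty := by
            rw [← card_pos]
            omega
          obtain ⟨x, hx⟩ := hne
          rw [mem_image]
          refine ⟨(T.erase x, x), ?_, insert_erase hx⟩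
          rw [mem_product, mem_sb]
          refine ⟨⟨(erase_subset _ _).trans hT.1, ?_⟩, hT.1 hx⟩
          show (T.erase x).card ≤ m
          rw [card_erase_of_mem hx]
          omega
      calc (sb S (m + 1)).card ≤ _ := card_le_card h1
        _ ≤ (sb S m).card + (((sb S m) ×ˢ S).image (fun q => insert q.2 q.1)).card :=
            card_union_le _ _
        _ ≤ (sb S m).card + (sb S m).card * S.card := by
            refine Nat.add_le_add_left (card_image_le.trans (le_of_eq (card_product _ _))) _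
        _ = (sb S m).card * (S.card + 1) := by ring
        _ ≤ (S.card + 1) ^ m * (S.card + 1) := Nat.mul_le_mul_right _ ih
        _ = (S.card + 1) ^ (m + 1) := (pow_succ _ _).symm
  exact_mod_cast h

end Pool.Agent.H35.U
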