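import Pool.Agent.H87.WL.Defs
import Pool.Agent.H35.W.Defs

/-!
# Project U (MP_a78e8f_nt): definitions

Theorem U: equidistribution for almost all residues `a` in intervals of length `H ≥ (log x)^C`, all
levels `θ < 1`, with relative error `O(loglog x/log H + (loglog x)^2/log x)` and exceptional sets of
density `(log x)^(-c)`.

New compared with W and WL: the integers `k` without prime factor in `(P, P']` (rough) are treated
by the pure sieve (`m = 2r`, `r` about `C loglog x`), exactly for the explicit parts of `Λ`.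
-/

set_option autoImplicit false

namespace Pool.Agent.H35.U

open Finset
open Pool.Agent.H91.EHA (Lam lamR hR psiA err)
open Pool.Agent.H87.WL (PP PPc Mu Om gR Ps Gs Sd Td)
open Pool.Agent.H35.W (Rk rgh fcs)

/-- the subsets of `S` with at most `m` elements -/
def sb (S : Finset ℕ) (m : ℕ) : Finset (Finset ℕ) := S.powerset.filter (fun T => T.card ≤ m)

/-- the product of the elements -/
def pr (T : Finset ℕ) : ℕ := ∏ p ∈ T, p

/-- the `k ≤ K` without divisor in `S` -/
def rS (S : Finset ℕ) (K : ℕ) : Finset ℕ := (Icc 1 K).filter (fun k => ∀ p ∈ S, ¬ p ∣ k)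

/-- the weight of the tail of the pure sieve -/
noncomputable def tw (S : Finset ℕ) (m k : ℕ) : ℝ := if m < Om S k then 2 ^ Om S k else 0

/-- the factor of the pure sieve -/
noncomputable def eb (S : Finset ℕ) (m : ℕ) : ℝ :=
  Real.exp (-Mu S) + Real.exp (8 * Mu S) / 8 ^ m

/-- `Λ_R` on `(M, N]` -/
noncomputable def vR (R M N n : ℕ) : ℝ := if n ∈ Ioc M N then lamR R n else 0

/-- the relative error `loglog x/log H + (loglog x)^2/log x` -/
noncomputable def rho (x H : ℕ) : ℝ :=
  Real.log (Real.log x) / Real.log H + Real.log (Real.log x) ^ 2 / Real.log x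

open Classical in
/-- indicator of `p^2 ∣ k` for some prime `p > P` -/
noncomputable def sqi (P k : ℕ) : ℝ := if ∃ p, P < p ∧ p.Prime ∧ p ^ 2 ∣ k then 1 else 0

lemma tw_nonneg (S : Finset ℕ) (m k : ℕ) : 0 ≤ tw S m k := by
  unfold tw; split_ifs <;> positivity

lemma eb_nonneg (S : Finset ℕ) (m : ℕ) : 0 ≤ eb S m := by unfold eb; positivity

lemma mem_sb {S T : Finset ℕ} {m : ℕ} : T ∈ sb S m ↔ T ⊆ S ∧ T.card ≤ m := by
  unfold sb; simp [Finset.mem_powerset]

end Pool.Agent.H35.U
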