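import Pool.Agent.H35.U.TauM

/-!
# U Dual: average over the moduli of a weighted sum over `k`, one residue

`∑_{q ∈ (Q,2Q]} ∑_{k ≤ K} t(k) |g(a+kq)| ≤ ∑_{l ≤ N} |g(a+l)| ∑_{k ∣ l} t(k)` (put `l = k q`; `g(a+l) = 0`
unless `a + l ≤ N`, so `l ≤ N`; for given `l` and `k ∣ l` there is one `q`), then Cauchy-Schwarz and
`∑_{l ≤ N} g(a+l)^2 ≤ S2 g N`.  `tail_avg` = `dual` with `t = tw S m` and `tw_sum`.
`sqs_avg` = `dual` with `t` = indicator of `∃ p > P, p prime, p^2 ∣ k` and `sqs_sum`.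
-/

set_option autoImplicit false

namespace Pool.Agent.H35.U

open Finset
open Pool.Agent.H87.WL (PP PPc Mu Om)
open Pool.Agent.H76.EHB (S2)
open Pool.Agent.H35.W (sqs)

/-- one modulus class: the multiples of `k` -/
private lemma dual_one (g : ℕ → ℝ) (N a Q k : ℕ) (hk : 1 ≤ k) (hg : ∀ n, n ∉ Icc 1 N → g n = 0) :
    ∑ q ∈ Ioc Q (2 * Q), |g (a + k * q)| ≤ ∑ l ∈ (Icc 1 N).filter (fun l => k ∣ l), |g (a + l)| := by
  have h1 : ∑ q ∈ Ioc Q (2 * Q), |g (a + k * q)| =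
      ∑ q ∈ (Ioc Q (2 * Q)).filter (fun q => k * q ≤ N), |g (a + k * q)| := by
    refine (Finset.sum_filter_of_ne ?_).symm
    intro q _ hq
    by_contra hc
    refine hq ?_
    rw [hg (a + k * q) ?_, abs_zero]
    rw [mem_Icc]
    omega
  rw [h1, ← Finset.sum_image (f := fun l => |g (a + l)|) (g := fun q => k * q)]
  · refine Finset.sum_le_sum_of_subset_of_nonneg ?_ (fun _ _ _ => abs_nonneg _)
    intro l hl
    obtain ⟨q, hq, rfl⟩ := Finset.mem_image.1 hl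
    rw [mem_filter, mem_Ioc] at hq
    rw [mem_filter, mem_Icc]
    have : 1 ≤ k * q := Nat.one_le_iff_ne_zero.2 (Nat.mul_ne_zero (by omega) (by omega))
    exact ⟨⟨this, hq.2⟩, dvd_mul_right _ _⟩
  · intro q _ q' _ h
    exact Nat.eq_of_mul_eq_mul_left (by omega : 0 < k) h

/-- the shifted square sum -/
private lemma dual_shift (g : ℕ → ℝ) (N a : ℕ) (hg : ∀ n, n ∉ Icc 1 N → g n = 0) :
    ∑ l ∈ Icc 1 N, |g (a + l)| ^ 2 ≤ S2 g N := by
  have h1 : ∑ l ∈ Icc 1 N, |g (a + l)| ^ 2 =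
      ∑ l ∈ (Icc 1 N).filter (fun l => a + l ≤ N), |g (a + l)| ^ 2 := by
    refine (Finset.sum_filter_of_ne ?_).symm
    intro l _ hl
    by_contra hc
    refine hl ?_
    rw [hg (a + l) ?_]
    · simp
    · rw [mem_Icc]
      omega
  rw [h1, ← Finset.sum_image (f := fun n => |g n| ^ 2) (g := fun l => a + l)]
  · unfold S2
    simp only [sq_abs]
    refine Finset.sum_le_sum_of_subset_of_nonneg ?_ (fun _ _ _ => sq_nonneg _)
    intro n hn
    obtain ⟨l, hl, rfl⟩ := Finset.mem_image.1 hn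
    rw [mem_filter, mem_Icc] at hl
    rw [mem_Icc]
    omega
  · intro q _ q' _ h
    have : a + q = a + q' := h
    omega

theorem dual (g t : ℕ → ℝ) (ht : ∀ k, 0 ≤ t k) (N a Q K : ℕ) (hg : ∀ n, n ∉ Icc 1 N → g n = 0) :
    ∑ q ∈ Ioc Q (2 * Q), ∑ k ∈ Icc 1 K, t k * |g (a + k * q)| ≤
      Real.sqrt (S2 g N * ∑ l ∈ Icc 1 N, (∑ k ∈ l.divisors, t k) ^ 2) := by
  have h1 : ∑ q ∈ Ioc Q (2 * Q), ∑ k ∈ Icc 1 K, t k * |g (a + k * q)| ≤
      ∑ l ∈ Icc 1 N, |g (a + l)| * ∑ k ∈ l.divisors, t k := by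
    rw [Finset.sum_comm]
    calc ∑ k ∈ Icc 1 K, ∑ q ∈ Ioc Q (2 * Q), t k * |g (a + k * q)|
        = ∑ k ∈ Icc 1 K, t k * ∑ q ∈ Ioc Q (2 * Q), |g (a + k * q)| := by
          refine Finset.sum_congr rfl fun k _ => ?_
          rw [Finset.mul_sum]
      _ ≤ ∑ k ∈ Icc 1 K, t k * ∑ l ∈ (Icc 1 N).filter (fun l => k ∣ l), |g (a + l)| := by
          refine Finset.sum_le_sum fun k hk => ?_
          exact mul_le_mul_of_nonneg_left (dual_one g N a Q k (mem_Icc.1 hk).1 hg) (ht k)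
      _ = ∑ l ∈ Icc 1 N, |g (a + l)| * ∑ k ∈ (Icc 1 K).filter (fun k => k ∣ l), t k := by
          simp only [Finset.mul_sum, Finset.sum_filter]
          rw [Finset.sum_comm]
          refine Finset.sum_congr rfl fun l _ => Finset.sum_congr rfl fun k _ => ?_
          split_ifs with h
          · ring
          · simp
      _ ≤ ∑ l ∈ Icc 1 N, |g (a + l)| * ∑ k ∈ l.divisors, t k := by
          refine Finset.sum_le_sum fun l hl => ?_
          refine mul_le_mul_of_nonneg_left ?_ (abs_nonneg _)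
          refine Finset.sum_le_sum_of_subset_of_nonneg ?_ (fun k _ _ => ht k)
          intro k hk
          rw [mem_filter] at hk
          rw [Nat.mem_divisors]
          have := (mem_Icc.1 hl).1
          exact ⟨hk.2, by omega⟩
  refine h1.trans ?_
  refine Real.le_sqrt_of_sq_le ?_
  refine (Finset.sum_mul_sq_le_sq_mul_sq _ _ _).trans ?_
  refine mul_le_mul_of_nonneg_right (dual_shift g N a hg) ?_
  exact Finset.sum_nonneg fun _ _ => sq_nonneg _

private lemma S2_nn (g : ℕ → ℝ) (N : ℕ) : 0 ≤ S2 g N := by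
  unfold S2
  exact Finset.sum_nonneg fun _ _ => sq_nonneg _

theorem tail_avg (S : Finset ℕ) (hS : ∀ p ∈ S, p.Prime) (m : ℕ) (g : ℕ → ℝ) (N a Q K : ℕ)
    (hg : ∀ n, n ∉ Icc 1 N → g n = 0) :
    ∑ q ∈ Ioc Q (2 * Q), ∑ k ∈ Icc 1 K, tw S m k * |g (a + k * q)| ≤
      Real.sqrt (S2 g N * (N * (1 + Real.log N) ^ 64 / 4 ^ m)) := by
  refine (dual g (tw S m) (tw_nonneg S m) N a Q K hg).trans ?_
  exact Real.sqrt_le_sqrt (mul_le_mul_of_nonneg_left (tw_sum S hS m N) (S2_nn g N))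

theorem sqs_avg (P : ℕ) (hP : 1 ≤ P) (g : ℕ → ℝ) (N a Q K : ℕ)
    (hg : ∀ n, n ∉ Icc 1 N → g n = 0) :
    ∑ q ∈ Ioc Q (2 * Q), ∑ k ∈ sqs P K, |g (a + k * q)| ≤
      Real.sqrt (S2 g N * (N * (1 + Real.log N) ^ 8 / Real.sqrt P)) := by
  have h0 : ∀ k, 0 ≤ sqi P k := by
    intro k
    unfold sqi
    split_ifs <;> norm_num
  have h1 : ∀ q, ∑ k ∈ sqs P K, |g (a + k * q)| = ∑ k ∈ Icc 1 K, sqi P k * |g (a + k * q)| := by
    intro q
    unfold sqs sqi
    rw [Finset.sum_filter]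
    refine Finset.sum_congr rfl fun k _ => ?_
    split_ifs <;> simp
  simp only [h1]
  refine (dual g (sqi P) h0 N a Q K hg).trans ?_
  exact Real.sqrt_le_sqrt (mul_le_mul_of_nonneg_left (sqs_sum P N hP) (S2_nn g N))

end Pool.Agent.H35.U
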