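import Pool.Agent.H35.U.Dual
import Pool.Agent.H35.W.Ramare
import Pool.Agent.H35.W.FacSum

/-!
# U FacR: the factorable `k`

As `TB_fac` in `W.TB1` with a general power of `L`.  For each `a`, `q`: `ramare` with `F k = g (a + k q)`
(`F k = 0` for `k > K`: `a + k q ≥ (K+1)(Q+1) > x ≥ N`).  First part: `fac_sum` for `P 2^i`:
`sqrt(H (x/P0) (L+1)³ · H x P0/L^(2c+5)) ≤ H x sqrt(8 L³/L^(2c+5)) ≤ 3 H x/L^(c+1)`, `J` values of `i`.
Second part: `sqs_avg` for each `a`, summed over the `H` values of `a`.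
-/

set_option autoImplicit false

namespace Pool.Agent.H35.U

open Finset
open Pool.Agent.H76.EHB (S2)
open Pool.Agent.H35.W (pb Rk rgh fcs sqs)

theorem fac_blk (g : ℕ → ℝ) (x N a0 H Q K P J c : ℕ) (L : ℝ) (hL : L = Real.log x) (hL1 : 1 ≤ L)
    (hP : 1 ≤ P) (hKx : x < (K + 1) * (Q + 1)) (hNx : N ≤ x) (hg : ∀ n, n ∉ Icc 1 N → g n = 0)
    (hV : ∀ i, i < J → ∑ m ∈ Icc 1 (x / (P * 2 ^ i)), ∑ a ∈ Ioc a0 (a0 + H),
      (∑ p ∈ pb (P * 2 ^ i), g (a + p * m)) ^ 2 ≤ H * x * ((P * 2 ^ i : ℕ) : ℝ) / L ^ (2 * c + 5)) :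
    ∑ q ∈ Ioc Q (2 * Q), ∑ a ∈ Ioc a0 (a0 + H), |∑ k ∈ fcs P J K, g (a + k * q)|
      ≤ J * (3 * H * x / L ^ (c + 1)) + H * (Nat.log 2 K *
        Real.sqrt (S2 g N * (N * (1 + Real.log N) ^ 8 / Real.sqrt P))) := by
  have hg' : ∀ n, x < n → g n = 0 := fun n hn => hg n (by rw [mem_Icc]; omega)
  have hR : ∀ q ∈ Ioc Q (2 * Q), ∀ a ∈ Ioc a0 (a0 + H), |∑ k ∈ fcs P J K, g (a + k * q)| ≤
      ∑ i ∈ range J, ∑ k ∈ Icc 1 K, |∑ p ∈ pb (P * 2 ^ i), g (a + (p * k) * q)|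
        + Nat.log 2 K * ∑ k ∈ sqs P K, |g (a + k * q)| := by
    intro q hq a _
    rw [mem_Ioc] at hq
    refine Pool.Agent.H35.W.ramare P J K hP (fun k => g (a + k * q)) ?_
    intro k hk
    refine hg' _ ?_
    have h1 : (K + 1) * (Q + 1) ≤ k * q := Nat.mul_le_mul hk hq.1
    omega
  have h1 : ∑ q ∈ Ioc Q (2 * Q), ∑ a ∈ Ioc a0 (a0 + H), |∑ k ∈ fcs P J K, g (a + k * q)| ≤
      ∑ i ∈ range J, (∑ q ∈ Ioc Q (2 * Q), ∑ a ∈ Ioc a0 (a0 + H), ∑ k ∈ Icc 1 K,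
        |∑ p ∈ pb (P * 2 ^ i), g (a + (p * k) * q)|)
      + Nat.log 2 K * (∑ q ∈ Ioc Q (2 * Q), ∑ a ∈ Ioc a0 (a0 + H), ∑ k ∈ sqs P K,
        |g (a + k * q)|) := by
    refine (sum_le_sum fun q hq => sum_le_sum fun a ha => hR q hq a ha).trans (le_of_eq ?_)
    simp only [sum_add_distrib, ← mul_sum]
    congr 1
    rw [sum_comm' (s := Ioc Q (2 * Q)) (t := fun _ => Ioc a0 (a0 + H))
      (t' := Ioc a0 (a0 + H)) (s' := fun _ => Ioc Q (2 * Q)) (by intro q a; tauto)]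
    simp only [sum_comm (t := range J)]
    refine sum_congr rfl fun i _ => ?_
    rw [sum_comm]
  refine h1.trans (add_le_add ?_ ?_)
  · have h2 : ∀ i ∈ range J, (∑ q ∈ Ioc Q (2 * Q), ∑ a ∈ Ioc a0 (a0 + H), ∑ k ∈ Icc 1 K,
        |∑ p ∈ pb (P * 2 ^ i), g (a + (p * k) * q)|) ≤ 3 * H * x / L ^ (c + 1) := by
      intro i hi
      rw [mem_range] at hi
      have hPi : 1 ≤ P * 2 ^ i := Nat.one_le_iff_ne_zero.mpr (by positivity)
      have hPi0 : (0 : ℝ) < ((P * 2 ^ i : ℕ) : ℝ) := by exact_mod_cast hPi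
      refine (Pool.Agent.H35.W.fac_sum g x (P * 2 ^ i) a0 H Q K hPi hg' _ (hV i hi)).trans ?_
      rw [← hL]
      have e : (H : ℝ) * ((x : ℝ) / ((P * 2 ^ i : ℕ) : ℝ) * (L + 1) ^ 3) *
          (H * x * ((P * 2 ^ i : ℕ) : ℝ) / L ^ (2 * c + 5)) =
            (H * x) ^ 2 * ((L + 1) ^ 3 / L ^ (2 * c + 5)) := by
        field_simp
      rw [e]
      refine Real.sqrt_le_iff.mpr ⟨by positivity, ?_⟩
      have e2 : (3 * (H : ℝ) * x / L ^ (c + 1)) ^ 2 = (H * x) ^ 2 * (9 / L ^ (2 * c + 2)) := by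
        rw [div_pow, ← pow_mul, show (c + 1) * 2 = 2 * c + 2 by ring]
        ring
      rw [e2]
      refine mul_le_mul_of_nonneg_left ?_ (by positivity)
      have hL0 : 0 < L := by linarith
      rw [div_le_div_iff₀ (by positivity) (by positivity)]
      have h3 : (L + 1) ^ 3 ≤ (2 * L) ^ 3 := by gcongr; linarith
      have h4 : (L + 1) ^ 3 * L ^ (2 * c + 2) ≤ (2 * L) ^ 3 * L ^ (2 * c + 2) := by gcongr
      have h5 : (2 * L) ^ 3 * L ^ (2 * c + 2) = 8 * L ^ (2 * c + 5) := by ring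
      have h6 : 0 ≤ L ^ (2 * c + 5) := by positivity
      linarith
    refine (sum_le_sum h2).trans (le_of_eq ?_)
    rw [sum_const, card_range, nsmul_eq_mul]
  · rw [sum_comm]
    have h3 : ∑ a ∈ Ioc a0 (a0 + H), ∑ q ∈ Ioc Q (2 * Q), ∑ k ∈ sqs P K, |g (a + k * q)| ≤
        H * Real.sqrt (S2 g N * (N * (1 + Real.log N) ^ 8 / Real.sqrt P)) := by
      refine (sum_le_sum fun a _ => sqs_avg P hP g N a Q K hg).trans (le_of_eq ?_)
      rw [sum_const, Nat.card_Ioc, nsmul_eq_mul, Nat.add_sub_cancel_left]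
    calc (Nat.log 2 K : ℝ) * ∑ a ∈ Ioc a0 (a0 + H), ∑ q ∈ Ioc Q (2 * Q), ∑ k ∈ sqs P K,
          |g (a + k * q)|
        ≤ Nat.log 2 K * (H * Real.sqrt (S2 g N * (N * (1 + Real.log N) ^ 8 / Real.sqrt P))) :=
          mul_le_mul_of_nonneg_left h3 (Nat.cast_nonneg _)
      _ = _ := by ring

end Pool.Agent.H35.U
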