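import Pool.Agent.H87.WL.Bsm

/-!
# U Sm: small moduli, relative error `1/log x`

As `bad_small` in `WL.Bsm` with `η = 1/log x`: use `BVProp` with the exponent `c + 4`; a bad `q` has
`|err x q a| > (1/L) π(x)/φ(q) ≥ (1/L) (x/(2L))/(2Q)` (`bsm_pi`), so
`#bad ≤ (4 L² Q/x) · x/L^(c+4) ≤ Q/L^c`.
-/

set_option autoImplicit false

namespace Pool.Agent.H35.U

open Finset
open Pool.Agent.H91.EHA (Lam lamR hR ramS psiA err)
open Pool.Agent.H87.WL (PntProp BVProp bad bsm_pi)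

theorem sm (hBV : BVProp) (hpnt : PntProp) (c : ℕ) : ∃ x0 : ℕ, ∀ x : ℕ, x0 ≤ x → ∀ a Q : ℕ,
    1 ≤ Q → (Q : ℝ) ≤ (x : ℝ) ^ ((1 : ℝ) / 4) →
      ((bad x a Q (1 / Real.log x)).card : ℝ) ≤ Q / Real.log x ^ c := by
  obtain ⟨x1, hx1⟩ := hBV (c + 4)
  obtain ⟨x2, hx2⟩ := exists_nat_ge (Real.exp 4)
  refine ⟨max (max x1 x2) 4096, fun x hx a Q hQ hQx => ?_⟩
  have hxx1 : x1 ≤ x := (le_max_left _ _).trans ((le_max_left _ _).trans hx)
  have hxx2 : x2 ≤ x := (le_max_right _ _).trans ((le_max_left _ _).trans hx)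
  have hx4 : 4096 ≤ x := (le_max_right _ _).trans hx
  have hxr : (4096 : ℝ) ≤ x := by exact_mod_cast hx4
  have hx0 : (0 : ℝ) < x := by linarith
  have hL : 4 ≤ Real.log x := by
    rw [Real.le_log_iff_exp_le hx0]
    exact hx2.trans (by exact_mod_cast hxx2)
  have hL1 : 1 ≤ Real.log x := by
    rw [Real.le_log_iff_exp_le hx0]
    have := Real.exp_one_lt_d9
    norm_num at this
    linarith
  have hL0 : 0 < Real.log x := by linarith
  set η : ℝ := 1 / Real.log x with hηd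
  have hη : 0 < η := by positivity
  have hQr : (1 : ℝ) ≤ Q := by exact_mod_cast hQ
  -- powers of x
  have e1 : 2 * (x : ℝ) ^ ((1 : ℝ) / 4) ≤ (x : ℝ) ^ ((1 : ℝ) / 3) := by
    have h1 : (x : ℝ) ^ ((1 : ℝ) / 3) = (x : ℝ) ^ ((1 : ℝ) / 12) * (x : ℝ) ^ ((1 : ℝ) / 4) := by
      rw [← Real.rpow_add hx0]
      norm_num
    have h2 : (2 : ℝ) ≤ (x : ℝ) ^ ((1 : ℝ) / 12) := by
      have h3 : (4096 : ℝ) ^ ((1 : ℝ) / 12) = 2 := by
        have h4 : (4096 : ℝ) = 2 ^ (12 : ℝ) := by norm_num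
        rw [h4, ← Real.rpow_mul (by norm_num)]
        norm_num
      rw [← h3]
      exact Real.rpow_le_rpow (by norm_num) hxr (by norm_num)
    rw [h1]
    exact mul_le_mul_of_nonneg_right h2 (Real.rpow_nonneg hx0.le _)
  have e2 : 4 * (x : ℝ) ^ ((1 : ℝ) / 2) ≤ (x : ℝ) ^ (1 - (1 : ℝ) / 10) := by
    have h1 : (x : ℝ) ^ (1 - (1 : ℝ) / 10) = (x : ℝ) ^ ((2 : ℝ) / 5) * (x : ℝ) ^ ((1 : ℝ) / 2) := by
      rw [← Real.rpow_add hx0]
      norm_num
    have h2 : (4 : ℝ) ≤ (x : ℝ) ^ ((2 : ℝ) / 5) := by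
      have h3 : (32 : ℝ) ^ ((2 : ℝ) / 5) = 4 := by
        have h4 : (32 : ℝ) = 2 ^ (5 : ℝ) := by norm_num
        rw [h4, ← Real.rpow_mul (by norm_num)]
        norm_num
      rw [← h3]
      exact Real.rpow_le_rpow (by norm_num) (by linarith) (by norm_num)
    rw [h1]
    exact mul_le_mul_of_nonneg_right h2 (Real.rpow_nonneg hx0.le _)
  have e3 : ((x : ℝ) ^ ((1 : ℝ) / 4)) ^ 2 = (x : ℝ) ^ ((1 : ℝ) / 2) := by
    rw [← Real.rpow_natCast, ← Real.rpow_mul hx0.le]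
    norm_num
  -- Bombieri-Vinogradov
  classical
  let T : (q : ℕ) → Finset (ZMod q) := fun q => if IsUnit (a : ZMod q) then {(a : ZMod q)} else ∅
  have hT1 : ∀ q, ((T q).card : ℝ) ≤ 1 := by
    intro q
    show (((if IsUnit (a : ZMod q) then {(a : ZMod q)} else ∅ : Finset (ZMod q))).card : ℝ) ≤ 1
    split_ifs
    · rw [card_singleton, Nat.cast_one]
    · rw [card_empty, Nat.cast_zero]
      exact zero_le_one
  have hT2 : ∀ q, ∀ b ∈ T q, IsUnit b := by
    intro q b hb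
    have hb' : b ∈ (if IsUnit (a : ZMod q) then {(a : ZMod q)} else ∅ : Finset (ZMod q)) := hb
    split_ifs at hb' with hu
    · rw [mem_singleton] at hb'
      rw [hb']
      exact hu
    · exact absurd hb' (notMem_empty _)
  have hbv := hx1 x hxx1 T hT1 hT2
  have hsub : bad x a Q η ⊆ (Icc 1 ⌊(x : ℝ) ^ ((1 : ℝ) / 3)⌋₊).filter
      (fun q : ℕ => (q : ℝ) ^ 2 ≤ 1 * (x : ℝ) ^ (1 - (1 : ℝ) / 10)) := by
    intro q hq
    rw [bad, mem_filter, mem_Ioc] at hq
    obtain ⟨⟨hq1, hq2⟩, -, -⟩ := hq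
    have hq2' : (q : ℝ) ≤ 2 * Q := by exact_mod_cast hq2
    have hq3 : (q : ℝ) ≤ 2 * (x : ℝ) ^ ((1 : ℝ) / 4) := by linarith
    rw [mem_filter, mem_Icc]
    refine ⟨⟨by omega, Nat.le_floor (hq3.trans e1)⟩, ?_⟩
    rw [one_mul]
    have hq0 : (0 : ℝ) ≤ q := Nat.cast_nonneg q
    calc (q : ℝ) ^ 2 ≤ (2 * (x : ℝ) ^ ((1 : ℝ) / 4)) ^ 2 := pow_le_pow_left₀ hq0 hq3 2
      _ = 4 * (x : ℝ) ^ ((1 : ℝ) / 2) := by rw [mul_pow, e3]; norm_num
      _ ≤ _ := e2
  have hpi := bsm_pi x hx4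
  have hpi0 : (0 : ℝ) < Nat.primeCounting x := by
    by_contra hcon
    rw [not_lt] at hcon
    have := mul_nonpos_of_nonpos_of_nonneg hcon hL0.le
    linarith
  have hlow : ∀ q ∈ bad x a Q η, η * ((Nat.primeCounting x : ℝ) / (2 * Q)) ≤ ∑ b ∈ T q, |err x q b| := by
    intro q hq
    rw [bad, mem_filter, mem_Ioc] at hq
    obtain ⟨⟨hq1, hq2⟩, hcop, hlt⟩ := hq
    have hu : IsUnit (a : ZMod q) := (ZMod.isUnit_iff_coprime a q).2 hcop
    have hTq : T q = {(a : ZMod q)} := by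
      show (if IsUnit (a : ZMod q) then {(a : ZMod q)} else ∅ : Finset (ZMod q)) = _
      rw [if_pos hu]
    rw [hTq, sum_singleton]
    refine le_trans ?_ hlt.le
    refine mul_le_mul_of_nonneg_left ?_ hη.le
    have hphi0 : (0 : ℝ) < q.totient := by
      exact_mod_cast Nat.totient_pos.2 (by omega)
    have hphi : (q.totient : ℝ) ≤ 2 * Q := by
      have h1 : q.totient ≤ 2 * Q := (Nat.totient_le q).trans hq2
      exact_mod_cast h1
    exact div_le_div_of_nonneg_left hpi0.le hphi0 hphi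
  have hsum : ((bad x a Q η).card : ℝ) * (η * ((Nat.primeCounting x : ℝ) / (2 * Q))) ≤
      1 * x / Real.log x ^ (c + 4) := by
    refine le_trans ?_ hbv
    refine le_trans ?_ (sum_le_sum_of_subset_of_nonneg hsub
      (fun q _ _ => sum_nonneg fun b _ => abs_nonneg _))
    rw [← nsmul_eq_mul]
    exact card_nsmul_le_sum _ _ _ hlow
  -- the count
  have hLc : 0 < Real.log x ^ c := pow_pos hL0 c
  have hkey : ((bad x a Q η).card : ℝ) * (η * (x : ℝ)) * Real.log x ^ (c + 3) ≤ 4 * Q * x := by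
    have h1 : ((bad x a Q η).card : ℝ) * (η * ((Nat.primeCounting x : ℝ) / (2 * Q))) *
        Real.log x ^ (c + 4) ≤ x := by
      rw [one_mul, le_div_iff₀ (pow_pos hL0 _)] at hsum
      exact hsum
    have h2 : ((bad x a Q η).card : ℝ) * (η * ((x : ℝ) / 2)) * Real.log x ^ (c + 3) ≤
        ((bad x a Q η).card : ℝ) * (η * ((Nat.primeCounting x : ℝ) * Real.log x)) *
          Real.log x ^ (c + 3) := by
      gcongr
    have h3 : ((bad x a Q η).card : ℝ) * (η * ((Nat.primeCounting x : ℝ) * Real.log x)) *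
          Real.log x ^ (c + 3) = (((bad x a Q η).card : ℝ) *
            (η * ((Nat.primeCounting x : ℝ) / (2 * Q))) * Real.log x ^ (c + 4)) * (2 * Q) := by
      rw [pow_succ _ (c + 3)]
      field_simp
    have h4 : (((bad x a Q η).card : ℝ) *
            (η * ((Nat.primeCounting x : ℝ) / (2 * Q))) * Real.log x ^ (c + 4)) * (2 * Q) ≤ x * (2 * Q) :=
      mul_le_mul_of_nonneg_right h1 (by positivity)
    nlinarith
  have hkey2 : ((bad x a Q η).card : ℝ) * Real.log x ^ (c + 2) ≤ 4 * Q := by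
    have h1 : ((bad x a Q η).card : ℝ) * Real.log x ^ (c + 2) * x ≤ 4 * Q * x := by
      calc _ = ((bad x a Q η).card : ℝ) * (η * (x : ℝ)) * Real.log x ^ (c + 3) := by
            rw [hηd, pow_succ _ (c + 2)]
            field_simp
        _ ≤ _ := hkey
    exact le_of_mul_le_mul_right h1 hx0
  rw [le_div_iff₀ hLc]
  have h5 : ((bad x a Q η).card : ℝ) * Real.log x ^ c * Real.log x ^ 2 ≤ Q * Real.log x ^ 2 := by
    calc ((bad x a Q η).card : ℝ) * Real.log x ^ c * Real.log x ^ 2 =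
          ((bad x a Q η).card : ℝ) * Real.log x ^ (c + 2) := by rw [pow_add]; ring
      _ ≤ 4 * Q := hkey2
      _ ≤ Real.log x ^ 2 * Q := by
          gcongr
          nlinarith
      _ = _ := by ring
  exact le_of_mul_le_mul_right h5 (by positivity)

end Pool.Agent.H35.U
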