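import Pool.Agent.H35.U.Mid
import Pool.Agent.H35.U.Sm

/-!
# U Fin: the theorem for one `x`

Copy the structure of `WL.Fin` (`main`): `fin_markov`, `fin_cover`, `fin_block`, `fin_bad_subset`.
`mid` with `2c+4` (or larger): `b`, `C`; the block length is `H1 = min H ⌊x^(1/10)⌋₊` (`L^b ≤ H1`, `H1² ≤ x`); the
dyadic `Q = 2^j ≤ x^θ` with `Q ≤ x^(1/4)` is done by `sm` (`bad` is antitone in `η`, `1/L ≤ C1 rho x H` for
`C1 ≥ 1`), the others (`Q > x^(1/4) ≥ H1`) by `mid` on each of the `H/H1 + 1` blocks, `fin_block`.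
`rho x H1 ≤ 12 rho x H`: if `H1 = H` clear; otherwise `log H1 ≥ (log x)/11`, `l/log H1 ≤ 11 l/L ≤ 11 l²/L` and
`l²/L ≤ rho x H`.  So `12 C` in place of `C`.  General `Q`: `2^j ≤ Q < 2^(j+1)` and `fin_bad_subset`
(`2^(j+1) ≤ 2Q ≤ 2x^θ ≤ x^θ'` with `θ' = (1+θ)/2`: use `mid` with `θ'`), as in `WL.Fin`.
-/

set_option autoImplicit false

namespace Pool.Agent.H35.U

open Finset
open Pool.Agent.H87.WL (PntProp BVProp bad)

/-- Markov -/
private theorem fin_markov (S : Finset ℕ) (f : ℕ → ℝ) (hf : ∀ a, 0 ≤ f a) (t : ℝ) (ht : 0 < t) :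
    ((S.filter (fun a => t < f a)).card : ℝ) ≤ (∑ a ∈ S, f a) / t := by
  rw [le_div_iff₀ ht]
  calc ((S.filter (fun a => t < f a)).card : ℝ) * t = (S.filter (fun a => t < f a)).card • t := by
        rw [nsmul_eq_mul]
    _ ≤ ∑ a ∈ S.filter (fun a => t < f a), f a :=
        Finset.card_nsmul_le_sum _ _ _ fun a ha => (Finset.mem_filter.1 ha).2.le
    _ ≤ ∑ a ∈ S, f a :=
        Finset.sum_le_sum_of_subset_of_nonneg (Finset.filter_subset _ _) fun a _ _ => hf a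

/-- covering by short intervals -/
private theorem fin_cover (a0 H H1 : ℕ) (h1 : 1 ≤ H1) (p : ℕ → Prop) [DecidablePred p] :
    (Ioc a0 (a0 + H)).filter p ⊆
      (range (H / H1 + 1)).biUnion (fun i =>
        (Ioc (a0 + i * H1) (a0 + i * H1 + H1)).filter p) := by
  intro a ha
  rw [mem_filter, mem_Ioc] at ha
  rw [mem_biUnion]
  refine ⟨(a - a0 - 1) / H1, ?_, ?_⟩
  · rw [mem_range]
    have : (a - a0 - 1) / H1 ≤ H / H1 := Nat.div_le_div_right (by omega)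
    omega
  · rw [mem_filter, mem_Ioc]
    have e1 := Nat.div_mul_le_self (a - a0 - 1) H1
    have e2 := Nat.lt_div_mul_add (a := a - a0 - 1) (b := H1) (by omega)
    refine ⟨⟨by omega, by omega⟩, ha.2⟩

/-- one block of moduli -/
private theorem fin_block (x : ℕ) (η L : ℝ) (hL : 3 ≤ L) (c a0 H H1 Q : ℕ) (h1 : 1 ≤ H1)
    (hHH : H1 ≤ H) (hQ : 1 ≤ Q)
    (hmid : ∀ i, i < H / H1 + 1 →
      ∑ a ∈ Ioc (a0 + i * H1) (a0 + i * H1 + H1), ((bad x a Q η).card : ℝ) ≤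
        H1 * Q / L ^ (2 * c + 4)) :
    (((Ioc a0 (a0 + H)).filter (fun a => (Q : ℝ) / L ^ (c + 1) < (bad x a Q η).card)).card : ℝ) ≤
      2 * H / L ^ (c + 3) := by
  have hL0 : 0 < L := by linarith
  have hQ0 : (0 : ℝ) < Q := by exact_mod_cast hQ
  have ht : 0 < (Q : ℝ) / L ^ (c + 1) := by positivity
  have hc1 := Finset.card_le_card (fin_cover a0 H H1 h1
    (fun a => (Q : ℝ) / L ^ (c + 1) < (bad x a Q η).card))
  have hc2 := hc1.trans Finset.card_biUnion_le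
  have hc3 : (((Ioc a0 (a0 + H)).filter
      (fun a => (Q : ℝ) / L ^ (c + 1) < (bad x a Q η).card)).card : ℝ) ≤
      ∑ i ∈ range (H / H1 + 1), (((Ioc (a0 + i * H1) (a0 + i * H1 + H1)).filter
        (fun a => (Q : ℝ) / L ^ (c + 1) < (bad x a Q η).card)).card : ℝ) := by
    exact_mod_cast hc2
  refine hc3.trans ?_
  have hterm : ∀ i ∈ range (H / H1 + 1), (((Ioc (a0 + i * H1) (a0 + i * H1 + H1)).filter
      (fun a => (Q : ℝ) / L ^ (c + 1) < (bad x a Q η).card)).card : ℝ) ≤ H1 / L ^ (c + 3) := by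
    intro i hi
    refine (fin_markov _ (fun a => ((bad x a Q η).card : ℝ)) (fun a => Nat.cast_nonneg _) _
      ht).trans ?_
    rw [div_le_iff₀ ht]
    refine (hmid i (mem_range.1 hi)).trans (le_of_eq ?_)
    have e : L ^ (2 * c + 4) = L ^ (c + 3) * L ^ (c + 1) := by
      rw [← pow_add]
      congr 1
      omega
    rw [e]
    field_simp
  refine (Finset.sum_le_sum hterm).trans ?_
  rw [Finset.sum_const, card_range, nsmul_eq_mul, ← mul_div_assoc]
  refine div_le_div_of_nonneg_right ?_ (by positivity)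
  have hm : (H / H1 + 1) * H1 ≤ 2 * H := by
    have := Nat.div_mul_le_self H H1
    rw [Nat.add_mul, one_mul]
    omega
  exact_mod_cast hm

private theorem fin_bad_subset (x a Q : ℕ) (η : ℝ) (j : ℕ) (h1 : 2 ^ j ≤ Q) (h2 : Q < 2 ^ (j + 1)) :
    bad x a Q η ⊆ bad x a (2 ^ j) η ∪ bad x a (2 ^ (j + 1)) η := by
  intro q hq
  unfold bad at hq ⊢
  rw [mem_filter, mem_Ioc] at hq
  have e : 2 ^ (j + 1) = 2 * 2 ^ j := by rw [pow_succ]; ring
  rw [mem_union, mem_filter, mem_filter, mem_Ioc, mem_Ioc]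
  by_cases h : q ≤ 2 * 2 ^ j
  · left
    exact ⟨⟨by omega, h⟩, hq.2⟩
  · right
    exact ⟨⟨by omega, by omega⟩, hq.2⟩

/-- `bad` is antitone in the threshold -/
private theorem fin_anti (x a Q : ℕ) (η η' : ℝ) (h : η ≤ η') : bad x a Q η' ⊆ bad x a Q η := by
  intro q hq
  unfold bad at hq ⊢
  rw [mem_filter] at hq ⊢
  refine ⟨hq.1, hq.2.1, lt_of_le_of_lt ?_ hq.2.2⟩
  exact mul_le_mul_of_nonneg_right h (by positivity)

/-- `rho` for the shorter blocks -/
private theorem fin_rho (x H H1 : ℕ) (L l : ℝ) (hL : L = Real.log x) (hl : l = Real.log L)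
    (hL0 : 0 < L) (hl1 : 1 ≤ l) (h : H1 = H ∨ L / 11 ≤ Real.log H1) :
    rho x H1 ≤ 12 * rho x H := by
  unfold rho
  rw [← hL, ← hl]
  have hH : 0 ≤ Real.log H := Real.log_natCast_nonneg H
  have e1 : 0 ≤ l / Real.log H := div_nonneg (by linarith) hH
  have e2 : 0 ≤ l ^ 2 / L := by positivity
  rcases h with h | h
  · rw [h]
    linarith
  · have e3 : l / Real.log H1 ≤ l / (L / 11) :=
      div_le_div_of_nonneg_left (by linarith) (by positivity) h
    have e4 : l / (L / 11) = 11 * (l / L) := by field_simp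
    have e5 : l / L ≤ l ^ 2 / L := by
      refine div_le_div_of_nonneg_right ?_ hL0.le
      nlinarith
    rw [e4] at e3
    linarith

theorem main1 (hpnt : PntProp) (hBV : BVProp) (θ : ℝ) (hθ : θ < 1) (c : ℕ) : ∃ C x0 : ℕ,
    ∀ x : ℕ, x0 ≤ x → ∀ a0 H : ℕ, Real.log x ^ C ≤ H → ((a0 + H : ℕ) : ℝ) ≤ (x : ℝ) ^ θ →
      ∃ E ⊆ Ioc a0 (a0 + H), (E.card : ℝ) ≤ H / Real.log x ^ c ∧
        ∀ a ∈ Ioc a0 (a0 + H), a ∉ E → ∀ Q : ℕ, (Q : ℝ) ≤ (x : ℝ) ^ θ →
          ((bad x a Q (C * rho x H)).card : ℝ) ≤ Q / Real.log x ^ c := by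
  set θ' : ℝ := (1 + max θ (1 / 2)) / 2 with hθ'
  have hm1 : θ ≤ max θ (1 / 2) := le_max_left _ _
  have hm2 : (1 / 2 : ℝ) ≤ max θ (1 / 2) := le_max_right _ _
  have hm3 : max θ (1 / 2) < 1 := max_lt hθ (by norm_num)
  have hθ'0 : 0 < θ' := by rw [hθ']; linarith
  have hθ'1 : θ' < 1 := by rw [hθ']; linarith
  have hθθ' : 0 < θ' - θ := by rw [hθ']; linarith
  obtain ⟨b, Cm, hCm, x1, hmid⟩ := mid hpnt θ' hθ'1 (2 * c + 4)
  obtain ⟨x2, hsmall⟩ := sm hBV hpnt (c + 1)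
  set C : ℕ := max b (⌈12 * Cm⌉₊ + 1) with hC
  have hCb : b ≤ C := le_max_left _ _
  have hC1 : (1 : ℝ) ≤ C := by
    have : 1 ≤ C := le_trans (by omega) (le_max_right b (⌈12 * Cm⌉₊ + 1))
    exact_mod_cast this
  have hC12 : 12 * Cm ≤ C := by
    have e1 : 12 * Cm ≤ (⌈12 * Cm⌉₊ : ℝ) := Nat.le_ceil _
    have e2 : ((⌈12 * Cm⌉₊ : ℕ) : ℝ) ≤ C := by
      have : ⌈12 * Cm⌉₊ ≤ C := le_trans (by omega) (le_max_right b (⌈12 * Cm⌉₊ + 1))
      exact_mod_cast this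
    linarith
  have tl : Filter.Tendsto (fun x : ℕ => Real.log (x : ℝ)) Filter.atTop Filter.atTop :=
    Real.tendsto_log_atTop.comp tendsto_natCast_atTop_atTop
  have ev1 : ∀ᶠ x : ℕ in Filter.atTop, (3 : ℝ) ≤ Real.log x := tl.eventually_ge_atTop 3
  have ev2 : ∀ᶠ x : ℕ in Filter.atTop, (2 : ℝ) ≤ (x : ℝ) ^ (θ' - θ) :=
    ((tendsto_rpow_atTop hθθ').comp tendsto_natCast_atTop_atTop).eventually_ge_atTop 2
  have ev3 : ∀ᶠ x : ℕ in Filter.atTop, (1 : ℝ) ≤ Real.log (Real.log x) :=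
    (Real.tendsto_log_atTop.comp tl).eventually_ge_atTop 1
  have ev4 : ∀ᶠ x : ℕ in Filter.atTop, Real.log (x : ℝ) ^ b ≤ (x : ℝ) ^ ((1 : ℝ) / 20) := by
    have h0 : (fun x : ℝ => Real.log x ^ b) =o[Filter.atTop] fun x : ℝ => x ^ ((1 : ℝ) / 20) := by
      have := isLittleO_log_rpow_rpow_atTop (b : ℝ) (s := (1 : ℝ) / 20) (by norm_num)
      simpa [Real.rpow_natCast] using this
    have h1 := (h0.bound (c := 1) (by norm_num))
    have h2 := tendsto_natCast_atTop_atTop (R := ℝ) |>.eventually (h1.and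
      (Filter.eventually_ge_atTop (1 : ℝ)))
    filter_upwards [h2] with x hx
    have e1 : 0 ≤ Real.log (x : ℝ) := Real.log_nonneg hx.2
    have e2 : 0 ≤ (x : ℝ) ^ ((1 : ℝ) / 20) := by positivity
    have := hx.1
    rw [Real.norm_of_nonneg (by positivity), Real.norm_of_nonneg e2, one_mul] at this
    exact this
  have ev5 : ∀ᶠ x : ℕ in Filter.atTop, (2 : ℝ) ≤ (x : ℝ) ^ ((1 : ℝ) / 110) :=
    ((tendsto_rpow_atTop (by norm_num)).comp tendsto_natCast_atTop_atTop).eventually_ge_atTop 2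
  obtain ⟨x3, hx3⟩ := Filter.eventually_atTop.1
    (ev1.and (ev2.and (ev3.and (ev4.and (ev5.and (Filter.eventually_ge_atTop 1))))))
  refine ⟨C, max (max x1 x2) x3, fun x hx a0 H hH haH => ?_⟩
  obtain ⟨hL, hx2, hl1, hLb, hx110, hx1n⟩ := hx3 x (le_trans (le_max_right _ _) hx)
  have hxx1 : x1 ≤ x := le_trans (le_trans (le_max_left _ _) (le_max_left _ _)) hx
  have hxx2 : x2 ≤ x := le_trans (le_trans (le_max_right _ _) (le_max_left _ _)) hx
  set L : ℝ := Real.log x with hLdef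
  have hL0 : 0 < L := by linarith
  have hx1r : (1 : ℝ) ≤ x := by exact_mod_cast hx1n
  have hx0 : (0 : ℝ) < x := by linarith
  have hxθ : 2 * (x : ℝ) ^ θ ≤ (x : ℝ) ^ θ' := by
    have e : (x : ℝ) ^ θ' = (x : ℝ) ^ (θ' - θ) * (x : ℝ) ^ θ := by
      rw [← Real.rpow_add hx0]
      congr 1
      ring
    rw [e]
    exact mul_le_mul_of_nonneg_right hx2 (by positivity)
  have hxθ0 : 0 < (x : ℝ) ^ θ := Real.rpow_pos_of_pos hx0 _
  have hxθ1 : (x : ℝ) ^ θ ≤ x := by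
    calc (x : ℝ) ^ θ ≤ (x : ℝ) ^ (1 : ℝ) := Real.rpow_le_rpow_of_exponent_le hx1r hθ.le
      _ = x := Real.rpow_one _
  -- the length of the blocks
  have hT : 2 * (x : ℝ) ^ ((1 : ℝ) / 11) ≤ (x : ℝ) ^ ((1 : ℝ) / 10) := by
    have e : (x : ℝ) ^ ((1 : ℝ) / 10) = (x : ℝ) ^ ((1 : ℝ) / 110) * (x : ℝ) ^ ((1 : ℝ) / 11) := by
      rw [← Real.rpow_add hx0]
      norm_num
    rw [e]
    exact mul_le_mul_of_nonneg_right hx110 (by positivity)
  have hx11 : 1 ≤ (x : ℝ) ^ ((1 : ℝ) / 11) := Real.one_le_rpow hx1r (by norm_num)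
  have hTf : (x : ℝ) ^ ((1 : ℝ) / 11) ≤ (⌊(x : ℝ) ^ ((1 : ℝ) / 10)⌋₊ : ℝ) := by
    have := Nat.lt_floor_add_one ((x : ℝ) ^ ((1 : ℝ) / 10))
    linarith
  have hTf2 : (⌊(x : ℝ) ^ ((1 : ℝ) / 10)⌋₊ : ℝ) ≤ (x : ℝ) ^ ((1 : ℝ) / 10) :=
    Nat.floor_le (by positivity)
  set T : ℕ := ⌊(x : ℝ) ^ ((1 : ℝ) / 10)⌋₊ with hTdef
  set H1 : ℕ := min H T with hH1
  have hLC : 1 ≤ L ^ C := one_le_pow₀ (by linarith)
  have hHpos : 1 ≤ H := by
    have : (1 : ℝ) ≤ H := hLC.trans hH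
    exact_mod_cast this
  have hTpos : 1 ≤ T := by
    have : (1 : ℝ) ≤ T := hx11.trans hTf
    exact_mod_cast this
  have h1 : 1 ≤ H1 := le_min hHpos hTpos
  have hHH : H1 ≤ H := min_le_left _ _
  have hH1b : L ^ b ≤ H1 := by
    have e1 : L ^ b ≤ H := (pow_le_pow_right₀ (by linarith) hCb).trans hH
    have e2 : L ^ b ≤ T := by
      refine hLb.trans (le_trans ?_ hTf)
      exact Real.rpow_le_rpow_of_exponent_le hx1r (by norm_num)
    have e3 : ((min H T : ℕ) : ℝ) = min (H : ℝ) (T : ℝ) := by push_cast; rfl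
    rw [hH1, e3]
    exact le_min e1 e2
  have hH1T : (H1 : ℝ) ≤ (x : ℝ) ^ ((1 : ℝ) / 10) := by
    have : (H1 : ℝ) ≤ T := by exact_mod_cast min_le_right H T
    linarith
  have hH1sq : (H1 : ℝ) ^ 2 ≤ x := by
    have e0 : (0 : ℝ) ≤ H1 := Nat.cast_nonneg _
    calc (H1 : ℝ) ^ 2 ≤ ((x : ℝ) ^ ((1 : ℝ) / 10)) ^ 2 := pow_le_pow_left₀ e0 hH1T 2
      _ = (x : ℝ) ^ ((1 : ℝ) / 5) := by
          rw [← Real.rpow_natCast, ← Real.rpow_mul hx0.le]
          norm_num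
      _ ≤ (x : ℝ) ^ (1 : ℝ) := Real.rpow_le_rpow_of_exponent_le hx1r (by norm_num)
      _ = x := Real.rpow_one _
  have hH1q : (H1 : ℝ) ≤ (x : ℝ) ^ ((1 : ℝ) / 4) :=
    hH1T.trans (Real.rpow_le_rpow_of_exponent_le hx1r (by norm_num))
  -- the thresholds
  have hrho1 : rho x H1 ≤ 12 * rho x H := by
    refine fin_rho x H H1 L (Real.log L) hLdef rfl hL0 hl1 ?_
    rcases le_total H T with h | h
    · left
      exact min_eq_left h
    · right
      have e1 : H1 = T := min_eq_right h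
      rw [e1]
      have e2 : Real.log ((x : ℝ) ^ ((1 : ℝ) / 11)) ≤ Real.log (T : ℝ) :=
        Real.log_le_log (by positivity) hTf
      rw [Real.log_rpow hx0] at e2
      linarith
  have hrhoL : 1 / L ≤ rho x H := by
    unfold rho
    rw [← hLdef]
    have e1 : 0 ≤ Real.log L / Real.log H :=
      div_nonneg (by linarith) (Real.log_natCast_nonneg H)
    have e2 : 1 / L ≤ Real.log L ^ 2 / L := div_le_div_of_nonneg_right (by nlinarith) hL0.le
    linarith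
  have hrho0 : 0 ≤ rho x H := le_trans (by positivity) hrhoL
  set η : ℝ := C * rho x H with hη
  have hη1 : Cm * rho x H1 ≤ η := by
    have e1 : Cm * rho x H1 ≤ Cm * (12 * rho x H) := mul_le_mul_of_nonneg_left hrho1 hCm.le
    have e2 : 12 * Cm * rho x H ≤ C * rho x H := mul_le_mul_of_nonneg_right hC12 hrho0
    rw [hη]
    linarith
  have hη2 : 1 / L ≤ η := by
    have e1 : 1 * rho x H ≤ C * rho x H := mul_le_mul_of_nonneg_right hC1 hrho0
    rw [hη]
    linarith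
  have hsm : ∀ a Q : ℕ, 1 ≤ Q → (Q : ℝ) ≤ (x : ℝ) ^ ((1 : ℝ) / 4) →
      ((bad x a Q η).card : ℝ) ≤ Q / L ^ (c + 1) := by
    intro a Q hQ1 hQ2
    refine le_trans ?_ (hsmall x hxx2 a Q hQ1 hQ2)
    exact_mod_cast Finset.card_le_card (fin_anti x a Q _ _ hη2)
  -- the relevant exponents
  set J : Finset ℕ := (range (⌊2 * L⌋₊ + 1)).filter
    (fun j => (x : ℝ) ^ ((1 : ℝ) / 4) ≤ (2 : ℝ) ^ j ∧ (2 : ℝ) ^ j ≤ 2 * (x : ℝ) ^ θ) with hJ
  have hJcard : (J.card : ℝ) ≤ 3 * L := by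
    have e1 : J.card ≤ ⌊2 * L⌋₊ + 1 := by
      refine (Finset.card_filter_le _ _).trans ?_
      rw [card_range]
    have e2 : (J.card : ℝ) ≤ (⌊2 * L⌋₊ : ℝ) + 1 := by exact_mod_cast e1
    have e3 : (⌊2 * L⌋₊ : ℝ) ≤ 2 * L := Nat.floor_le (by linarith)
    linarith
  have hJmem : ∀ j : ℕ, (x : ℝ) ^ ((1 : ℝ) / 4) ≤ (2 : ℝ) ^ j → (2 : ℝ) ^ j ≤ 2 * (x : ℝ) ^ θ →
      j ∈ J := by
    intro j e1 e2
    rw [hJ, mem_filter, mem_range]
    refine ⟨?_, e1, e2⟩
    have e3 : (2 : ℝ) ^ j ≤ 2 * x := e2.trans (by linarith)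
    have e4 : (j : ℝ) * Real.log 2 ≤ Real.log 2 + L := by
      rw [← Real.log_pow, hLdef, ← Real.log_mul (by norm_num) hx0.ne']
      exact Real.log_le_log (by positivity) e3
    have e5 := Real.log_two_gt_d9
    have e6 := Real.log_two_lt_d9
    have e7 : (j : ℝ) ≤ 2 * L := by
      by_contra hcon
      push Not at hcon
      have e8 : 2 * L * (0.69 : ℝ) ≤ (j : ℝ) * Real.log 2 :=
        mul_le_mul hcon.le (by linarith) (by norm_num) (by positivity)
      linarith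
    have := Nat.le_floor e7
    omega
  classical
  set E : Finset ℕ := (Ioc a0 (a0 + H)).filter (fun a => ∃ j ∈ J,
    ((2 ^ j : ℕ) : ℝ) / L ^ (c + 1) < (bad x a (2 ^ j) η).card) with hE
  refine ⟨E, Finset.filter_subset _ _, ?_, ?_⟩
  · have hsub : E ⊆ J.biUnion (fun j => (Ioc a0 (a0 + H)).filter
        (fun a => ((2 ^ j : ℕ) : ℝ) / L ^ (c + 1) < (bad x a (2 ^ j) η).card)) := by
      intro a ha
      rw [hE, mem_filter] at ha
      obtain ⟨j, hj, hj2⟩ := ha.2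
      rw [mem_biUnion]
      exact ⟨j, hj, mem_filter.2 ⟨ha.1, hj2⟩⟩
    have hc1 := (Finset.card_le_card hsub).trans Finset.card_biUnion_le
    have hc2 : (E.card : ℝ) ≤ ∑ j ∈ J, (((Ioc a0 (a0 + H)).filter
        (fun a => ((2 ^ j : ℕ) : ℝ) / L ^ (c + 1) < (bad x a (2 ^ j) η).card)).card : ℝ) := by
      exact_mod_cast hc1
    refine hc2.trans ?_
    have hterm : ∀ j ∈ J, (((Ioc a0 (a0 + H)).filter
        (fun a => ((2 ^ j : ℕ) : ℝ) / L ^ (c + 1) < (bad x a (2 ^ j) η).card)).card : ℝ) ≤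
        2 * H / L ^ (c + 3) := by
      intro j hj
      rw [hJ, mem_filter] at hj
      refine fin_block x η L hL c a0 H H1 (2 ^ j) h1 hHH (Nat.one_le_two_pow) fun i hi => ?_
      have hb : ((a0 + i * H1 : ℕ) : ℝ) ≤ (x : ℝ) ^ θ' := by
        have e1 : a0 + i * H1 ≤ a0 + H := by
          have e2 : i * H1 ≤ H / H1 * H1 := Nat.mul_le_mul_right _ (by omega)
          have e3 := Nat.div_mul_le_self H H1
          omega
        have e2 : ((a0 + i * H1 : ℕ) : ℝ) ≤ ((a0 + H : ℕ) : ℝ) := by exact_mod_cast e1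
        linarith
      have hmm := hmid x hxx1 (a0 + i * H1) (2 ^ j) H1 hH1b hH1sq ?_ hb ?_
      · refine le_trans (Finset.sum_le_sum fun a _ => ?_) hmm
        exact_mod_cast Finset.card_le_card (fin_anti x a (2 ^ j) _ _ hη1)
      · have e5 : (H1 : ℝ) ≤ (2 : ℝ) ^ j := hH1q.trans hj.2.1
        exact_mod_cast e5
      · push_cast
        exact hj.2.2.trans hxθ
    refine (Finset.sum_le_sum hterm).trans ?_
    rw [Finset.sum_const, nsmul_eq_mul]
    have hH0 : (0 : ℝ) ≤ H := Nat.cast_nonneg _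
    have e1 : (J.card : ℝ) * (2 * H / L ^ (c + 3)) ≤ 3 * L * (2 * H / L ^ (c + 3)) :=
      mul_le_mul_of_nonneg_right hJcard (by positivity)
    refine e1.trans ?_
    have e2 : 3 * L * (2 * H / L ^ (c + 3)) = (6 / L ^ 2) * (H / L ^ c) := by
      rw [pow_add]
      field_simp
      ring
    rw [e2]
    have e3 : 6 / L ^ 2 ≤ 1 := by
      rw [div_le_one (by positivity)]
      nlinarith
    have e4 : 0 ≤ (H : ℝ) / L ^ c := by positivity
    nlinarith
  · intro a ha haE Q hQ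
    rcases Nat.eq_zero_or_pos Q with hQ0 | hQ0
    · subst hQ0
      have : bad x a 0 η = ∅ := by
        unfold bad
        simp
      rw [this]
      simp
    · have key : ∀ j : ℕ, (2 : ℝ) ^ j ≤ 2 * (x : ℝ) ^ θ →
          ((bad x a (2 ^ j) η).card : ℝ) ≤ (2 : ℝ) ^ j / L ^ (c + 1) := by
        intro j hj
        rcases le_or_gt ((2 : ℝ) ^ j) ((x : ℝ) ^ ((1 : ℝ) / 4)) with h4 | h4
        · have := hsm a (2 ^ j) Nat.one_le_two_pow (by push_cast; exact h4)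
          push_cast at this
          exact this
        · by_contra hcon
          push Not at hcon
          apply haE
          rw [hE, mem_filter]
          refine ⟨ha, j, hJmem j h4.le hj, ?_⟩
          push_cast
          exact hcon
      set j := Nat.log 2 Q with hj
      have q1 : 2 ^ j ≤ Q := Nat.pow_log_le_self 2 (by omega)
      have q2 : Q < 2 ^ (j + 1) := Nat.lt_pow_succ_log_self (by norm_num) Q
      have q1r : (2 : ℝ) ^ j ≤ Q := by exact_mod_cast q1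
      have e : (2 : ℝ) ^ (j + 1) = 2 * 2 ^ j := by rw [pow_succ]; ring
      have k1 := key j (by linarith)
      have k2 := key (j + 1) (by rw [e]; linarith)
      have k3 : ((bad x a Q η).card : ℝ) ≤ (bad x a (2 ^ j) η).card +
          (bad x a (2 ^ (j + 1)) η).card := by
        exact_mod_cast (Finset.card_le_card (fin_bad_subset x a Q η j q1 q2)).trans
          (Finset.card_union_le _ _)
      have hQr : (0 : ℝ) ≤ Q := Nat.cast_nonneg _
      calc ((bad x a Q η).card : ℝ) ≤ (2 : ℝ) ^ j / L ^ (c + 1) + (2 : ℝ) ^ (j + 1) / L ^ (c + 1) := by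
            linarith
        _ = 3 * (2 : ℝ) ^ j / L ^ (c + 1) := by rw [e]; ring
        _ ≤ 3 * Q / L ^ (c + 1) := div_le_div_of_nonneg_right (by linarith) (by positivity)
        _ = (3 / L) * (Q / L ^ c) := by
            rw [pow_succ]
            field_simp
        _ ≤ 1 * (Q / L ^ c) := by
            refine mul_le_mul_of_nonneg_right ?_ (by positivity)
            rw [div_le_one hL0]
            exact hL
        _ = Q / L ^ c := one_mul _

end Pool.Agent.H35.U
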