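import Pool.Agent.H35.U.Fin
import Pool.Agent.H91.EHA.Final

/-!
# U FinY: the maximum over `y ≤ x`; hypotheses removed

`badY x a Q η`: moduli `q ∈ (Q,2Q]`, coprime to `a`, with `|err y q a| > η π(x)/φ(q)` for some `y ≤ x`.
`L = log x`, `N = ⌈L²⌉₊`, `y_j = ⌊j x/N⌋₊`, `1 ≤ j ≤ N` (so `y_N = x`, all `y_j ≥ x/L^3`).  `main1` with `(1+θ)/2` and
`c + 4` at every `y_j` (`log y_j ≤ L ≤ 2 log y_j`, `x^θ ≤ y_j^((1+θ)/2)`, `rho y_j H ≤ 4 rho x H`,
`L^C' ≤ H` gives `(log y_j)^C ≤ H`): `E = ⋃ E_j`, `|E| ≤ N H/(log y_1)^(c+4) ≤ H/L^c`; for `a ∉ E` the union of the bad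
sets of the `y_j` has at most `Q/L^c` elements.  Outside the union: for `y_j ≤ y ≤ y_{j+1}`
`π(y_j;q,a) ≤ π(y;q,a) ≤ π(y_{j+1};q,a)` and the same for `π`, so
`|err y q a| ≤ max_j |err y_j q a| + (π(y_{j+1}) - π(y_j))/φ(q)`, and
`π(y_{j+1}) - π(y_j) ≤ x/N + 1 ≤ 2x/L² ≤ (8/L) π(x) ≤ 8 rho π(x)`; for `y < y_1`:
`|err y q a| ≤ max(π(y;q,a), π(y)/φ(q)) ≤ π(y_1;q,a) + π(y_1)/φ(q) ≤ |err y_1 q a| + 2 π(y_1)/φ(q)`, `π(y_1) ≤ y_1`.
`π(y_j) ≤ π(x)`.  `Q < 1`: `bad` is empty for `Q = 0`.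
`PntProp` is `Pool.Agent.H91.EHA.pnt'`, `BVProp` is `Pool.Agent.H91.EHA.classes_sum` with `H = 1` (see
`Pool/Agent/H87/WL` or the final file of project WL for the derivation; `ε = 1/10`, `θ = 1/3`).
-/

set_option autoImplicit false

namespace Pool.Agent.H35.U

open Finset
open Pool.Agent.H91.EHA (err)
open Pool.Agent.H87.WL (PntProp BVProp bad)

open Classical in
/-- the moduli `q ∈ (Q, 2Q]` coprime to `a` with `|π(y;q,a) - π(y)/φ(q)| > η π(x)/φ(q)` for some
`y ≤ x` -/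
noncomputable def badY (x a Q : ℕ) (η : ℝ) : Finset ℕ :=
  (Ioc Q (2 * Q)).filter (fun q => Nat.Coprime a q ∧ ∃ y : ℕ, y ≤ x ∧
    η * ((Nat.primeCounting x : ℝ) / (q.totient : ℝ)) < |err y q (a : ZMod q)|)

theorem pnt_prop : PntProp := fun c => Pool.Agent.H91.EHA.pnt' c

theorem bv_prop : BVProp := by
  intro c
  obtain ⟨x0, hx0⟩ := Pool.Agent.H91.EHA.classes_sum (1 / 3) (1 / 10) (by norm_num)
    (by norm_num) c
  exact ⟨x0, fun x hx T hT1 hT2 => hx0 x hx 1 T le_rfl hT1 hT2⟩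

private lemma FinY_pc (u k : ℕ) : Nat.primeCounting (u + k) ≤ Nat.primeCounting u + k := by
  induction k with
  | zero => simp
  | succ k ih =>
    have h : Nat.primeCounting (u + (k + 1)) ≤ Nat.primeCounting (u + k) + 1 := by
      rw [← add_assoc]
      unfold Nat.primeCounting Nat.primeCounting'
      rw [Nat.count_succ]
      split_ifs <;> omega
    omega

private lemma FinY_err (u y v q : ℕ) (a : ZMod q) (h1 : u ≤ y) (h2 : y ≤ v) :
    |err y q a| ≤ max |err u q a| |err v q a| + ((v : ℝ) - u) / (q.totient : ℝ) := by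
  have hA : ∀ s t : ℕ, s ≤ t →
      (((Icc 1 s).filter (fun p : ℕ => Nat.Prime p ∧ ((p : ZMod q) = a))).card : ℝ) ≤
      (((Icc 1 t).filter (fun p : ℕ => Nat.Prime p ∧ ((p : ZMod q) = a))).card : ℝ) := by
    intro s t hst
    exact_mod_cast card_le_card (filter_subset_filter _ (Icc_subset_Icc_right hst))
  have hP : ∀ s t : ℕ, s ≤ t → (Nat.primeCounting s : ℝ) / (q.totient : ℝ) ≤
      (Nat.primeCounting t : ℝ) / (q.totient : ℝ) := by
    intro s t hst
    apply div_le_div_of_nonneg_right _ (Nat.cast_nonneg _)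
    exact_mod_cast Nat.monotone_primeCounting hst
  have hD : (Nat.primeCounting v : ℝ) / (q.totient : ℝ) - (Nat.primeCounting u : ℝ) / (q.totient : ℝ)
      ≤ ((v : ℝ) - u) / (q.totient : ℝ) := by
    rw [← sub_div]
    apply div_le_div_of_nonneg_right _ (Nat.cast_nonneg _)
    obtain ⟨k, rfl⟩ := Nat.exists_eq_add_of_le (h1.trans h2)
    have h3 := FinY_pc u k
    have h4 : (Nat.primeCounting (u + k) : ℝ) ≤ Nat.primeCounting u + k := by exact_mod_cast h3
    push_cast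
    linarith
  have hu1 := neg_abs_le (err u q a)
  have hv1 := le_abs_self (err v q a)
  have hm1 := le_max_left |err u q a| |err v q a|
  have hm2 := le_max_right |err u q a| |err v q a|
  have e1 := hA _ _ h1
  have e2 := hA _ _ h2
  have e3 := hP _ _ h1
  have e4 := hP _ _ h2
  rw [abs_le]
  unfold err at hu1 hv1 hm1 hm2 ⊢
  constructor <;> linarith

private lemma FinY_grid (x N y : ℕ) (hN : 0 < N) (hy : y ≤ x) :
    ∃ j, j < N ∧ j * x / N ≤ y ∧ y ≤ (j + 1) * x / N := by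
  have hex : ∃ j, y ≤ j * x / N := ⟨N, by rwa [Nat.mul_div_cancel_left x hN]⟩
  rcases hj : Nat.find hex with _ | k
  · have h := Nat.find_spec hex
    rw [hj] at h
    have hy0 : y = 0 := by simpa using h
    exact ⟨0, hN, by simp, by simp [hy0]⟩
  · have h := Nat.find_spec hex
    rw [hj] at h
    have h2 : ¬ y ≤ k * x / N := Nat.find_min hex (by omega)
    have h3 : Nat.find hex ≤ N := Nat.find_min' hex (by rwa [Nat.mul_div_cancel_left x hN])
    exact ⟨k, by omega, by omega, h⟩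

private lemma FinY_rho (x y H : ℕ) (h1 : Real.log x / 2 ≤ Real.log y) (h2 : Real.log y ≤ Real.log x)
    (h3 : 2 ≤ Real.log x) : rho y H ≤ 2 * rho x H := by
  have hly : 1 ≤ Real.log y := by linarith
  have hl0 : 0 ≤ Real.log (Real.log y) := Real.log_nonneg hly
  have hl1 : Real.log (Real.log y) ≤ Real.log (Real.log x) := Real.log_le_log (by linarith) h2
  have hH : 0 ≤ Real.log (H : ℝ) := Real.log_natCast_nonneg H
  unfold rho
  have e1 : Real.log (Real.log y) / Real.log H ≤ Real.log (Real.log x) / Real.log H :=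
    div_le_div_of_nonneg_right hl1 hH
  have e2 : 0 ≤ Real.log (Real.log x) / Real.log H := div_nonneg (hl0.trans hl1) hH
  have e3 : Real.log (Real.log y) ^ 2 / Real.log y ≤ 2 * (Real.log (Real.log x) ^ 2 / Real.log x) := by
    have h4 : Real.log (Real.log y) ^ 2 ≤ Real.log (Real.log x) ^ 2 := by
      apply pow_le_pow_left₀ hl0 hl1
    calc Real.log (Real.log y) ^ 2 / Real.log y ≤ Real.log (Real.log x) ^ 2 / (Real.log x / 2) := by
          apply div_le_div₀ (sq_nonneg _) h4 (by linarith) h1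
      _ = 2 * (Real.log (Real.log x) ^ 2 / Real.log x) := by
          field_simp
  linarith

private lemma FinY_ev (t : ℝ) (ht : t < 1) (ht0 : 0 < t) (x01 : ℕ) (K : ℝ) :
    ∃ x0 : ℕ, ∀ x : ℕ, x0 ≤ x → 4 * (x : ℝ) ^ t * Real.log x ^ 2 ≤ x ∧ (x01 : ℝ) ≤ (x : ℝ) ^ t ∧
      K ≤ Real.log x ∧ 4096 ≤ x := by
  have h1 : ∀ᶠ y : ℝ in Filter.atTop, 4 * y ^ t * Real.log y ^ 2 ≤ y := by
    have h := (isLittleO_log_rpow_rpow_atTop (2 : ℝ) (show (0 : ℝ) < 1 - t by linarith)).bound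
      (show (0 : ℝ) < 1 / 4 by norm_num)
    filter_upwards [h, Filter.eventually_gt_atTop (1 : ℝ)] with y hy hy1
    have hy0 : 0 < y := by linarith
    have hl : 0 < Real.log y := Real.log_pos hy1
    rw [Real.norm_of_nonneg (by positivity), Real.norm_of_nonneg (by positivity)] at hy
    have e1 : Real.log y ^ (2 : ℝ) = Real.log y ^ 2 := by
      rw [← Real.rpow_natCast]; norm_num
    rw [e1] at hy
    have e2 : y ^ t * y ^ (1 - t) = y := by
      rw [← Real.rpow_add hy0]; simp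
    have e3 : 0 < y ^ t := Real.rpow_pos_of_pos hy0 t
    calc 4 * y ^ t * Real.log y ^ 2 ≤ 4 * y ^ t * (1 / 4 * y ^ (1 - t)) := by
          apply mul_le_mul_of_nonneg_left hy (by positivity)
      _ = y ^ t * y ^ (1 - t) := by ring
      _ = y := e2
  have h2 : ∀ᶠ y : ℝ in Filter.atTop, (x01 : ℝ) ≤ y ^ t :=
    (tendsto_rpow_atTop ht0).eventually_ge_atTop _
  have h3 : ∀ᶠ y : ℝ in Filter.atTop, K ≤ Real.log y := Real.tendsto_log_atTop.eventually_ge_atTop _
  have h4 := (tendsto_natCast_atTop_atTop (R := ℝ)).eventually (h1.and (h2.and h3))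
  rw [Filter.eventually_atTop] at h4
  obtain ⟨x0, hx0⟩ := h4
  refine ⟨max x0 4096, fun x hx => ?_⟩
  obtain ⟨a, b, d⟩ := hx0 x (le_trans (le_max_left _ _) hx)
  exact ⟨a, b, d, le_trans (le_max_right _ _) hx⟩

private lemma FinY_lin (L N Y : ℝ) (c : ℕ) (V : ℝ) (hV : 0 ≤ V) (hL : (2 : ℝ) ^ (c + 5) ≤ L)
    (hN : N ≤ 2 * L ^ 2) (hY : L / 2 ≤ Y) : N * (V / Y ^ (c + 4)) ≤ V / L ^ c := by
  have hL1 : (1 : ℝ) ≤ L := (one_le_pow₀ (by norm_num)).trans hL
  have hL0 : 0 < L := by linarith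
  have hY0 : 0 < Y := by linarith
  have h1 : (L / 2) ^ (c + 4) ≤ Y ^ (c + 4) := pow_le_pow_left₀ (by positivity) hY _
  have h2 : V / Y ^ (c + 4) ≤ V / (L / 2) ^ (c + 4) :=
    div_le_div_of_nonneg_left hV (by positivity) h1
  have h3 : 0 ≤ V / Y ^ (c + 4) := by positivity
  calc N * (V / Y ^ (c + 4)) ≤ 2 * L ^ 2 * (V / Y ^ (c + 4)) :=
        mul_le_mul_of_nonneg_right hN h3
    _ ≤ 2 * L ^ 2 * (V / (L / 2) ^ (c + 4)) := mul_le_mul_of_nonneg_left h2 (by positivity)
    _ = V / L ^ c * (2 ^ (c + 5) / L ^ 2) := by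
        rw [div_pow, pow_add L c 4, pow_succ (2 : ℝ) (c + 4)]
        field_simp
    _ ≤ V / L ^ c * 1 := by
        apply mul_le_mul_of_nonneg_left _ (by positivity)
        rw [div_le_one (by positivity)]
        nlinarith
    _ = V / L ^ c := mul_one _

theorem main2 (θ : ℝ) (hθ : θ < 1) (c : ℕ) : ∃ C x0 : ℕ,
    ∀ x : ℕ, x0 ≤ x → ∀ a0 H : ℕ, Real.log x ^ C ≤ H → ((a0 + H : ℕ) : ℝ) ≤ (x : ℝ) ^ θ →
      ∃ E ⊆ Ioc a0 (a0 + H), (E.card : ℝ) ≤ H / Real.log x ^ c ∧
        ∀ a ∈ Ioc a0 (a0 + H), a ∉ E → ∀ Q : ℕ, (Q : ℝ) ≤ (x : ℝ) ^ θ →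
          ((badY x a Q (C * rho x H)).card : ℝ) ≤ Q / Real.log x ^ c := by
  have hm0 : 0 ≤ max θ 0 := le_max_right _ _
  have hm1 : max θ 0 < 1 := max_lt hθ one_pos
  obtain ⟨t, ht⟩ : ∃ t : ℝ, t = (1 + max θ 0) / 2 := ⟨_, rfl⟩
  have ht1 : t < 1 := by rw [ht]; linarith
  have ht2 : 1 / 2 ≤ t := by rw [ht]; linarith
  have ht3 : θ ≤ t * t := by
    have h := le_max_left θ 0
    rw [ht]
    nlinarith [sq_nonneg (1 - max θ 0)]
  obtain ⟨C1, x01, hmain⟩ := main1 pnt_prop bv_prop t ht1 (c + 4)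
  obtain ⟨x0, hx0⟩ := FinY_ev t ht1 (by linarith) x01 (3 + 2 ^ (c + 5))
  refine ⟨2 * C1 + 4, x0, fun x hx a0 H hH haH => ?_⟩
  obtain ⟨hx1, hx2, hx3, hx4⟩ := hx0 x hx
  have hxpos : (4096 : ℝ) ≤ x := by exact_mod_cast hx4
  have hxone : (1 : ℝ) ≤ x := by linarith
  set L : ℝ := Real.log x with hLdef
  have hpow : (1 : ℝ) ≤ 2 ^ (c + 5) := one_le_pow₀ (by norm_num)
  have hL3 : 3 ≤ L := by linarith
  have hL2 : (2 : ℝ) ^ (c + 5) ≤ L := by linarith
  have hlogL : 1 ≤ Real.log L := by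
    rw [Real.le_log_iff_exp_le (by linarith)]
    have := Real.exp_one_lt_d9
    linarith
  obtain ⟨N, hNdef⟩ : ∃ N : ℕ, N = ⌈L ^ 2⌉₊ := ⟨_, rfl⟩
  have hN1 : L ^ 2 ≤ N := by rw [hNdef]; exact Nat.le_ceil _
  have hN2 : (N : ℝ) ≤ 2 * L ^ 2 := by
    have h := Nat.ceil_lt_add_one (show (0 : ℝ) ≤ L ^ 2 by positivity)
    rw [← hNdef] at h
    nlinarith
  have hNR : (0 : ℝ) < N := by
    have : (0 : ℝ) < L ^ 2 := by positivity
    linarith
  have hN0 : 0 < N := by exact_mod_cast hNR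
  have hxt1 : (1 : ℝ) ≤ (x : ℝ) ^ t := Real.one_le_rpow hxone (by linarith)
  -- lower bound for the grid points
  have hdivlow : ∀ j : ℕ, (j : ℝ) * x / N - 1 ≤ ((j * x / N : ℕ) : ℝ) := by
    intro j
    have h := Nat.lt_mul_div_succ (j * x) hN0
    have h' : ((j : ℝ) * x) < N * (((j * x / N : ℕ) : ℝ) + 1) := by exact_mod_cast h
    rw [sub_le_iff_le_add, div_le_iff₀ hNR]
    linarith
  have hdivup : ∀ j : ℕ, ((j * x / N : ℕ) : ℝ) ≤ (j : ℝ) * x / N := by
    intro j
    have h : ((j * x / N : ℕ) : ℝ) ≤ ((j * x : ℕ) : ℝ) / N := Nat.cast_div_le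
    simpa using h
  have hxN : 2 * (x : ℝ) ^ t ≤ x / N := by
    rw [le_div_iff₀ hNR]
    calc 2 * (x : ℝ) ^ t * N ≤ 2 * (x : ℝ) ^ t * (2 * L ^ 2) :=
          mul_le_mul_of_nonneg_left hN2 (by positivity)
      _ = 4 * (x : ℝ) ^ t * L ^ 2 := by ring
      _ ≤ x := hx1
  have hyt : ∀ j : ℕ, 1 ≤ j → (x : ℝ) ^ t ≤ ((j * x / N : ℕ) : ℝ) := by
    intro j hj
    have h1 := hdivlow j
    have hj' : (1 : ℝ) ≤ j := by exact_mod_cast hj
    have h2 : (x : ℝ) / N ≤ (j : ℝ) * x / N := by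
      apply div_le_div_of_nonneg_right _ hNR.le
      nlinarith
    linarith
  have hyx : ∀ j : ℕ, j ≤ N → j * x / N ≤ x := by
    intro j hj
    calc j * x / N ≤ N * x / N := Nat.div_le_div_right (Nat.mul_le_mul_right _ hj)
      _ = x := Nat.mul_div_cancel_left x hN0
  have hly1 : ∀ j : ℕ, 1 ≤ j → L / 2 ≤ Real.log ((j * x / N : ℕ) : ℝ) := by
    intro j hj
    have h1 := Real.log_le_log (by linarith) (hyt j hj)
    rw [Real.log_rpow (by linarith)] at h1
    nlinarith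
  have hly2 : ∀ j : ℕ, 1 ≤ j → j ≤ N → Real.log ((j * x / N : ℕ) : ℝ) ≤ L := by
    intro j hj hjN
    apply Real.log_le_log
    · have := hyt j hj; linarith
    · exact_mod_cast hyx j hjN
  have hH1 : (1 : ℝ) ≤ H := le_trans (one_le_pow₀ (by linarith)) hH
  have hθx : (x : ℝ) ^ θ ≤ ((x : ℝ) ^ t) ^ t := by
    rw [← Real.rpow_mul (by linarith)]
    exact Real.rpow_le_rpow_of_exponent_le hxone ht3
  have hyθ : ∀ j : ℕ, 1 ≤ j → (x : ℝ) ^ θ ≤ ((j * x / N : ℕ) : ℝ) ^ t := fun j hj =>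
    hθx.trans (Real.rpow_le_rpow (by linarith) (hyt j hj) (by linarith))
  have hall : ∀ j : ℕ, ∃ E : Finset ℕ, E ⊆ Ioc a0 (a0 + H) ∧ (1 ≤ j → j ≤ N →
      (E.card : ℝ) ≤ H / Real.log ((j * x / N : ℕ) : ℝ) ^ (c + 4) ∧
        ∀ a ∈ Ioc a0 (a0 + H), a ∉ E → ∀ Q : ℕ, (Q : ℝ) ≤ ((j * x / N : ℕ) : ℝ) ^ t →
          ((bad (j * x / N) a Q (C1 * rho (j * x / N) H)).card : ℝ) ≤
            Q / Real.log ((j * x / N : ℕ) : ℝ) ^ (c + 4)) := by
    intro j
    by_cases hj : 1 ≤ j ∧ j ≤ N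
    · obtain ⟨hj1, hj2⟩ := hj
      have hb1 := hly1 j hj1
      have hb2 := hly2 j hj1 hj2
      obtain ⟨E, hE1, hE2, hE3⟩ := hmain (j * x / N)
        (by exact_mod_cast hx2.trans (hyt j hj1)) a0 H (by
          calc Real.log ((j * x / N : ℕ) : ℝ) ^ C1 ≤ L ^ C1 := pow_le_pow_left₀ (by linarith) hb2 _
            _ ≤ L ^ (2 * C1 + 4) := pow_le_pow_right₀ (by linarith) (by omega)
            _ ≤ H := hH) (haH.trans (hyθ j hj1))
      exact ⟨E, hE1, fun _ _ => ⟨hE2, hE3⟩⟩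
    · exact ⟨∅, empty_subset _, fun h1 h2 => absurd ⟨h1, h2⟩ hj⟩
  choose E hE1 hE2 using hall
  refine ⟨(Icc 1 N).biUnion E, ?_, ?_, ?_⟩
  · intro a ha
    rw [mem_biUnion] at ha
    obtain ⟨j, -, hj⟩ := ha
    exact hE1 j hj
  · calc (((Icc 1 N).biUnion E).card : ℝ) ≤ ((∑ j ∈ Icc 1 N, (E j).card : ℕ) : ℝ) := by
          exact_mod_cast card_biUnion_le
      _ = ∑ j ∈ Icc 1 N, ((E j).card : ℝ) := by push_cast; rfl
      _ ≤ ∑ _j ∈ Icc 1 N, (H / (L / 2) ^ (c + 4) : ℝ) := by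
          apply sum_le_sum
          intro j hj
          rw [mem_Icc] at hj
          refine (hE2 j hj.1 hj.2).1.trans ?_
          apply div_le_div_of_nonneg_left (by positivity) (by positivity)
          exact pow_le_pow_left₀ (by linarith) (hly1 j hj.1) _
      _ = N * (H / (L / 2) ^ (c + 4)) := by simp
      _ ≤ H / L ^ c := FinY_lin L N (L / 2) c H (by positivity) hL2 hN2 le_rfl
  · intro a ha haE Q hQ
    have hsub : badY x a Q ((2 * C1 + 4 : ℕ) * rho x H) ⊆
        (Icc 1 N).biUnion (fun j => bad (j * x / N) a Q (C1 * rho (j * x / N) H)) := by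
      intro q hq
      unfold badY at hq
      rw [mem_filter] at hq
      obtain ⟨hq1, hq2, y, hyle, hy⟩ := hq
      by_contra hcon
      rw [mem_biUnion] at hcon
      push Not at hcon
      have hpi : (x : ℝ) / 2 ≤ (Nat.primeCounting x : ℝ) * L := Pool.Agent.H87.WL.bsm_pi x hx4
      have hrho : 1 / L ≤ rho x H := by
        unfold rho
        have e1 : 0 ≤ Real.log (Real.log x) / Real.log (H : ℝ) := by
          apply div_nonneg _ (Real.log_natCast_nonneg H)
          rw [← hLdef]; linarith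
        have e2 : 1 / L ≤ Real.log (Real.log x) ^ 2 / Real.log x := by
          rw [← hLdef]
          apply div_le_div_of_nonneg_right _ (by linarith)
          nlinarith
        linarith
      have hrho0 : 0 ≤ rho x H := le_trans (by positivity) hrho
      have hq0 : (0 : ℝ) ≤ (q.totient : ℝ) := Nat.cast_nonneg _
      have hpi0 : (0 : ℝ) ≤ (Nat.primeCounting x : ℝ) := Nat.cast_nonneg _
      -- the error at a grid point
      have hgrid : ∀ j : ℕ, j ≤ N → |err (j * x / N) q (a : ZMod q)| ≤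
          2 * C1 * rho x H * ((Nat.primeCounting x : ℝ) / (q.totient : ℝ)) := by
        intro j hj
        have hnn : 0 ≤ 2 * C1 * rho x H * ((Nat.primeCounting x : ℝ) / (q.totient : ℝ)) := by
          positivity
        rcases Nat.eq_zero_or_pos j with rfl | hj1
        · have h0 : err (0 * x / N) q (a : ZMod q) = 0 := by
            unfold err
            simp
          rw [h0, abs_zero]
          exact hnn
        · have h1 := hcon j (mem_Icc.2 ⟨hj1, hj⟩)
          unfold bad at h1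
          rw [mem_filter] at h1
          push Not at h1
          have h2 := h1 hq1 hq2
          refine h2.trans ?_
          have h3 := FinY_rho x (j * x / N) H (hly1 j hj1) (hly2 j hj1 hj) (by linarith)
          have h4 : (Nat.primeCounting (j * x / N) : ℝ) / (q.totient : ℝ) ≤
              (Nat.primeCounting x : ℝ) / (q.totient : ℝ) := by
            apply div_le_div_of_nonneg_right _ hq0
            exact_mod_cast Nat.monotone_primeCounting (hyx j hj)
          have h5 : (C1 : ℝ) * rho (j * x / N) H ≤ 2 * C1 * rho x H := by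
            have h6 : (0 : ℝ) ≤ C1 := Nat.cast_nonneg _
            nlinarith
          have h7 : (0 : ℝ) ≤ (Nat.primeCounting (j * x / N) : ℝ) / (q.totient : ℝ) := by
            positivity
          exact mul_le_mul h5 h4 h7 (by positivity)
      obtain ⟨j, hj1, hj2, hj3⟩ := FinY_grid x N y hN0 hyle
      have h1 := FinY_err _ _ _ q (a : ZMod q) hj2 hj3
      have h2 := max_le (hgrid j hj1.le) (hgrid (j + 1) hj1)
      have h3 : (((j + 1) * x / N : ℕ) : ℝ) - ((j * x / N : ℕ) : ℝ) ≤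
          4 * rho x H * Nat.primeCounting x := by
        have e1 := hdivup (j + 1)
        have e2 := hdivlow j
        have e3 : ((j + 1 : ℕ) : ℝ) * x / N = (j : ℝ) * x / N + x / N := by push_cast; ring
        rw [e3] at e1
        have e4 : (x : ℝ) / N ≤ x / L ^ 2 :=
          div_le_div_of_nonneg_left (by linarith) (by positivity) hN1
        have e5 : (1 : ℝ) ≤ x / L ^ 2 := by
          have e6 : (1 : ℝ) ≤ x / N := by linarith
          linarith
        have e7 : (x : ℝ) / L ^ 2 ≤ 2 * (1 / L) * Nat.primeCounting x := by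
          rw [div_le_iff₀ (by positivity)]
          have e8 : 2 * (1 / L) * (Nat.primeCounting x : ℝ) * L ^ 2 =
              2 * ((Nat.primeCounting x : ℝ) * L) := by
            field_simp
          rw [e8]
          linarith
        have e9 : 2 * (1 / L) * (Nat.primeCounting x : ℝ) ≤ 2 * rho x H * Nat.primeCounting x := by
          apply mul_le_mul_of_nonneg_right _ hpi0
          linarith
        linarith
      have h4 : ((((j + 1) * x / N : ℕ) : ℝ) - ((j * x / N : ℕ) : ℝ)) / (q.totient : ℝ) ≤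
          4 * rho x H * ((Nat.primeCounting x : ℝ) / (q.totient : ℝ)) := by
        rw [← mul_div_assoc]
        exact div_le_div_of_nonneg_right h3 hq0
      have h5 : |err y q (a : ZMod q)| ≤
          ((2 * C1 + 4 : ℕ) : ℝ) * rho x H * ((Nat.primeCounting x : ℝ) / (q.totient : ℝ)) := by
        push_cast
        have e1 : (2 * (C1 : ℝ) + 4) * rho x H * ((Nat.primeCounting x : ℝ) / (q.totient : ℝ)) =
          2 * C1 * rho x H * ((Nat.primeCounting x : ℝ) / (q.totient : ℝ)) +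
          4 * rho x H * ((Nat.primeCounting x : ℝ) / (q.totient : ℝ)) := by ring
        rw [e1]
        linarith
      linarith
    calc ((badY x a Q ((2 * C1 + 4 : ℕ) * rho x H)).card : ℝ)
        ≤ (((Icc 1 N).biUnion
            (fun j => bad (j * x / N) a Q (C1 * rho (j * x / N) H))).card : ℝ) := by
          exact_mod_cast card_le_card hsub
      _ ≤ ((∑ j ∈ Icc 1 N, (bad (j * x / N) a Q (C1 * rho (j * x / N) H)).card : ℕ) : ℝ) := by
          exact_mod_cast card_biUnion_le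
      _ = ∑ j ∈ Icc 1 N, ((bad (j * x / N) a Q (C1 * rho (j * x / N) H)).card : ℝ) := by
          push_cast; rfl
      _ ≤ ∑ _j ∈ Icc 1 N, (Q / (L / 2) ^ (c + 4) : ℝ) := by
          apply sum_le_sum
          intro j hj
          have haEj : a ∉ E j := fun h => haE (mem_biUnion.2 ⟨j, hj, h⟩)
          rw [mem_Icc] at hj
          refine ((hE2 j hj.1 hj.2).2 a ha haEj Q (hQ.trans (hyθ j hj.1))).trans ?_
          apply div_le_div_of_nonneg_left (by positivity) (by positivity)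
          exact pow_le_pow_left₀ (by linarith) (hly1 j hj.1) _
      _ = N * (Q / (L / 2) ^ (c + 4)) := by simp
      _ ≤ Q / L ^ c := FinY_lin L N (L / 2) c Q (by positivity) hL2 hN2 le_rfl

end Pool.Agent.H35.U
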