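import Pool.Agent.H35.U.Defs
import Pool.Agent.H87.WL.PiPsi

/-!
# U PiP: from `ψ` to `π`, pointwise, with error `loglog x/log x`

`L = log x`, `l = log L`, `δ = 2 l/L` (`< 1` for large `x`), `x^(1-δ) = x/L²`.
* `pin_le`: `pin (1-δ) L ≤ psiA + (x/(L² q) + 1) L ≤ psiA + 2 (x/q)/L` (as `q ≤ 2 x^θ`, `L ≤ (x/q)/L`).
* `psi_le`: `psiA ≤ pin L + pps`.
* The same for `q = 1`, `a = 0` (`pin x 1 0 = π(x)`, `psiA x 1 0 = ∑ Lam`, see `pt_pin_one`, `pt_psi_one` in `WL.Pt`) and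
  `PntProp` with exponent `1`: `|π(x) L - x| ≤ 10 x l/L` (for the lower bound `∑ Lam ≤ π(x) L`, `pt_psi_le_pi`).
So with `F = x/φ(q)`, `psiA = F (1+e)`, `|e| ≤ E`:
upper: `pin L ≤ (F(1+E) + 2F/L)/(1-δ) ≤ F (1 + 2E + 10 l/L)`; lower: `pin L ≥ F(1-E) - pps`; and
`π(x) L/φ(q) = F (1 + O(10 l/L))`, `π(x) L ≥ x/2`.  `err = pin - π/φ(q)` (`pin_eq`).
-/

set_option autoImplicit false

namespace Pool.Agent.H35.U

open Finset
open Pool.Agent.H91.EHA (Lam psiA err)
open Pool.Agent.H87.WL (PntProp pin pps)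

private lemma pip_pin_one (x : ℕ) : pin x 1 0 = Nat.primeCounting x := by
  unfold pin
  rw [Nat.primeCounting, Nat.primeCounting', Nat.count_eq_card_filter_range]
  congr 1
  ext p
  simp only [mem_filter, mem_Icc, mem_range]
  constructor
  · rintro ⟨⟨h1, h2⟩, h3, _⟩
    exact ⟨by omega, h3⟩
  · rintro ⟨h1, h2⟩
    exact ⟨⟨h2.one_lt.le, by omega⟩, h2, Subsingleton.elim _ _⟩

private lemma pip_psi_one (x : ℕ) : psiA x 1 0 = ∑ n ∈ Icc 1 x, Lam n := by
  unfold Pool.Agent.H91.EHA.psiA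
  apply sum_congr _ fun _ _ => rfl
  apply filter_true_of_mem
  intro n _
  exact Nat.modEq_one

private lemma pip_psi_le_pi (x : ℕ) :
    ∑ n ∈ Icc 1 x, Lam n ≤ (Nat.primeCounting x : ℝ) * Real.log x := by
  have h := Chebyshev.psi_le_primeCounting_mul_log x
  rw [Chebyshev.psi_eq_sum_Icc] at h
  rw [Nat.floor_natCast] at h
  refine le_trans (le_of_eq ?_) h
  have h0 : Icc 0 x = insert 0 (Icc 1 x) := by
    ext n
    simp only [mem_Icc, mem_insert]
    omega
  rw [h0, sum_insert (by simp)]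
  simp [Pool.Agent.H91.EHA.Lam]

/-- the upper bound for `pin` -/
private lemma pip_up (x q a : ℕ) (E L l : ℝ) (hx : 2 ≤ x) (hq : 1 ≤ q) (hL : L = Real.log x)
    (hl : l = Real.log L) (hl2 : 2 ≤ l) (h8 : 8 * l ≤ L) (hq2 : L ^ 2 ≤ (x : ℝ) / q) (hE : 0 ≤ E)
    (hpsi : psiA x q a ≤ (1 + E) * ((x : ℝ) / q.totient)) :
    (pin x q a : ℝ) * L ≤ (1 + 2 * E + 7 * (l / L)) * ((x : ℝ) / q.totient) := by
  have hx0 : (0 : ℝ) < x := by exact_mod_cast (show 0 < x by omega)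
  have hLpos : 0 < L := by linarith
  have hu1 : l / L ≤ 1 / 8 := by
    rw [div_le_iff₀ hLpos]
    linarith
  have hu0 : 0 < l / L := by positivity
  set u : ℝ := l / L with hu
  have hδ : 2 * u * L = 2 * l := by
    rw [hu]
    field_simp
  have hq0 : (0 : ℝ) < q := by exact_mod_cast (show 0 < q by omega)
  have hphi0 : (0 : ℝ) < q.totient := by
    exact_mod_cast Nat.totient_pos.2 (show 0 < q by omega)
  have hphi : (q.totient : ℝ) ≤ q := by exact_mod_cast Nat.totient_le q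
  have hF : (x : ℝ) / q ≤ (x : ℝ) / q.totient := div_le_div_of_nonneg_left hx0.le hphi0 hphi
  have hxd : (x : ℝ) ^ (1 - 2 * u) = x / L ^ 2 := by
    rw [Real.rpow_sub hx0, Real.rpow_one]
    congr 1
    rw [Real.rpow_def_of_pos hx0, ← hL, mul_comm L, hδ]
    have h1 : Real.exp (2 * l) = Real.exp l ^ 2 := by
      rw [← Real.exp_nat_mul]
      norm_num
    rw [h1, hl, Real.exp_log hLpos]
  have h1 := Pool.Agent.H87.WL.pin_le x q a (2 * u) hx hq (by positivity) (by linarith)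
  rw [← hL, hxd] at h1
  set F : ℝ := (x : ℝ) / q.totient with hFd
  have hF0 : 0 ≤ F := by positivity
  have h2 : (x / L ^ 2 / (q : ℝ) + 1) * L ≤ 2 * (1 / L * F) := by
    have e1 : (x / L ^ 2 / (q : ℝ) + 1) * L = 1 / L * ((x : ℝ) / q) + L := by
      field_simp
    have e2 : L ≤ 1 / L * ((x : ℝ) / q) := by
      rw [one_div, inv_mul_eq_div, le_div_iff₀ hLpos]
      nlinarith
    have e3 : 1 / L * ((x : ℝ) / q) ≤ 1 / L * F := mul_le_mul_of_nonneg_left hF (by positivity)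
    rw [e1]
    linarith
  have h3 : 1 / L ≤ u / 2 := by
    rw [hu, div_div, div_le_div_iff₀ hLpos (by positivity)]
    nlinarith
  have h4 : 1 / L * F ≤ u / 2 * F := mul_le_mul_of_nonneg_right h3 hF0
  have h5 : (1 - 2 * u) * ((pin x q a : ℝ) * L) ≤ (1 + E + u) * F := by nlinarith
  have h6 : (1 + E + u) * F ≤ (1 - 2 * u) * ((1 + 2 * E + 7 * u) * F) := by
    rw [← mul_assoc]
    refine mul_le_mul_of_nonneg_right ?_ hF0
    nlinarith [mul_nonneg hE (show 0 ≤ 1 - 4 * u by linarith),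
      mul_nonneg hu0.le (show 0 ≤ 4 - 14 * u by linarith)]
  exact le_of_mul_le_mul_left (h5.trans h6) (by linarith)

private lemma pip_ev : ∀ᶠ x : ℕ in Filter.atTop, 2 ≤ x ∧ 2 ≤ Real.log (Real.log (x : ℝ)) ∧
    8 * Real.log (Real.log (x : ℝ)) ≤ Real.log (x : ℝ) := by
  have hLt : Filter.Tendsto (fun x : ℕ => Real.log (x : ℝ)) Filter.atTop Filter.atTop :=
    Real.tendsto_log_atTop.comp tendsto_natCast_atTop_atTop
  have h1 : ∀ᶠ x : ℕ in Filter.atTop, 2 ≤ Real.log (Real.log (x : ℝ)) :=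
    (Real.tendsto_log_atTop.comp hLt).eventually_ge_atTop 2
  have h2 := (Real.isLittleO_log_id_atTop.comp_tendsto hLt).def (show (0 : ℝ) < 1 / 8 by norm_num)
  filter_upwards [Filter.eventually_ge_atTop 2, h1, h2] with x hx hx1 hx2
  refine ⟨hx, hx1, ?_⟩
  simp only [Function.comp, id] at hx2
  have hx' : (1 : ℝ) ≤ x := by exact_mod_cast (show 1 ≤ x by omega)
  rw [Real.norm_of_nonneg (by linarith), Real.norm_of_nonneg (Real.log_nonneg hx')] at hx2
  linarith

private lemma pip_pow (θ : ℝ) (hθ : θ < 1) : ∀ᶠ x : ℕ in Filter.atTop,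
    Real.log (x : ℝ) ^ 2 ≤ (x : ℝ) ^ (1 - θ) / 2 := by
  have h1 := isLittleO_log_rpow_rpow_atTop (2 : ℝ) (show 0 < 1 - θ by linarith)
  have h2 := (h1.comp_tendsto (tendsto_natCast_atTop_atTop (R := ℝ))).def
    (show (0 : ℝ) < 1 / 2 by norm_num)
  filter_upwards [h2, Filter.eventually_ge_atTop 1] with x hx hx1
  have hx1' : (1 : ℝ) ≤ x := by exact_mod_cast hx1
  have hL : 0 ≤ Real.log (x : ℝ) := Real.log_nonneg hx1'
  simp only [Function.comp] at hx
  rw [show (2 : ℝ) = ((2 : ℕ) : ℝ) by norm_num, Real.rpow_natCast] at hx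
  rw [Real.norm_of_nonneg (pow_nonneg hL _),
    Real.norm_of_nonneg (Real.rpow_nonneg (by linarith) _)] at hx
  push_cast at hx
  linarith

/-- `π(x) log x = x (1 + O(loglog x/log x))` -/
private lemma pip_pi (hpnt : PntProp) : ∀ᶠ x : ℕ in Filter.atTop,
    (1 - Real.log (Real.log (x : ℝ)) / Real.log (x : ℝ)) * x ≤
        (Nat.primeCounting x : ℝ) * Real.log x ∧
      (Nat.primeCounting x : ℝ) * Real.log x ≤
        (1 + 8 * (Real.log (Real.log (x : ℝ)) / Real.log (x : ℝ))) * x := by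
  obtain ⟨N, hN⟩ := hpnt 1
  filter_upwards [pip_ev, pip_pow 0 (by norm_num), Filter.eventually_ge_atTop N] with x hx hx2 hx3
  obtain ⟨hx, hl2, h8⟩ := hx
  have h := hN x hx3 x le_rfl
  rw [pow_one] at h
  set L : ℝ := Real.log (x : ℝ) with hL
  set l : ℝ := Real.log L with hl
  have hx0 : (0 : ℝ) < x := by exact_mod_cast (show 0 < x by omega)
  have hLpos : 0 < L := by linarith
  have hu3 : 1 / L ≤ l / L / 2 := by
    rw [div_div, div_le_div_iff₀ hLpos (by positivity)]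
    nlinarith
  have hu0 : 0 < l / L := by positivity
  have hxL : (x : ℝ) / L = 1 / L * x := by ring
  rw [hxL, abs_le] at h
  have hxL2 : 1 / L * x ≤ l / L / 2 * x := mul_le_mul_of_nonneg_right hu3 hx0.le
  have hux : 0 ≤ l / L * x := by positivity
  constructor
  · have h1 := pip_psi_le_pi x
    rw [← hL] at h1
    linarith
  · have h2 := pip_up x 1 0 (1 / L) L l hx le_rfl hL hl hl2 h8 (by
      rw [sub_zero, Real.rpow_one] at hx2
      push_cast
      linarith) (by positivity) (by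
      rw [pip_psi_one, Nat.totient_one]
      push_cast
      linarith)
    rw [pip_pin_one, Nat.totient_one] at h2
    push_cast at h2
    linarith

theorem pi_low (hpnt : PntProp) : ∃ x0 : ℕ, ∀ x : ℕ, x0 ≤ x →
    (x : ℝ) / (2 * Real.log x) ≤ Nat.primeCounting x ∧
      (Nat.primeCounting x : ℝ) ≤ 2 * x / Real.log x := by
  have hev := pip_ev.and (pip_pi hpnt)
  obtain ⟨x0, hx0⟩ := Filter.eventually_atTop.1 hev
  refine ⟨x0, fun x hx => ?_⟩
  obtain ⟨⟨hx2, hl2, h8⟩, h1, h2⟩ := hx0 x hx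
  set L : ℝ := Real.log (x : ℝ) with hL
  set l : ℝ := Real.log L with hl
  have hx0 : (0 : ℝ) < x := by exact_mod_cast (show 0 < x by omega)
  have hLpos : 0 < L := by linarith
  have hu1 : l / L ≤ 1 / 8 := by
    rw [div_le_iff₀ hLpos]
    linarith
  have hux : l / L * x ≤ 1 / 8 * x := mul_le_mul_of_nonneg_right hu1 hx0.le
  constructor
  · rw [div_le_iff₀ (by positivity)]
    linarith
  · rw [le_div_iff₀ hLpos]
    linarith

theorem pi_pt (hpnt : PntProp) (θ : ℝ) (hθ : θ < 1) : ∃ C : ℝ, 0 < C ∧ ∃ x0 : ℕ, ∀ x : ℕ,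
    x0 ≤ x → ∀ a q : ℕ, 1 ≤ q → (q : ℝ) ≤ 2 * (x : ℝ) ^ θ → ∀ E : ℝ, 0 ≤ E →
      |psiA x q a - (x : ℝ) / q.totient| ≤ E * ((x : ℝ) / q.totient) →
      |err x q (a : ZMod q)| ≤
        C * (E + Real.log (Real.log x) / Real.log x) *
          ((Nat.primeCounting x : ℝ) / q.totient) + 2 * pps x q a / Real.log x := by
  have hev := (pip_ev.and (pip_pi hpnt)).and ((pip_pow ((θ + 1) / 2) (by linarith)).and
    (((tendsto_rpow_atTop (show 0 < (1 - θ) / 2 by linarith)).comp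
      (tendsto_natCast_atTop_atTop (R := ℝ))).eventually_ge_atTop 2))
  obtain ⟨x0, hx0⟩ := Filter.eventually_atTop.1 hev
  refine ⟨16, by norm_num, x0, fun x hx a q hq hqx E hE hpsi => ?_⟩
  obtain ⟨⟨⟨hx2, hl2, h8⟩, h1, h2⟩, h3, h4⟩ := hx0 x hx
  simp only [Function.comp] at h4
  set L : ℝ := Real.log (x : ℝ) with hL
  set l : ℝ := Real.log L with hl
  have hx0 : (0 : ℝ) < x := by exact_mod_cast (show 0 < x by omega)
  have hLpos : 0 < L := by linarith
  have hq0 : (0 : ℝ) < q := by exact_mod_cast (show 0 < q by omega)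
  have hphi0 : (0 : ℝ) < q.totient := by
    exact_mod_cast Nat.totient_pos.2 (show 0 < q by omega)
  have hq2 : L ^ 2 ≤ (x : ℝ) / q := by
    rw [le_div_iff₀ hq0]
    have e1 : (x : ℝ) ^ (1 - (θ + 1) / 2) * 2 * (x : ℝ) ^ θ ≤ x := by
      have e2 : (x : ℝ) ^ (1 - (θ + 1) / 2) * (x : ℝ) ^ ((1 - θ) / 2) * (x : ℝ) ^ θ = x := by
        rw [← Real.rpow_add hx0, ← Real.rpow_add hx0]
        have : 1 - (θ + 1) / 2 + (1 - θ) / 2 + θ = 1 := by ring
        rw [this, Real.rpow_one]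
      calc (x : ℝ) ^ (1 - (θ + 1) / 2) * 2 * (x : ℝ) ^ θ ≤
          (x : ℝ) ^ (1 - (θ + 1) / 2) * (x : ℝ) ^ ((1 - θ) / 2) * (x : ℝ) ^ θ := by
            gcongr
        _ = x := e2
    have e3 : 0 ≤ (x : ℝ) ^ (1 - (θ + 1) / 2) := by positivity
    have e4 : 0 ≤ (x : ℝ) ^ θ := by positivity
    calc L ^ 2 * q ≤ ((x : ℝ) ^ (1 - (θ + 1) / 2) / 2) * (2 * (x : ℝ) ^ θ) :=
          mul_le_mul h3 hqx hq0.le (by positivity)
      _ = ((x : ℝ) ^ (1 - (θ + 1) / 2) * (x : ℝ) ^ θ) := by ring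
      _ ≤ (x : ℝ) ^ (1 - (θ + 1) / 2) * 2 * (x : ℝ) ^ θ := by nlinarith [mul_nonneg e3 e4]
      _ ≤ x := e1
  rw [abs_le] at hpsi
  have hup := pip_up x q a E L l hx2 hq hL hl hl2 h8 hq2 hE (by linarith)
  have hlo := Pool.Agent.H87.WL.psi_le x q a hq
  rw [← hL] at hlo
  have hpp := Pool.Agent.H87.WL.pps_nonneg x q a
  have hpin := Pool.Agent.H87.WL.pin_eq x q a
  set F : ℝ := (x : ℝ) / q.totient with hF
  have hF0 : 0 ≤ F := by positivity
  have hu1 : l / L ≤ 1 / 8 := by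
    rw [div_le_iff₀ hLpos]
    linarith
  have hu0 : 0 < l / L := by positivity
  set u : ℝ := l / L with hu
  set e : ℝ := err x q (a : ZMod q) with he
  set G : ℝ := (Nat.primeCounting x : ℝ) / q.totient with hG
  have hG0 : 0 ≤ G := by positivity
  have hGL : G * L = (Nat.primeCounting x : ℝ) * L / q.totient := by
    rw [hG]
    ring
  have hG1 : (1 - u) * F ≤ G * L := by
    rw [hGL, hF, ← mul_div_assoc]
    exact div_le_div_of_nonneg_right h1 hphi0.le
  have hG2 : G * L ≤ (1 + 8 * u) * F := by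
    rw [hGL, hF, ← mul_div_assoc]
    exact div_le_div_of_nonneg_right h2 hphi0.le
  have hFG : F ≤ 2 * (G * L) := by nlinarith
  rw [hpin] at hup hlo
  have hEu : 0 ≤ (E + u) := by linarith
  have hEF : 0 ≤ E * F := mul_nonneg hE hF0
  have huF : 0 ≤ u * F := mul_nonneg hu0.le hF0
  have hmain : |e| * L ≤ 8 * (E + u) * F + pps x q a := by
    have : |e| * L = |e * L| := by rw [abs_mul, abs_of_pos hLpos]
    rw [this, abs_le]
    constructor <;> nlinarith
  have hmain2 : |e| * L ≤ (16 * (E + u) * G + 2 * pps x q a / L) * L := by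
    have e1 : (16 * (E + u) * G + 2 * pps x q a / L) * L =
        8 * (E + u) * (2 * (G * L)) + 2 * pps x q a := by
      field_simp
      ring
    rw [e1]
    have e2 : 8 * (E + u) * F ≤ 8 * (E + u) * (2 * (G * L)) :=
      mul_le_mul_of_nonneg_left hFG (by positivity)
    linarith
  exact le_of_mul_le_mul_right hmain2 hLpos

end Pool.Agent.H35.U
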