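import Pool.Agent.H35.U.Blk
import Pool.Agent.H35.U.PiP
import Pool.Agent.H91.EHA.Lam2

/-!
# U Mid: the number of bad moduli in the middle range, on average over a block

`L = log x`.  `blk θ (c+3) B` with `B = 2c + 30`: `b`, `Cb`; `pi_pt`: `Cp` (WLOG `≥ 1`).  `C = Cp (Cb + 1) + 1`.
For `q` bad: with `E = Cb rho + X φ(q)/x + φ(q) |gR/q - 1/φ(q)|`,
`|psiA - x/φ(q)| ≤ |psiA - (x/q) gR| + x |gR/q - 1/φ(q)| ≤ E x/φ(q)`, so `pi_pt` and `l/L ≤ rho` give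
`C rho π/φ(q) < |err| ≤ Cp (Cb+1) rho π/φ(q) + Cp π (X/x + |gR/q - 1/φ(q)|) + 2 pps/L`, hence
`rho π/φ(q) ≤ Cp π (X/x + |..|) + 2 pps/L`; `rho ≥ 1/L`, `π ≥ x/(2L)`, `φ(q) ≤ q ≤ 2Q`, `π ≤ 2x/L`:
`x/(4 L² Q) ≤ (2 Cp/L)(X + x |..|) + 2 pps/L`, i.e. `1 ≤ (8 L Q/x)(Cp X + Cp x |..| + pps)`.
Sum over bad `q` and over `a`: `(8 L Q/x)(Cp H x/L^(c+3) + Cp x H · C (1+log Q)²/R + pps_avg)`, `lamR_avg`,
`R = ⌊L^B⌋₊ ≥ L^B/2`, `pps_avg ≤ H x^(4/5) + H Q L`, `Q ≤ x^θ`.  (`pps_avg` needs `a0 + H ≤ x`.)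
-/

set_option autoImplicit false

namespace Pool.Agent.H35.U

open Finset
open Pool.Agent.H91.EHA (Lam psiA err)
open Pool.Agent.H87.WL (PntProp pin pps bad gR)

open Filter Topology in
private lemma mid_lim (k : ℕ) (s : ℝ) (hs : 0 < s) :
    Tendsto (fun x : ℝ => Real.log x ^ k * x ^ (-s)) atTop (𝓝 0) := by
  have h := (isLittleO_log_rpow_rpow_atTop (k : ℝ) hs).tendsto_div_nhds_zero
  refine h.congr' ?_
  filter_upwards [eventually_gt_atTop 0] with x hx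
  rw [Real.rpow_natCast, Real.rpow_neg hx.le, div_eq_mul_inv]

open Filter Topology in
/-- the conditions for large `x` -/
private lemma mid_large (θ K₁ K₂ : ℝ) (hθ : θ < 1) (c : ℕ) :
    ∃ x0 : ℕ, ∀ x : ℕ, x0 ≤ x → 3 ≤ x ∧ 1 ≤ Real.log (Real.log x) ∧
      2 * (x : ℝ) ^ θ ≤ x ∧
      K₁ / Real.log x ^ 2 + K₂ * (Real.log x ^ (c + 1) * (x : ℝ) ^ (-(1 / 5) : ℝ) +
        Real.log x ^ (c + 2) * (x : ℝ) ^ (-(1 - θ))) ≤ 1 := by
  have hlog := Real.tendsto_log_atTop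
  have e1 : ∀ᶠ x : ℝ in atTop, 3 ≤ x := eventually_ge_atTop 3
  have e2 : ∀ᶠ x : ℝ in atTop, 1 ≤ Real.log (Real.log x) :=
    (hlog.comp hlog).eventually_ge_atTop 1
  have e4 : ∀ᶠ x : ℝ in atTop, 2 ≤ x ^ (1 - θ) :=
    (tendsto_rpow_atTop (by linarith : 0 < 1 - θ)).eventually_ge_atTop 2
  have t5 : Tendsto (fun x : ℝ => K₁ / Real.log x ^ 2 + K₂ * (Real.log x ^ (c + 1) *
      x ^ (-(1 / 5) : ℝ) + Real.log x ^ (c + 2) * x ^ (-(1 - θ)))) atTop (𝓝 0) := by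
    have h1 : Tendsto (fun x : ℝ => K₁ / Real.log x ^ 2) atTop (𝓝 0) :=
      Tendsto.div_atTop tendsto_const_nhds ((tendsto_pow_atTop (by norm_num)).comp hlog)
    have h2 := (mid_lim (c + 1) (1 / 5) (by norm_num)).add (mid_lim (c + 2) (1 - θ) (by linarith))
    have h3 := h1.add (h2.const_mul K₂)
    simpa using h3
  have e5 := t5.eventually_le_const (show (0 : ℝ) < 1 by norm_num)
  have h := (e1.and (e2.and (e4.and e5)))
  have h' := tendsto_natCast_atTop_atTop.eventually (f := (Nat.cast : ℕ → ℝ)) h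
  rw [eventually_atTop] at h'
  obtain ⟨x0, hx0⟩ := h'
  refine ⟨x0, fun x hx => ?_⟩
  obtain ⟨g1, g2, g4, g5⟩ := hx0 x hx
  have hxpos : (0 : ℝ) < x := by linarith
  refine ⟨by exact_mod_cast g1, g2, ?_, g5⟩
  calc 2 * (x : ℝ) ^ θ ≤ (x : ℝ) ^ (1 - θ) * (x : ℝ) ^ θ := by
        have := Real.rpow_nonneg hxpos.le θ
        gcongr
    _ = (x : ℝ) ^ (1 : ℝ) := by
        rw [← Real.rpow_add hxpos]
        congr 1
        ring
    _ = x := Real.rpow_one _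

theorem mid (hpnt : PntProp) (θ : ℝ) (hθ : θ < 1) (c : ℕ) : ∃ (b : ℕ) (C : ℝ), 0 < C ∧
    ∃ x0 : ℕ, ∀ x : ℕ, x0 ≤ x → ∀ a0 Q H : ℕ, Real.log x ^ b ≤ H → (H : ℝ) ^ 2 ≤ x → H ≤ Q →
      (a0 : ℝ) ≤ (x : ℝ) ^ θ → (Q : ℝ) ≤ (x : ℝ) ^ θ →
      ∑ a ∈ Ioc a0 (a0 + H), ((bad x a Q (C * rho x H)).card : ℝ) ≤ H * Q / Real.log x ^ c := by
  obtain ⟨b, Cb, hCb, x1, hblk⟩ := blk θ hθ (c + 3) (2 * c + 30) (by omega)
  obtain ⟨Cp0, hCp0, x2, hpt0⟩ := pi_pt hpnt θ hθ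
  obtain ⟨x3, hlow⟩ := pi_low hpnt
  obtain ⟨Cl, hCl, hlam⟩ := Pool.Agent.H91.EHA.lamR_avg
  obtain ⟨x4, hpps⟩ := Pool.Agent.H87.WL.pps_avg
  obtain ⟨Cp, hCp1, hCpp⟩ : ∃ Cp : ℝ, 1 ≤ Cp ∧ Cp0 ≤ Cp := ⟨max Cp0 1, le_max_right _ _, le_max_left _ _⟩
  have hCp : 0 < Cp := by linarith
  obtain ⟨x5, hx5⟩ := mid_large θ (8 * Cp + 64 * Cp * Cl) 8 hθ c
  refine ⟨b, Cp * (Cb + 1) + 1, by positivity, max (max x1 x2) (max (max x3 x4) x5),
    fun x hx a0 Q H hH hH2 hHQ ha0 hQ => ?_⟩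
  have hxx1 : x1 ≤ x := le_trans (le_trans (le_max_left _ _) (le_max_left _ _)) hx
  have hxx2 : x2 ≤ x := le_trans (le_trans (le_max_right _ _) (le_max_left _ _)) hx
  have hxx3 : x3 ≤ x :=
    le_trans (le_trans (le_trans (le_max_left _ _) (le_max_left _ _)) (le_max_right _ _)) hx
  have hxx4 : x4 ≤ x :=
    le_trans (le_trans (le_trans (le_max_right _ _) (le_max_left _ _)) (le_max_right _ _)) hx
  have hxx5 : x5 ≤ x := le_trans (le_trans (le_max_right _ _) (le_max_right _ _)) hx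
  obtain ⟨hx3', hl1, h2θ, hfin⟩ := hx5 x hxx5
  have hxR : (3 : ℝ) ≤ x := by exact_mod_cast hx3'
  have hxpos : (0 : ℝ) < x := by linarith
  have hx1' : (1 : ℝ) ≤ x := by linarith
  obtain ⟨hπ1, hπ2⟩ := hlow x hxx3
  set L := Real.log x with hL
  set l := Real.log L with hl
  have hL1 : 1 ≤ L := by
    by_contra hcon
    push Not at hcon
    have hL0 : 0 ≤ L := Real.log_nonneg hx1'
    have : l ≤ 0 := Real.log_nonpos hL0 hcon.le
    linarith
  have hL0 : 0 < L := by linarith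
  have hxθ0 : (0 : ℝ) ≤ (x : ℝ) ^ θ := Real.rpow_nonneg hxpos.le θ
  have hH1 : (1 : ℝ) ≤ H := (one_le_pow₀ hL1).trans hH
  have hHQ' : (H : ℝ) ≤ Q := by exact_mod_cast hHQ
  have hQ1' : (1 : ℝ) ≤ Q := hH1.trans hHQ'
  have hQ1 : 1 ≤ Q := by exact_mod_cast hQ1'
  have hQ0 : (0 : ℝ) < Q := by linarith
  have hQx' : (Q : ℝ) ≤ x := by linarith
  have hQx : Q ≤ x := by exact_mod_cast hQx'
  have haHx : a0 + H ≤ x := by
    have : ((a0 + H : ℕ) : ℝ) ≤ x := by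
      push_cast
      linarith
    exact_mod_cast this
  have hH0 : (0 : ℝ) ≤ H := Nat.cast_nonneg H
  -- rho
  set ρ := rho x H with hρ
  have hlogH : 0 ≤ Real.log H := Real.log_nonneg hH1
  have hρl : l / L ≤ ρ := by
    have e : ρ = l / Real.log H + l ^ 2 / L := rfl
    rw [e]
    have h1 : 0 ≤ l / Real.log H := div_nonneg (by linarith) hlogH
    have h2 : l / L ≤ l ^ 2 / L := div_le_div_of_nonneg_right (by nlinarith) hL0.le
    linarith
  have hρ1 : 1 / L ≤ ρ := (div_le_div_of_nonneg_right hl1 hL0.le).trans hρl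
  have hρ0 : 0 < ρ := lt_of_lt_of_le (by positivity) hρ1
  obtain ⟨X, hX0, hXs, hX⟩ := hblk x hxx1 a0 Q H hH hH2 hHQ ha0 hQ
  set R := ⌊L ^ (2 * c + 30)⌋₊ with hR
  have hR1 : 1 ≤ R := by
    rw [hR, Nat.one_le_floor_iff]
    exact one_le_pow₀ hL1
  have hRL : L ^ (2 * c + 30) ≤ 2 * (R : ℝ) := by
    have h1 : L ^ (2 * c + 30) < (R : ℝ) + 1 := Nat.lt_floor_add_one _
    have h3' : (1 : ℝ) ≤ (R : ℝ) := by exact_mod_cast hR1
    linarith
  have s2 := hlam R Q hR1 hQ1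
  have s3 := hpps x hxx4 a0 Q H haHx hQ1 hQx
  set V : ℕ → ℝ := fun q => |1 / (q : ℝ) * gR R q - 1 / (q.totient : ℝ)| with hVdef
  have s2' : ∑ q ∈ Ioc Q (2 * Q), V q ≤ Cl * (1 + Real.log Q) ^ 2 / (R : ℝ) := s2
  have key : ∀ a ∈ Ioc a0 (a0 + H), ∀ q ∈ bad x a Q ((Cp * (Cb + 1) + 1) * ρ),
      (1 : ℝ) ≤ 8 * L * Q / x * (Cp * X a q) + 8 * L * Q * (Cp * V q) +
        8 * L * Q / x * pps x q a := by
    intro a ha q hq
    rw [bad, mem_filter, mem_Ioc] at hq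
    obtain ⟨⟨hq1, hq2⟩, hcop, hbad⟩ := hq
    have hq2' : (q : ℝ) ≤ 2 * Q := by exact_mod_cast hq2
    have hqpos : 1 ≤ q := by omega
    have hq0 : (0 : ℝ) < q := by exact_mod_cast hqpos
    have hφ : (0 : ℝ) < q.totient := by exact_mod_cast Nat.totient_pos.2 hqpos
    have hφq : (q.totient : ℝ) ≤ 2 * Q := by
      have : (q.totient : ℝ) ≤ q := by exact_mod_cast Nat.totient_le q
      linarith
    have hXa := hX0 a q
    have hV0 : 0 ≤ V q := abs_nonneg _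
    have hP0 : 0 ≤ pps x q a := Pool.Agent.H87.WL.pps_nonneg x q a
    have h1 := hX a ha q (mem_Ioc.2 ⟨hq1, hq2⟩) hcop
    have hxV : |(x : ℝ) / q * gR R q - (x : ℝ) / q.totient| = x * V q := by
      rw [hVdef]
      simp only
      rw [← abs_of_pos hxpos, ← abs_mul]
      congr 1
      rw [abs_of_pos hxpos]
      ring
    set E : ℝ := Cb * ρ + (X a q + x * V q) * ((q.totient : ℝ) / x) with hE
    have hE0 : 0 ≤ E := by positivity
    have h2 : |psiA x q a - (x : ℝ) / q.totient| ≤ E * ((x : ℝ) / q.totient) := by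
      have h3 : |psiA x q a - (x : ℝ) / q.totient| ≤
          |psiA x q a - (x : ℝ) / q * gR R q| + |(x : ℝ) / q * gR R q - (x : ℝ) / q.totient| := by
        have := abs_add_le (psiA x q a - (x : ℝ) / q * gR R q)
          ((x : ℝ) / q * gR R q - (x : ℝ) / q.totient)
        rwa [sub_add_sub_cancel] at this
      rw [hxV] at h3
      have h4 : E * ((x : ℝ) / q.totient) = Cb * ρ * ((x : ℝ) / q.totient) + X a q + x * V q := by
        rw [hE]
        field_simp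
        ring
      rw [h4]
      linarith
    have h5 := hpt0 x hxx2 a q hqpos (by linarith) E hE0 h2
    have hπφ : (0 : ℝ) ≤ (Nat.primeCounting x : ℝ) / q.totient := by positivity
    have h6 : |err x q (a : ZMod q)| ≤ Cp * (E + l / L) *
        ((Nat.primeCounting x : ℝ) / q.totient) + 2 * pps x q a / L := by
      refine h5.trans ?_
      have hEl : 0 ≤ E + l / L := by positivity
      have h7 : Cp0 * (E + l / L) * ((Nat.primeCounting x : ℝ) / q.totient) ≤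
          Cp * (E + l / L) * ((Nat.primeCounting x : ℝ) / q.totient) :=
        mul_le_mul_of_nonneg_right (mul_le_mul_of_nonneg_right hCpp hEl) hπφ
      linarith
    have h8 : Cp * (E + l / L) * ((Nat.primeCounting x : ℝ) / q.totient) ≤
        Cp * (Cb + 1) * ρ * ((Nat.primeCounting x : ℝ) / q.totient) +
          Cp * (X a q + x * V q) * ((Nat.primeCounting x : ℝ) / x) := by
      have e1 : Cp * (Cb + 1) * ρ * ((Nat.primeCounting x : ℝ) / q.totient) +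
          Cp * (X a q + x * V q) * ((Nat.primeCounting x : ℝ) / x) =
          Cp * (E + ρ) * ((Nat.primeCounting x : ℝ) / q.totient) := by
        rw [hE]
        field_simp
        ring
      rw [e1]
      exact mul_le_mul_of_nonneg_right (mul_le_mul_of_nonneg_left (by linarith) hCp.le) hπφ
    have h9 : ρ * ((Nat.primeCounting x : ℝ) / q.totient) ≤
        Cp * (X a q + x * V q) * ((Nat.primeCounting x : ℝ) / x) + 2 * pps x q a / L := by
      have h10 : ((Cp * (Cb + 1) + 1) * ρ) * ((Nat.primeCounting x : ℝ) / q.totient) =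
          Cp * (Cb + 1) * ρ * ((Nat.primeCounting x : ℝ) / q.totient) +
          ρ * ((Nat.primeCounting x : ℝ) / q.totient) := by ring
      rw [h10] at hbad
      linarith
    have h11 : (x : ℝ) / (4 * L ^ 2 * Q) ≤ ρ * ((Nat.primeCounting x : ℝ) / q.totient) := by
      have h12 : (x : ℝ) / (2 * L) / (2 * Q) ≤ (Nat.primeCounting x : ℝ) / q.totient :=
        div_le_div₀ (by positivity) hπ1 hφ hφq
      calc (x : ℝ) / (4 * L ^ 2 * Q) = 1 / L * ((x : ℝ) / (2 * L) / (2 * Q)) := by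
            field_simp
            norm_num
        _ ≤ ρ * ((Nat.primeCounting x : ℝ) / q.totient) :=
            mul_le_mul hρ1 h12 (by positivity) hρ0.le
    have h13 : Cp * (X a q + x * V q) * ((Nat.primeCounting x : ℝ) / x) ≤
        Cp * (X a q + x * V q) * (2 / L) := by
      refine mul_le_mul_of_nonneg_left ?_ (by positivity)
      rw [div_le_iff₀ hxpos]
      calc (Nat.primeCounting x : ℝ) ≤ 2 * x / L := hπ2
        _ = 2 / L * x := by ring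
    have h14 : (x : ℝ) / (4 * L ^ 2 * Q) ≤ Cp * (X a q + x * V q) * (2 / L) + 2 * pps x q a / L := by
      linarith
    have h15 : (1 : ℝ) = 4 * L ^ 2 * Q / x * ((x : ℝ) / (4 * L ^ 2 * Q)) := by
      field_simp
    rw [h15]
    calc 4 * L ^ 2 * Q / x * ((x : ℝ) / (4 * L ^ 2 * Q)) ≤
        4 * L ^ 2 * Q / x * (Cp * (X a q + x * V q) * (2 / L) + 2 * pps x q a / L) :=
          mul_le_mul_of_nonneg_left h14 (by positivity)
      _ = _ := by
          field_simp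
          ring
  have hcard : ∑ a ∈ Ioc a0 (a0 + H), ((bad x a Q ((Cp * (Cb + 1) + 1) * ρ)).card : ℝ) ≤
      ∑ a ∈ Ioc a0 (a0 + H), ∑ q ∈ Ioc Q (2 * Q),
        (8 * L * Q / x * (Cp * X a q) + 8 * L * Q * (Cp * V q) +
        8 * L * Q / x * pps x q a) := by
    refine sum_le_sum fun a ha => ?_
    rw [card_eq_sum_ones]
    push_cast
    calc ∑ q ∈ bad x a Q ((Cp * (Cb + 1) + 1) * ρ), (1 : ℝ) ≤
          ∑ q ∈ bad x a Q ((Cp * (Cb + 1) + 1) * ρ),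
          (8 * L * Q / x * (Cp * X a q) + 8 * L * Q * (Cp * V q) +
          8 * L * Q / x * pps x q a) :=
          sum_le_sum (key a ha)
      _ ≤ _ := by
          refine sum_le_sum_of_subset_of_nonneg (filter_subset _ _) fun q _ _ => ?_
          have hXa := hX0 a q
          have hV0 : 0 ≤ V q := abs_nonneg _
          have hP0 : 0 ≤ pps x q a := Pool.Agent.H87.WL.pps_nonneg x q a
          positivity
  have hsplit : ∑ a ∈ Ioc a0 (a0 + H), ∑ q ∈ Ioc Q (2 * Q),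
        (8 * L * Q / x * (Cp * X a q) + 8 * L * Q * (Cp * V q) +
        8 * L * Q / x * pps x q a) =
      8 * L * Q / x * (Cp * (∑ a ∈ Ioc a0 (a0 + H), ∑ q ∈ Ioc Q (2 * Q), X a q)) +
      8 * L * Q * (H * (Cp * ∑ q ∈ Ioc Q (2 * Q), V q)) +
      8 * L * Q / x * (∑ a ∈ Ioc a0 (a0 + H), ∑ q ∈ Ioc Q (2 * Q), pps x q a) := by
    simp only [sum_add_distrib, ← mul_sum, sum_const, Nat.card_Ioc, nsmul_eq_mul,
      Nat.add_sub_cancel_left]
    ring
  refine (hcard.trans_eq hsplit).trans ?_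
  -- the final estimate
  have hlogQ : Real.log Q ≤ L := Real.log_le_log hQ0 hQx'
  have hlogQ0 : 0 ≤ Real.log Q := Real.log_nonneg hQ1'
  have b2 : ∑ q ∈ Ioc Q (2 * Q), V q ≤ 8 * Cl / L ^ (c + 3) := by
    refine s2'.trans ?_
    have hR0 : (0 : ℝ) < R := by exact_mod_cast hR1
    rw [div_le_div_iff₀ hR0 (by positivity)]
    have h1 : (1 + Real.log Q) ^ 2 ≤ (2 * L) ^ 2 := by
      gcongr
      linarith
    have h2 : L ^ (c + 3) * L ^ 2 ≤ L ^ (2 * c + 30) := by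
      rw [← pow_add]
      exact pow_le_pow_right₀ hL1 (by omega)
    calc Cl * (1 + Real.log Q) ^ 2 * L ^ (c + 3) ≤ Cl * (2 * L) ^ 2 * L ^ (c + 3) := by gcongr
      _ = 4 * Cl * (L ^ (c + 3) * L ^ 2) := by ring
      _ ≤ 4 * Cl * L ^ (2 * c + 30) := by gcongr
      _ ≤ 4 * Cl * (2 * R) := by gcongr
      _ = 8 * Cl * R := by ring
  have x15 : (x : ℝ) ^ ((4 : ℝ) / 5) = x * (x : ℝ) ^ (-(1 / 5) : ℝ) := by
    rw [← Real.rpow_one_add' hxpos.le (by norm_num)]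
    norm_num
  have xθ : (x : ℝ) ^ θ ≤ x * (x : ℝ) ^ (-(1 - θ)) := by
    refine le_of_eq ?_
    nth_rewrite 2 [← Real.rpow_one (x : ℝ)]
    rw [← Real.rpow_add hxpos]
    congr 1
    ring
  have hx1θ : 0 ≤ (x : ℝ) ^ (-(1 - θ)) := Real.rpow_nonneg hxpos.le _
  have hx15 : 0 ≤ (x : ℝ) ^ (-(1 / 5) : ℝ) := Real.rpow_nonneg hxpos.le _
  calc 8 * L * Q / x * (Cp * (∑ a ∈ Ioc a0 (a0 + H), ∑ q ∈ Ioc Q (2 * Q), X a q)) +
      8 * L * Q * (H * (Cp * ∑ q ∈ Ioc Q (2 * Q), V q)) +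
      8 * L * Q / x * (∑ a ∈ Ioc a0 (a0 + H), ∑ q ∈ Ioc Q (2 * Q), pps x q a)
      ≤ 8 * L * Q / x * (Cp * (H * x / L ^ (c + 3))) +
      8 * L * Q * (H * (Cp * (8 * Cl / L ^ (c + 3)))) +
      8 * L * Q / x * (H * (x * (x : ℝ) ^ (-(1 / 5) : ℝ)) +
        H * (x * (x : ℝ) ^ (-(1 - θ))) * L) := by
        have h3 : ∑ a ∈ Ioc a0 (a0 + H), ∑ q ∈ Ioc Q (2 * Q), pps x q a ≤
            H * (x * (x : ℝ) ^ (-(1 / 5) : ℝ)) + H * (x * (x : ℝ) ^ (-(1 - θ))) * L := by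
          refine s3.trans ?_
          rw [← x15]
          gcongr
          exact hQ.trans xθ
        gcongr
    _ = H * Q / L ^ c * ((8 * Cp + 64 * Cp * Cl) / L ^ 2 + 8 *
        (L ^ (c + 1) * (x : ℝ) ^ (-(1 / 5) : ℝ) + L ^ (c + 2) * (x : ℝ) ^ (-(1 - θ)))) := by
        rw [show L ^ (c + 3) = L ^ c * L ^ 3 by rw [pow_add],
          show L ^ (c + 1) = L ^ c * L by rw [pow_succ],
          show L ^ (c + 2) = L ^ c * L ^ 2 by rw [pow_add]]
        field_simp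
        ring
    _ ≤ H * Q / L ^ c * 1 := by
        gcongr
    _ = H * Q / L ^ c := by rw [mul_one]

end Pool.Agent.H35.U
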