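import Pool.Agent.H35.U.RGen
import Pool.Agent.H87.WL.MuL

/-!
# U PtB: the pointwise decomposition

`S = PP P P'`, `P' = P 2^J`; `f = fb + g = hR` on `(M, x]`, `0` elsewhere; `hR = Lam - lamR`.
1. `psiA x q a = ∑_{n ≤ M} Lam + ∑_{(M,x]} lamR + ∑_{(M,x]} fb + ∑_{(M,x]} g` (all over `n ≡ a mod q`).
2. `∑_{n ≤ M, n ≡ a} Lam n ≤ (M/q + 1) log x` (`Lam n ≤ log x`, count of a residue class).
3. `lamR_ap` for `x` and `M`: `∑_{(M,x]} lamR = ((x-M)/q) gR R q + O(2R³)`.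
4. `|∑_{(M,x]} fb| ≤ x/q δb`: `hfb` for `T = ∅`.
5. `∑_{(M,x], n ≡ a} g = ∑_{k ≤ K} g(a+kq)` (`TB_ksum`) `= ∑_{fcs} + ∑_{rgh}` (`fcs`, `rgh` partition
   `Icc 1 K`).
6. On `rgh P J K = rS S K` (`rgh_eq`): `g = 1_{(M,x]} Lam - vR R M x - fb`.
   * `∑_{rgh} 1_{(M,x]}(a+kq) Lam (a+kq) ≤ ∑_{k ∈ rS (PPc P P' (a q)) ((x-a)/q)} Lam (a+qk)` (`PPc ⊆ PP`, and
     `a + kq ≤ x` gives `k ≤ (x-a)/q`; `Lam ≥ 0`);
   * `lamR_rgh` with `N = x`;
   * `r_gen` with `v = fb` (`fb n = 0` outside `(M,x]` by `hf`, `hg`), `hfb` and `sb_inv`.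
-/

set_option autoImplicit false

namespace Pool.Agent.H35.U

open Finset
open Pool.Agent.H91.EHA (Lam lamR hR psiA)
open Pool.Agent.H87.WL (PP PPc Mu Om gR)
open Pool.Agent.H35.W (Rk rgh fcs)

private theorem PtB_count (y m b : ℕ) (hm : 0 < m) :
    (((Icc 1 y).filter (fun n => n ≡ b [MOD m])).card : ℝ) ≤ (y : ℝ) / m + 1 := by
  have h0 : Icc 1 y = Ioc 0 y := by
    ext n
    simp only [mem_Icc, mem_Ioc]
    omega
  have h1 := Nat.Ioc_filter_modEq_card 0 y hm b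
  rw [h0]
  have hmq : (0 : ℚ) < (m : ℚ) := by exact_mod_cast hm
  set A : ℚ := ((y : ℚ) - b) / m with hA
  set B : ℚ := (((0 : ℕ) : ℚ) - b) / m with hB
  have hAB : A = B + (y : ℚ) / m := by
    rw [hA, hB]
    push_cast
    ring
  have hy : (0 : ℚ) ≤ (y : ℚ) / m := by positivity
  have hle : ⌊B⌋ ≤ ⌊A⌋ := Int.floor_le_floor (by rw [hAB]; linarith)
  rw [max_eq_left (by linarith)] at h1
  have h2 : ((((Ioc 0 y).filter (fun n => n ≡ b [MOD m])).card : ℤ) : ℚ) = (⌊A⌋ : ℚ) - (⌊B⌋ : ℚ) := by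
    rw [h1]
    push_cast
    ring
  have a1 := Int.floor_le A
  have b2 := Int.lt_floor_add_one B
  have h3 : ((((Ioc 0 y).filter (fun n => n ≡ b [MOD m])).card : ℤ) : ℚ) ≤ (y : ℚ) / m + 1 := by
    rw [h2]
    linarith
  have h4 : (((((Ioc 0 y).filter (fun n => n ≡ b [MOD m])).card : ℤ) : ℚ) : ℝ)
      ≤ (((y : ℚ) / m + 1 : ℚ) : ℝ) := by
    exact_mod_cast h3
  push_cast at h4
  simpa using h4

private theorem PtB_Lam_nonneg (n : ℕ) : 0 ≤ Lam n := ArithmeticFunction.vonMangoldt_nonneg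

private theorem PtB_Lam_le {x n : ℕ} (hn : n ≤ x) (hx : 1 ≤ x) : Lam n ≤ Real.log x := by
  rcases Nat.eq_zero_or_pos n with h | h
  · subst h
    have : Lam 0 = 0 := by unfold Lam; simp
    rw [this]
    exact Real.log_natCast_nonneg x
  · refine (ArithmeticFunction.vonMangoldt_le_log).trans ?_
    exact Real.log_le_log (by exact_mod_cast h) (by exact_mod_cast hn)

/-- splitting a sum over a residue class at `M` -/
private theorem PtB_split (M x : ℕ) (hMx : M ≤ x) (p : ℕ → Prop) [DecidablePred p] (F : ℕ → ℝ) :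
    ∑ n ∈ (Icc 1 x).filter p, F n =
      ∑ n ∈ (Icc 1 M).filter p, F n + ∑ n ∈ (Ioc M x).filter p, F n := by
  rw [← sum_union]
  · congr 1
    ext n
    simp only [mem_filter, mem_Icc, mem_union, mem_Ioc]
    constructor
    · rintro ⟨⟨h1, h2⟩, h3⟩
      rcases Nat.lt_or_ge M n with h | h
      · exact Or.inr ⟨⟨h, h2⟩, h3⟩
      · exact Or.inl ⟨⟨h1, h⟩, h3⟩
    · rintro (⟨⟨h1, h2⟩, h3⟩ | ⟨⟨h1, h2⟩, h3⟩)
      · exact ⟨⟨h1, h2.trans hMx⟩, h3⟩
      · exact ⟨⟨by omega, h2⟩, h3⟩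
  · rw [disjoint_left]
    intro n h1 h2
    simp only [mem_filter, mem_Icc, mem_Ioc] at h1 h2
    omega

private theorem PtB_pr_empty : pr ∅ = 1 := by simp [pr]

private theorem PtB_empty_mem (S : Finset ℕ) (m : ℕ) : (∅ : Finset ℕ) ∈ sb S m := by
  rw [mem_sb]
  simp

private theorem PtB_gR_nonneg (R q : ℕ) : 0 ≤ gR R q := by
  unfold gR
  exact sum_nonneg fun c _ => by positivity

/-- the von Mangoldt function on rough numbers -/
private theorem PtB_lam (x M a q K : ℕ) (S S' : Finset ℕ) (hSS : S' ⊆ S) (hq : 1 ≤ q) :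
    ∑ k ∈ rS S K, (if a + k * q ∈ Ioc M x then Lam (a + k * q) else 0) ≤
      ∑ k ∈ rS S' ((x - a) / q), Lam (a + q * k) := by
  rw [← sum_filter]
  have h1 : ∀ k, Lam (a + k * q) = Lam (a + q * k) := fun k => by rw [mul_comm k q]
  rw [sum_congr rfl fun k _ => h1 k]
  refine sum_le_sum_of_subset_of_nonneg ?_ fun k _ _ => PtB_Lam_nonneg _
  intro k hk
  rw [mem_filter, mem_Ioc] at hk
  obtain ⟨hk1, hk2, hk3⟩ := hk
  unfold rS at hk1 ⊢
  rw [mem_filter, mem_Icc] at hk1 ⊢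
  refine ⟨⟨hk1.1.1, ?_⟩, fun p hp => hk1.2 p (hSS hp)⟩
  rw [Nat.le_div_iff_mul_le (by omega)]
  omega

theorem pt_blk (x M a q K P J m R : ℕ) (fb g : ℕ → ℝ) (δb : ℝ) (hx : 2 ≤ x) (hq : 1 ≤ q)
    (ha : 1 ≤ a) (haq : Nat.Coprime a q) (haM : a ≤ M) (hMx : M ≤ x) (hK : x < (K + 1) * q)
    (hRP : R ≤ P) (hP : 1 ≤ P) (hδ : 0 ≤ δb)
    (hf : ∀ n, fb n + g n = if n ∈ Ioc M x then hR R n else 0)
    (hg : ∀ n, n ∉ Ioc M x → g n = 0)
    (hfb : ∀ T ∈ sb (PP P (P * 2 ^ J)) m,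
      |∑ n ∈ (Ioc M x).filter (fun n => n ≡ a [MOD q * pr T]), fb n|
        ≤ (x : ℝ) / ((q : ℝ) * pr T) * δb) :
    |psiA x q a - (x : ℝ) / q * gR R q| ≤
      |∑ k ∈ fcs P J K, g (a + k * q)|
      + ∑ k ∈ Icc 1 K, tw (PP P (P * 2 ^ J)) m k * |fb (a + k * q)|
      + ∑ k ∈ Icc 1 K, tw (PP P (P * 2 ^ J)) m k * |vR R M x (a + k * q)|
      + ∑ k ∈ rS (PPc P (P * 2 ^ J) (a * q)) ((x - a) / q), Lam (a + q * k)
      + ((x : ℝ) / q * gR R q * eb (PPc P (P * 2 ^ J) a) m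
        + (x : ℝ) / q * δb * (1 + Real.exp (Mu (PP P (P * 2 ^ J))))
        + ((M : ℝ) / q * (Real.log x + gR R q) + Real.log x
          + 2 * (R : ℝ) ^ 3 * (1 + (((P * 2 ^ J : ℕ) : ℝ) + 1) ^ m)
          + (Nat.log 2 a : ℝ) * ((K : ℝ) / P) * (R : ℝ) ^ 3)) := by
  set S := PP P (P * 2 ^ J) with hSdef
  have hSp : ∀ p ∈ S, p.Prime := by
    intro p hp
    rw [hSdef] at hp
    unfold PP at hp
    exact (mem_filter.1 hp).2
  have hx1 : 1 ≤ x := by omega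
  have hq0 : 0 < q := by omega
  have hxr : (0 : ℝ) ≤ x := Nat.cast_nonneg x
  have hqr : (0 : ℝ) < q := by exact_mod_cast hq0
  have hL0 : 0 ≤ Real.log x := Real.log_natCast_nonneg x
  have hgR0 : 0 ≤ gR R q := PtB_gR_nonneg R q
  have hfb0 : ∀ n, n ∉ Ioc M x → fb n = 0 := by
    intro n hn
    have h1 := hf n
    rw [if_neg hn, hg n hn, add_zero] at h1
    exact h1
  -- the four parts
  have e1 : psiA x q a = ∑ n ∈ (Icc 1 M).filter (fun n => n ≡ a [MOD q]), Lam n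
      + (∑ n ∈ (Icc 1 x).filter (fun n => n ≡ a [MOD q]), lamR R n
        - ∑ n ∈ (Icc 1 M).filter (fun n => n ≡ a [MOD q]), lamR R n)
      + ∑ n ∈ (Ioc M x).filter (fun n => n ≡ a [MOD q]), fb n
      + ∑ n ∈ (Ioc M x).filter (fun n => n ≡ a [MOD q]), g n := by
    unfold psiA
    rw [PtB_split M x hMx (fun n => n ≡ a [MOD q]) Lam,
      PtB_split M x hMx (fun n => n ≡ a [MOD q]) (lamR R)]
    have h1 : ∑ n ∈ (Ioc M x).filter (fun n => n ≡ a [MOD q]), Lam n =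
        ∑ n ∈ (Ioc M x).filter (fun n => n ≡ a [MOD q]), lamR R n +
        ∑ n ∈ (Ioc M x).filter (fun n => n ≡ a [MOD q]), fb n +
        ∑ n ∈ (Ioc M x).filter (fun n => n ≡ a [MOD q]), g n := by
      rw [← sum_add_distrib, ← sum_add_distrib]
      refine sum_congr rfl fun n hn => ?_
      have hn1 := (mem_filter.1 hn).1
      have h2 := hf n
      rw [if_pos hn1] at h2
      unfold hR at h2
      linarith
    rw [h1]
    ring
  -- part 1
  have b1 : ∑ n ∈ (Icc 1 M).filter (fun n => n ≡ a [MOD q]), Lam n ≤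
      (M : ℝ) / q * Real.log x + Real.log x := by
    calc ∑ n ∈ (Icc 1 M).filter (fun n => n ≡ a [MOD q]), Lam n
        ≤ ∑ _n ∈ (Icc 1 M).filter (fun n => n ≡ a [MOD q]), Real.log x := by
          refine sum_le_sum fun n hn => ?_
          have hn1 := mem_Icc.1 (mem_filter.1 hn).1
          exact PtB_Lam_le (by omega) hx1
      _ = (((Icc 1 M).filter (fun n => n ≡ a [MOD q])).card : ℝ) * Real.log x := by
          rw [sum_const, nsmul_eq_mul]
      _ ≤ ((M : ℝ) / q + 1) * Real.log x :=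
          mul_le_mul_of_nonneg_right (PtB_count M q a hq0) hL0
      _ = _ := by ring
  have b1' : 0 ≤ ∑ n ∈ (Icc 1 M).filter (fun n => n ≡ a [MOD q]), Lam n :=
    sum_nonneg fun n _ => PtB_Lam_nonneg n
  -- part 2
  have b2 : |(∑ n ∈ (Icc 1 x).filter (fun n => n ≡ a [MOD q]), lamR R n) - (x : ℝ) / q * gR R q| ≤
      (R : ℝ) ^ 3 := Pool.Agent.H91.EHA.lamR_ap R x q a hq haq
  have b2' : |(∑ n ∈ (Icc 1 M).filter (fun n => n ≡ a [MOD q]), lamR R n) - (M : ℝ) / q * gR R q| ≤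
      (R : ℝ) ^ 3 := Pool.Agent.H91.EHA.lamR_ap R M q a hq haq
  -- part 3
  have b3 : |∑ n ∈ (Ioc M x).filter (fun n => n ≡ a [MOD q]), fb n| ≤ (x : ℝ) / q * δb := by
    have h := hfb ∅ (PtB_empty_mem _ _)
    rw [PtB_pr_empty, mul_one, Nat.cast_one, mul_one] at h
    exact h
  -- part 4
  have e4 : ∑ n ∈ (Ioc M x).filter (fun n => n ≡ a [MOD q]), g n =
      ∑ k ∈ fcs P J K, g (a + k * q) + ∑ k ∈ rS S K, g (a + k * q) := by
    rw [Pool.Agent.H35.W.TB_ksum g M x a q K hg haM hq0 hK, ← rgh_eq]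
    unfold rgh fcs
    rw [add_comm, sum_filter_add_sum_filter_not]
  have e5 : ∑ k ∈ rS S K, g (a + k * q) =
      ∑ k ∈ rS S K, (if a + k * q ∈ Ioc M x then Lam (a + k * q) else 0)
      - ∑ k ∈ rS S K, vR R M x (a + k * q) - ∑ k ∈ rS S K, fb (a + k * q) := by
    rw [← sum_sub_distrib, ← sum_sub_distrib]
    refine sum_congr rfl fun k _ => ?_
    have h2 := hf (a + k * q)
    unfold vR
    by_cases hk : a + k * q ∈ Ioc M x
    · rw [if_pos hk] at h2 ⊢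
      rw [if_pos hk]
      unfold hR at h2
      linarith
    · rw [if_neg hk] at h2 ⊢
      rw [if_neg hk]
      linarith
  have hSS : PPc P (P * 2 ^ J) (a * q) ⊆ S := by
    unfold PPc
    exact filter_subset _ _
  have b5 := PtB_lam x M a q K S (PPc P (P * 2 ^ J) (a * q)) hSS hq
  have b5' : 0 ≤ ∑ k ∈ rS S K, (if a + k * q ∈ Ioc M x then Lam (a + k * q) else 0) := by
    refine sum_nonneg fun k _ => ?_
    split_ifs
    · exact PtB_Lam_nonneg _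
    · exact le_rfl
  have b6 := lamR_rgh R P (P * 2 ^ J) M x a q K m hRP hP hq ha haM hMx haq hK
  rw [← hSdef] at b6
  have b7 := r_gen fb S hSp m M x a q K hfb0 haM hq0 hK
  have b8 : |∑ T ∈ sb S m, (-1 : ℝ) ^ T.card *
        ∑ n ∈ (Ioc M x).filter (fun n => n ≡ a [MOD q * pr T]), fb n| ≤
      (x : ℝ) / q * δb * Real.exp (Mu S) := by
    calc |∑ T ∈ sb S m, (-1 : ℝ) ^ T.card *
        ∑ n ∈ (Ioc M x).filter (fun n => n ≡ a [MOD q * pr T]), fb n|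
        ≤ ∑ T ∈ sb S m, |(-1 : ℝ) ^ T.card *
        ∑ n ∈ (Ioc M x).filter (fun n => n ≡ a [MOD q * pr T]), fb n| := abs_sum_le_sum_abs _ _
      _ ≤ ∑ T ∈ sb S m, (x : ℝ) / q * δb * (1 / (pr T : ℝ)) := by
          refine sum_le_sum fun T hT => ?_
          rw [abs_mul, abs_pow, abs_neg, abs_one, one_pow, one_mul]
          refine (hfb T hT).trans (le_of_eq ?_)
          have hpT : (1 : ℝ) ≤ pr T := by
            exact_mod_cast pr_pos S hSp T (mem_sb.1 hT).1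
          have hpT0 : (pr T : ℝ) ≠ 0 := by positivity
          field_simp
      _ = (x : ℝ) / q * δb * ∑ T ∈ sb S m, 1 / (pr T : ℝ) := by rw [mul_sum]
      _ ≤ _ := by
          refine mul_le_mul_of_nonneg_left (sb_inv S hSp m) ?_
          positivity
  have hMq : 0 ≤ (M : ℝ) / q * gR R q := by positivity
  rw [e1, e4, e5]
  have b9 := abs_le.1 b2
  have b10 := abs_le.1 b2'
  have b11 := abs_le.1 b3
  have b12 := abs_le.1 b6
  have b13 := abs_le.1 b7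
  have b14 := abs_le.1 b8
  have b15 := le_abs_self (∑ k ∈ fcs P J K, g (a + k * q))
  have b16 := neg_abs_le (∑ k ∈ fcs P J K, g (a + k * q))
  have b17 : (M : ℝ) / q * (Real.log x + gR R q) = (M : ℝ) / q * Real.log x + (M : ℝ) / q * gR R q := by
    ring
  have b18 : (x : ℝ) / q * δb * (1 + Real.exp (Mu S)) =
      (x : ℝ) / q * δb + (x : ℝ) / q * δb * Real.exp (Mu S) := by ring
  have b19 : 2 * (R : ℝ) ^ 3 * (1 + (((P * 2 ^ J : ℕ) : ℝ) + 1) ^ m) =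
      2 * (R : ℝ) ^ 3 + 2 * (R : ℝ) ^ 3 * (((P * 2 ^ J : ℕ) : ℝ) + 1) ^ m := by ring
  have b20 : 0 ≤ (M : ℝ) / q * Real.log x := by positivity
  rw [b17, b18, b19]
  rw [abs_le]
  constructor
  · linarith [b9.1, b10.2, b11.1, b12.2, b13.2, b14.2, b16, b1', b5']
  · linarith [b9.2, b10.1, b11.2, b12.1, b13.1, b14.1, b15, b1, b5]

end Pool.Agent.H35.U
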