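import Pool.Agent.H35.U.Bonf
import Pool.Agent.H35.W.TB1
import Pool.Agent.H91.EHA.Lam1
import Pool.Agent.H87.WL.MuL

/-!
# U RGen: sums over rough `k` by the pure sieve; `Λ_R` on rough `k`

* `rgh_eq`: `Rk P J k` says that no prime of `⋃_{i<J} (P 2^i, P 2^(i+1)] = (P, P 2^J]` divides `k`.
* `r_gen`: `bonf_abs` for each `k`, times `v (a+kq)`; `∑_{k ≤ K, pr T ∣ k} v(a+kq)` is the sum over
  `n ≡ a mod q·pr T`, `n ∈ (M,N]` (bijection `n = a + k q`; `k ≥ 1` as `n > M ≥ a`; see `TB_ksum` in `W.TB1` for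
  the case `T = ∅`, it can be used with the modulus `q·pr T`: `k = pr T · k'`, `k' ≤ K`).
* `lamR_rgh`: `S' = PPc P P' a ⊆ S = PP P P'`.  `rS S K ⊆ rS S' K` and `k` in the difference is divisible by some
  `p ∈ S`, `p ∣ a`: at most `(Nat.log 2 a) K/P` such `k` (`WL.card_dvd`: at most `Nat.log 2 a` primes `p ∣ a`; each
  `p > P` divides at most `K/p` of them), `|lamR R n| ≤ R³` (`|ramS c n| ≤ c²`, see `idn_lamR` in `WL.Idn`).
  For `rS S' K` use `r_gen` with `S'`, `tw S' m k ≤ tw S m k` (`Om` is monotone in `S`; `tw` is monotone in `Om`),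
  `lamR_ap` for `y = N` and `y = M` with the modulus `q·pr T` (coprime to `a`):
  `∑_{n ∈ (M,N], n ≡ a} lamR = ((N-M)/(q pr T)) gR R (q pr T) + O(2R³)` and `gR R (q pr T) = gR R q` (a divisor
  `c ≤ R ≤ P` of `q·pr T` is coprime to `pr T`, whose prime factors are `> P`).  Then `bonf_mu`, `sb_card`,
  `#S' ≤ P'`, `0 ≤ gR`.
-/

set_option autoImplicit false

namespace Pool.Agent.H35.U

open Finset
open Pool.Agent.H91.EHA (Lam lamR hR psiA)
open Pool.Agent.H87.WL (PP PPc Mu Om gR)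
open Pool.Agent.H35.W (Rk rgh fcs)

theorem rgh_eq (P J K : ℕ) : rgh P J K = rS (PP P (P * 2 ^ J)) K := by
  classical
  have h : ∀ k, Rk P J k ↔ ∀ p ∈ PP P (P * 2 ^ J), ¬ p ∣ k := by
    intro k
    unfold Rk Pool.Agent.H35.W.pb PP
    simp only [mem_filter, mem_Ioc, and_imp]
    constructor
    · intro H p hp1 hp2 hp3
      have key : ∀ J', p ≤ P * 2 ^ J' → ∃ i, i < J' ∧ P * 2 ^ i < p ∧ p ≤ 2 * (P * 2 ^ i) := by
        intro J'
        induction J' with
        | zero => intro h; simp at h; omega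
        | succ j ih =>
          intro h
          by_cases h2 : p ≤ P * 2 ^ j
          · obtain ⟨i, h3, h4⟩ := ih h2
            exact ⟨i, by omega, h4⟩
          · refine ⟨j, by omega, by omega, ?_⟩
            rw [pow_succ] at h
            calc p ≤ P * (2 ^ j * 2) := h
              _ = 2 * (P * 2 ^ j) := by ring
      obtain ⟨i, h1, h2, h3⟩ := key J hp2
      exact H i h1 p h2 h3 hp3
    · intro H i hi p h1 h2 h3
      have e1 : P ≤ P * 2 ^ i := Nat.le_mul_of_pos_right P (by positivity)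
      have e2 : 2 * (P * 2 ^ i) ≤ P * 2 ^ J := by
        calc 2 * (P * 2 ^ i) = P * 2 ^ (i + 1) := by rw [pow_succ]; ring
          _ ≤ P * 2 ^ J := Nat.mul_le_mul_left _ (Nat.pow_le_pow_right (by norm_num) (by omega))
      exact H p (by omega) (by omega) h3
  ext k
  unfold rgh rS
  simp only [mem_filter, h]

private theorem RGen_inner (v : ℕ → ℝ) (M N a q K D : ℕ)
    (hv : ∀ n, n ∉ Ioc M N → v n = 0) (ha : a ≤ M) (hq : 0 < q) (hK : N < (K + 1) * q) :
    ∑ n ∈ (Ioc M N).filter (fun n => n ≡ a [MOD q * D]), v n =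
      ∑ k ∈ Icc 1 K, (if D ∣ k then (1 : ℝ) else 0) * v (a + k * q) := by
  have h := Pool.Agent.H35.W.TB_ksum (fun n => if n ≡ a [MOD q * D] then v n else 0) M N a q K
    (fun n hn => by simp only [hv n hn, ite_self]) ha hq hK
  have h1 : ∑ n ∈ (Ioc M N).filter (fun n => n ≡ a [MOD q]),
      (if n ≡ a [MOD q * D] then v n else 0) =
      ∑ n ∈ (Ioc M N).filter (fun n => n ≡ a [MOD q * D]), v n := by
    rw [← sum_filter, filter_filter]
    apply sum_congr _ (fun _ _ => rfl)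
    apply filter_congr
    intro n _
    constructor
    · rintro ⟨_, h⟩
      exact h
    · intro h
      exact ⟨Nat.ModEq.of_mul_right D h, h⟩
  rw [← h1, h]
  apply sum_congr rfl
  intro k _
  have h2 : (a + k * q ≡ a [MOD q * D]) ↔ D ∣ k := by
    constructor
    · intro h3
      have h4 : q * D ∣ (a + k * q) - a := (Nat.modEq_iff_dvd' (Nat.le_add_right _ _)).mp h3.symm
      rw [Nat.add_sub_cancel_left, mul_comm k q] at h4
      exact Nat.dvd_of_mul_dvd_mul_left hq h4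
    · rintro ⟨c, rfl⟩
      have : a + D * c * q = a + q * D * c := by ring
      rw [this]
      unfold Nat.ModEq
      rw [Nat.add_mul_mod_self_left]
  by_cases h3 : D ∣ k
  · simp only [h2.2 h3, h3, if_true, one_mul]
  · have h4 : ¬ (a + k * q ≡ a [MOD q * D]) := fun h5 => h3 (h2.1 h5)
    simp only [h4, h3, if_false, zero_mul]

theorem r_gen (v : ℕ → ℝ) (S : Finset ℕ) (hS : ∀ p ∈ S, p.Prime) (m M N a q K : ℕ)
    (hv : ∀ n, n ∉ Ioc M N → v n = 0) (ha : a ≤ M) (hq : 0 < q) (hK : N < (K + 1) * q) :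
    |∑ k ∈ rS S K, v (a + k * q) - ∑ T ∈ sb S m, (-1 : ℝ) ^ T.card *
        ∑ n ∈ (Ioc M N).filter (fun n => n ≡ a [MOD q * pr T]), v n|
      ≤ ∑ k ∈ Icc 1 K, tw S m k * |v (a + k * q)| := by
  have h1 : ∑ k ∈ rS S K, v (a + k * q) =
      ∑ k ∈ Icc 1 K, (if ∀ p ∈ S, ¬ p ∣ k then (1 : ℝ) else 0) * v (a + k * q) := by
    unfold rS
    rw [sum_filter]
    apply sum_congr rfl
    intro k _
    split_ifs <;> simp
  have h2 : ∑ T ∈ sb S m, (-1 : ℝ) ^ T.card *
        ∑ n ∈ (Ioc M N).filter (fun n => n ≡ a [MOD q * pr T]), v n =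
      ∑ k ∈ Icc 1 K, (∑ T ∈ sb S m, (-1 : ℝ) ^ T.card * (if pr T ∣ k then 1 else 0)) *
        v (a + k * q) := by
    have h3 : ∀ T ∈ sb S m, (-1 : ℝ) ^ T.card *
        ∑ n ∈ (Ioc M N).filter (fun n => n ≡ a [MOD q * pr T]), v n =
        ∑ k ∈ Icc 1 K, (-1 : ℝ) ^ T.card * (if pr T ∣ k then 1 else 0) * v (a + k * q) := by
      intro T _
      rw [RGen_inner v M N a q K (pr T) hv ha hq hK, mul_sum]
      apply sum_congr rfl
      intro k _
      ring
    rw [sum_congr rfl h3, sum_comm]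
    apply sum_congr rfl
    intro k _
    rw [sum_mul]
  rw [h1, h2, ← sum_sub_distrib]
  refine (abs_sum_le_sum_abs _ _).trans (sum_le_sum fun k _ => ?_)
  rw [← sub_mul, abs_mul, abs_sub_comm]
  exact mul_le_mul_of_nonneg_right (bonf_abs S hS m k) (abs_nonneg _)

private theorem RGen_ramS (c n : ℕ) (hc : 1 ≤ c) :
    |Pool.Agent.H91.EHA.ramS c n| ≤ (c : ℝ) ^ 2 := by
  unfold Pool.Agent.H91.EHA.ramS
  have hg : Nat.gcd c n ≤ c := Nat.gcd_le_left _ hc
  calc |∑ d ∈ (Nat.gcd c n).divisors, (d : ℝ) * (ArithmeticFunction.moebius (c / d) : ℝ)|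
      ≤ ∑ d ∈ (Nat.gcd c n).divisors, |(d : ℝ) * (ArithmeticFunction.moebius (c / d) : ℝ)| :=
        abs_sum_le_sum_abs _ _
    _ ≤ ∑ _d ∈ (Nat.gcd c n).divisors, (c : ℝ) := by
        apply sum_le_sum
        intro d hd
        rw [abs_mul, abs_of_nonneg (Nat.cast_nonneg d : (0 : ℝ) ≤ d)]
        have h1 : d ≤ c := (Nat.divisor_le hd).trans hg
        have h2 : |((ArithmeticFunction.moebius (c / d) : ℤ) : ℝ)| ≤ 1 := by
          have := ArithmeticFunction.abs_moebius_le_one (n := c / d)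
          exact_mod_cast this
        calc (d : ℝ) * |((ArithmeticFunction.moebius (c / d) : ℤ) : ℝ)| ≤ (c : ℝ) * 1 := by
              apply mul_le_mul (by exact_mod_cast h1) h2 (abs_nonneg _) (Nat.cast_nonneg _)
          _ = c := mul_one _
    _ = ((Nat.gcd c n).divisors.card : ℝ) * c := by rw [sum_const, nsmul_eq_mul]
    _ ≤ (c : ℝ) * c := by
        apply mul_le_mul_of_nonneg_right _ (Nat.cast_nonneg _)
        have h1 : (Nat.gcd c n).divisors.card ≤ Nat.gcd c n := Nat.card_divisors_le_self _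
        exact_mod_cast h1.trans hg
    _ = (c : ℝ) ^ 2 := by ring

private theorem RGen_lamR (R n : ℕ) : |lamR R n| ≤ (R : ℝ) ^ 3 := by
  unfold Pool.Agent.H91.EHA.lamR
  calc |∑ c ∈ Icc 1 R, (ArithmeticFunction.moebius c : ℝ) / (c.totient : ℝ) *
        Pool.Agent.H91.EHA.ramS c n|
      ≤ ∑ c ∈ Icc 1 R, |(ArithmeticFunction.moebius c : ℝ) / (c.totient : ℝ) *
        Pool.Agent.H91.EHA.ramS c n| := abs_sum_le_sum_abs _ _
    _ ≤ ∑ _c ∈ Icc 1 R, (R : ℝ) ^ 2 := by
        apply sum_le_sum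
        intro c hc
        rw [mem_Icc] at hc
        rw [abs_mul, abs_div]
        have h2 : |((ArithmeticFunction.moebius c : ℤ) : ℝ)| ≤ 1 := by
          have := ArithmeticFunction.abs_moebius_le_one (n := c)
          exact_mod_cast this
        have h3 : (1 : ℝ) ≤ |(c.totient : ℝ)| := by
          rw [abs_of_nonneg (Nat.cast_nonneg _)]
          exact_mod_cast Nat.totient_pos.2 (by omega)
        have h4 : |((ArithmeticFunction.moebius c : ℤ) : ℝ)| / |(c.totient : ℝ)| ≤ 1 := by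
          rw [div_le_one (by linarith)]
          linarith
        have h5 := RGen_ramS c n hc.1
        have h6 : (c : ℝ) ^ 2 ≤ (R : ℝ) ^ 2 := by
          have : (c : ℝ) ≤ R := by exact_mod_cast hc.2
          gcongr
        calc _ ≤ 1 * (R : ℝ) ^ 2 :=
              mul_le_mul h4 (h5.trans h6) (abs_nonneg _) (by norm_num)
          _ = _ := one_mul _
    _ = (R : ℝ) ^ 3 := by
        rw [sum_const, nsmul_eq_mul, Nat.card_Icc]
        simp only [Nat.add_sub_cancel]
        ring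

private theorem RGen_gR (R q D : ℕ) (hq : 1 ≤ q) (hD : 1 ≤ D)
    (h : ∀ c, 1 ≤ c → c ≤ R → Nat.Coprime c D) : gR R (q * D) = gR R q := by
  unfold Pool.Agent.H87.WL.gR
  apply sum_congr _ (fun _ _ => rfl)
  ext c
  simp only [mem_filter, Nat.mem_divisors]
  constructor
  · rintro ⟨⟨h1, h2⟩, h3⟩
    have hc : 1 ≤ c := Nat.pos_of_dvd_of_pos h1 (Nat.pos_of_ne_zero h2)
    exact ⟨⟨(h c hc h3).dvd_of_dvd_mul_right h1, by omega⟩, h3⟩
  · rintro ⟨⟨h1, h2⟩, h3⟩
    refine ⟨⟨h1.mul_right D, ?_⟩, h3⟩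
    positivity

private theorem RGen_gR_nonneg (R q : ℕ) : 0 ≤ gR R q := by
  unfold Pool.Agent.H87.WL.gR
  apply sum_nonneg
  intro c _
  positivity

private theorem RGen_ap (R M N q a : ℕ) (hMN : M ≤ N) (hq : 1 ≤ q) (haq : Nat.Coprime a q) :
    |∑ n ∈ (Ioc M N).filter (fun n => n ≡ a [MOD q]), vR R M N n -
      ((N : ℝ) - M) / q * gR R q| ≤ 2 * (R : ℝ) ^ 3 := by
  have h1 := Pool.Agent.H91.EHA.lamR_ap R N q a hq haq
  have h2 := Pool.Agent.H91.EHA.lamR_ap R M q a hq haq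
  have h3 : ∑ n ∈ (Ioc M N).filter (fun n => n ≡ a [MOD q]), vR R M N n =
      ∑ n ∈ (Icc 1 N).filter (fun n => n ≡ a [MOD q]), lamR R n -
      ∑ n ∈ (Icc 1 M).filter (fun n => n ≡ a [MOD q]), lamR R n := by
    rw [eq_sub_iff_add_eq]
    have e1 : ∑ n ∈ (Ioc M N).filter (fun n => n ≡ a [MOD q]), vR R M N n =
        ∑ n ∈ (Ioc M N).filter (fun n => n ≡ a [MOD q]), lamR R n := by
      apply sum_congr rfl
      intro n hn
      rw [mem_filter] at hn
      unfold vR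
      rw [if_pos hn.1]
    rw [e1, ← sum_union]
    · apply sum_congr _ (fun _ _ => rfl)
      ext n
      simp only [mem_union, mem_filter, mem_Ioc, mem_Icc]
      constructor
      · rintro (⟨⟨h3, h4⟩, h5⟩ | ⟨⟨h3, h4⟩, h5⟩)
        · exact ⟨⟨by omega, h4⟩, h5⟩
        · exact ⟨⟨h3, by omega⟩, h5⟩
      · rintro ⟨⟨h3, h4⟩, h5⟩
        by_cases h6 : n ≤ M
        · exact Or.inr ⟨⟨h3, h6⟩, h5⟩
        · exact Or.inl ⟨⟨by omega, h4⟩, h5⟩
    · rw [Finset.disjoint_left]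
      intro n h3 h4
      rw [mem_filter, mem_Ioc] at h3
      rw [mem_filter, mem_Icc] at h4
      omega
  have h4 : ∑ c ∈ q.divisors.filter (fun c => c ≤ R),
          (ArithmeticFunction.moebius c : ℝ) ^ 2 / (c.totient : ℝ) = gR R q := rfl
  rw [h4] at h1 h2
  rw [h3]
  rw [abs_le] at h1 h2 ⊢
  have h5 : ((N : ℝ) - M) / q * gR R q = (N : ℝ) / q * gR R q - (M : ℝ) / q * gR R q := by ring
  rw [h5]
  constructor <;> linarith [h1.1, h1.2, h2.1, h2.2]

private theorem RGen_tw_mono {S' S : Finset ℕ} (h : S' ⊆ S) (m k : ℕ) : tw S' m k ≤ tw S m k := by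
  have h1 : Om S' k ≤ Om S k := by
    unfold Pool.Agent.H87.WL.Om
    exact card_le_card (filter_subset_filter _ h)
  unfold tw
  split_ifs with h2 h3
  · exact pow_le_pow_right₀ (by norm_num) h1
  · omega
  · positivity
  · exact le_refl _

private theorem RGen_main (R P P' M N a q m : ℕ) (hRP : R ≤ P) (hq : 1 ≤ q)
    (hMN : M ≤ N) (haq : Nat.Coprime a q) :
    |∑ T ∈ sb (PPc P P' a) m, (-1 : ℝ) ^ T.card *
        ∑ n ∈ (Ioc M N).filter (fun n => n ≡ a [MOD q * pr T]), vR R M N n| ≤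
      (N : ℝ) / q * gR R q * eb (PPc P P' a) m + 2 * (R : ℝ) ^ 3 * ((P' : ℝ) + 1) ^ m := by
  set S := PPc P P' a with hSdef
  have hS : ∀ p ∈ S, p.Prime := by
    intro p hp
    rw [hSdef] at hp
    unfold PPc PP at hp
    rw [mem_filter, mem_filter] at hp
    exact hp.1.2
  have hSP : ∀ p ∈ S, P < p ∧ p ≤ P' ∧ ¬ p ∣ a := by
    intro p hp
    rw [hSdef] at hp
    unfold PPc PP at hp
    rw [mem_filter, mem_filter, mem_Ioc] at hp
    exact ⟨hp.1.1.1, hp.1.1.2, hp.2⟩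
  have hq0 : (0 : ℝ) < q := by exact_mod_cast hq
  have hT : ∀ T ∈ sb S m, |∑ n ∈ (Ioc M N).filter (fun n => n ≡ a [MOD q * pr T]), vR R M N n -
      ((N : ℝ) - M) / q * gR R q / (pr T : ℝ)| ≤ 2 * (R : ℝ) ^ 3 := by
    intro T hT
    rw [mem_sb] at hT
    have hp1 : 1 ≤ pr T := pr_pos S hS T hT.1
    have hp0 : (0 : ℝ) < pr T := by exact_mod_cast hp1
    have hcop : Nat.Coprime a (pr T) := by
      unfold pr
      apply Nat.Coprime.prod_right
      intro p hp
      exact ((hS p (hT.1 hp)).coprime_iff_not_dvd.2 (hSP p (hT.1 hp)).2.2).symm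
    have h1 := RGen_ap R M N (q * pr T) a hMN (Nat.mul_pos hq hp1) (Nat.Coprime.mul_right haq hcop)
    have h2 : gR R (q * pr T) = gR R q := by
      apply RGen_gR R q (pr T) hq hp1
      intro c hc hcR
      unfold pr
      apply Nat.Coprime.prod_right
      intro p hp
      have hpP := (hSP p (hT.1 hp)).1
      refine ((hS p (hT.1 hp)).coprime_iff_not_dvd.2 fun hd => ?_).symm
      have := Nat.le_of_dvd (by omega) hd
      omega
    rw [h2] at h1
    have h3 : ((N : ℝ) - M) / q * gR R q / (pr T : ℝ) =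
        ((N : ℝ) - M) / ((q * pr T : ℕ) : ℝ) * gR R q := by
      push_cast
      field_simp
    rw [h3]
    exact h1
  have h4 : ∑ T ∈ sb S m, (-1 : ℝ) ^ T.card *
        ∑ n ∈ (Ioc M N).filter (fun n => n ≡ a [MOD q * pr T]), vR R M N n =
      ((N : ℝ) - M) / q * gR R q * ∑ T ∈ sb S m, (-1 : ℝ) ^ T.card / (pr T : ℝ) +
      ∑ T ∈ sb S m, (-1 : ℝ) ^ T.card *
        (∑ n ∈ (Ioc M N).filter (fun n => n ≡ a [MOD q * pr T]), vR R M N n -
      ((N : ℝ) - M) / q * gR R q / (pr T : ℝ)) := by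
    rw [mul_sum, ← sum_add_distrib]
    apply sum_congr rfl
    intro T _
    ring
  rw [h4]
  have hMN' : (M : ℝ) ≤ N := by exact_mod_cast hMN
  have hg := RGen_gR_nonneg R q
  refine (abs_add_le _ _).trans (add_le_add ?_ ?_)
  · rw [abs_mul, abs_of_nonneg (by
      have : 0 ≤ ((N : ℝ) - M) := by linarith
      positivity)]
    apply mul_le_mul _ (bonf_mu S hS m) (abs_nonneg _) (by positivity)
    apply mul_le_mul_of_nonneg_right _ hg
    apply div_le_div_of_nonneg_right _ hq0.le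
    have : (0 : ℝ) ≤ M := Nat.cast_nonneg _
    linarith
  · calc |∑ T ∈ sb S m, (-1 : ℝ) ^ T.card *
        (∑ n ∈ (Ioc M N).filter (fun n => n ≡ a [MOD q * pr T]), vR R M N n -
      ((N : ℝ) - M) / q * gR R q / (pr T : ℝ))|
        ≤ ∑ T ∈ sb S m, |(-1 : ℝ) ^ T.card *
        (∑ n ∈ (Ioc M N).filter (fun n => n ≡ a [MOD q * pr T]), vR R M N n -
      ((N : ℝ) - M) / q * gR R q / (pr T : ℝ))| := abs_sum_le_sum_abs _ _
      _ ≤ ∑ _T ∈ sb S m, 2 * (R : ℝ) ^ 3 := by
          apply sum_le_sum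
          intro T hT'
          rw [abs_mul, abs_pow, abs_neg, abs_one, one_pow, one_mul]
          exact hT T hT'
      _ = ((sb S m).card : ℝ) * (2 * (R : ℝ) ^ 3) := by rw [sum_const, nsmul_eq_mul]
      _ ≤ ((P' : ℝ) + 1) ^ m * (2 * (R : ℝ) ^ 3) := by
          apply mul_le_mul_of_nonneg_right _ (by positivity)
          refine (sb_card S m).trans ?_
          have h5 : S.card ≤ P' := by
            have h6 : S ⊆ Ioc P P' := by
              intro p hp
              rw [mem_Ioc]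
              exact ⟨(hSP p hp).1, (hSP p hp).2.1⟩
            calc S.card ≤ (Ioc P P').card := card_le_card h6
              _ ≤ P' := by rw [Nat.card_Ioc]; omega
          have h7 : (S.card : ℝ) ≤ P' := by exact_mod_cast h5
          gcongr
      _ = 2 * (R : ℝ) ^ 3 * ((P' : ℝ) + 1) ^ m := by ring

private theorem RGen_dvd_card (K p : ℕ) :
    (((Icc 1 K).filter (fun k => p ∣ k)).card : ℝ) ≤ (K : ℝ) / p := by
  have h1 : ((Icc 1 K).filter (fun k => p ∣ k)).card = K / p := by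
    have h := Nat.Ioc_filter_dvd_card_eq_div K p
    have h0 : Icc 1 K = Ioc 0 K := by
      ext n
      simp only [mem_Icc, mem_Ioc]
      omega
    rw [h0]
    exact h
  rw [h1]
  exact Nat.cast_div_le

private theorem RGen_diff (P P' a K : ℕ) (hP : 1 ≤ P) (ha : 1 ≤ a) :
    ((rS (PPc P P' a) K \ rS (PP P P') K).card : ℝ) ≤
      (Nat.log 2 a : ℝ) * ((K : ℝ) / P) := by
  have hP0 : (0 : ℝ) < P := by exact_mod_cast hP
  have h1 : rS (PPc P P' a) K \ rS (PP P P') K ⊆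
      ((PP P P').filter (fun p => p ∣ a)).biUnion (fun p => (Icc 1 K).filter (fun k => p ∣ k)) := by
    intro k hk
    rw [mem_sdiff] at hk
    unfold rS at hk
    rw [mem_filter, mem_filter] at hk
    obtain ⟨⟨h2, h3⟩, h4⟩ := hk
    rw [mem_biUnion]
    have h5 : ∃ p ∈ PP P P', p ∣ k := by
      by_contra hc
      push Not at hc
      exact h4 ⟨h2, hc⟩
    obtain ⟨p, hp, hpk⟩ := h5
    refine ⟨p, ?_, ?_⟩
    · rw [mem_filter]
      refine ⟨hp, ?_⟩
      by_contra hpa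
      exact h3 p (by unfold PPc; rw [mem_filter]; exact ⟨hp, hpa⟩) hpk
    · rw [mem_filter]
      exact ⟨h2, hpk⟩
  calc ((rS (PPc P P' a) K \ rS (PP P P') K).card : ℝ)
      ≤ ((((PP P P').filter (fun p => p ∣ a)).biUnion
          (fun p => (Icc 1 K).filter (fun k => p ∣ k))).card : ℝ) := by
        exact_mod_cast card_le_card h1
    _ ≤ ∑ p ∈ (PP P P').filter (fun p => p ∣ a), (((Icc 1 K).filter (fun k => p ∣ k)).card : ℝ) := by
        exact_mod_cast card_biUnion_le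
    _ ≤ ∑ _p ∈ (PP P P').filter (fun p => p ∣ a), (K : ℝ) / P := by
        apply sum_le_sum
        intro p hp
        unfold PP at hp
        rw [mem_filter, mem_filter, mem_Ioc] at hp
        have hpP : (P : ℝ) ≤ p := by exact_mod_cast hp.1.1.1.le
        refine (RGen_dvd_card K p).trans ?_
        gcongr
    _ = (((PP P P').filter (fun p => p ∣ a)).card : ℝ) * ((K : ℝ) / P) := by
        rw [sum_const, nsmul_eq_mul]
    _ ≤ (Nat.log 2 a : ℝ) * ((K : ℝ) / P) := by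
        apply mul_le_mul_of_nonneg_right _ (by positivity)
        exact_mod_cast Pool.Agent.H87.WL.card_dvd P P' a ha

theorem lamR_rgh (R P P' M N a q K m : ℕ) (hRP : R ≤ P) (hP : 1 ≤ P) (hq : 1 ≤ q) (ha : 1 ≤ a)
    (haM : a ≤ M) (hMN : M ≤ N) (haq : Nat.Coprime a q) (hK : N < (K + 1) * q) :
    |∑ k ∈ rS (PP P P') K, vR R M N (a + k * q)| ≤
      (N : ℝ) / q * gR R q * eb (PPc P P' a) m + 2 * (R : ℝ) ^ 3 * ((P' : ℝ) + 1) ^ m
        + ∑ k ∈ Icc 1 K, tw (PP P P') m k * |vR R M N (a + k * q)|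
        + (Nat.log 2 a : ℝ) * ((K : ℝ) / P) * (R : ℝ) ^ 3 := by
  have hsub : PPc P P' a ⊆ PP P P' := by
    unfold PPc
    exact filter_subset _ _
  have hS : ∀ p ∈ PPc P P' a, p.Prime := by
    intro p hp
    unfold PPc PP at hp
    rw [mem_filter, mem_filter] at hp
    exact hp.1.2
  have hrs : rS (PP P P') K ⊆ rS (PPc P P' a) K := by
    intro k hk
    unfold rS at hk ⊢
    rw [mem_filter] at hk ⊢
    exact ⟨hk.1, fun p hp => hk.2 p (hsub hp)⟩
  have hvb : ∀ n, |vR R M N n| ≤ (R : ℝ) ^ 3 := by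
    intro n
    unfold vR
    split_ifs
    · exact RGen_lamR R n
    · rw [abs_zero]
      positivity
  have h1 : ∑ k ∈ rS (PP P P') K, vR R M N (a + k * q) =
      ∑ k ∈ rS (PPc P P' a) K, vR R M N (a + k * q) -
      ∑ k ∈ rS (PPc P P' a) K \ rS (PP P P') K, vR R M N (a + k * q) := by
    rw [eq_sub_iff_add_eq, add_comm]
    exact sum_sdiff hrs
  have h2 : |∑ k ∈ rS (PPc P P' a) K \ rS (PP P P') K, vR R M N (a + k * q)| ≤
      (Nat.log 2 a : ℝ) * ((K : ℝ) / P) * (R : ℝ) ^ 3 := by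
    calc _ ≤ ∑ k ∈ rS (PPc P P' a) K \ rS (PP P P') K, |vR R M N (a + k * q)| :=
          abs_sum_le_sum_abs _ _
      _ ≤ ∑ _k ∈ rS (PPc P P' a) K \ rS (PP P P') K, (R : ℝ) ^ 3 :=
          sum_le_sum fun k _ => hvb _
      _ = ((rS (PPc P P' a) K \ rS (PP P P') K).card : ℝ) * (R : ℝ) ^ 3 := by
          rw [sum_const, nsmul_eq_mul]
      _ ≤ _ := mul_le_mul_of_nonneg_right (RGen_diff P P' a K hP ha) (by positivity)
  have h3 := r_gen (vR R M N) (PPc P P' a) hS m M N a q K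
    (fun n hn => by unfold vR; rw [if_neg hn]) haM hq hK
  have h4 := RGen_main R P P' M N a q m hRP hq hMN haq
  have h5 : ∑ k ∈ Icc 1 K, tw (PPc P P' a) m k * |vR R M N (a + k * q)| ≤
      ∑ k ∈ Icc 1 K, tw (PP P P') m k * |vR R M N (a + k * q)| :=
    sum_le_sum fun k _ => mul_le_mul_of_nonneg_right (RGen_tw_mono hsub m k) (abs_nonneg _)
  rw [h1]
  rw [abs_le] at h2 h3 h4 ⊢
  constructor <;> linarith [h2.1, h2.2, h3.1, h3.2, h4.1, h4.2]

end Pool.Agent.H35.U
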