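import Pool.Agent.H35.U.SelR
import Pool.Agent.H87.WL.Sel1
import Pool.Agent.H87.WL.Gl

/-!
# U RghL: prime powers `a + q k` with `k` rough, pointwise in `a` and `q`

Copy the structure of `WL.TKL` (`tkl`).  `X = log(a + qK)`, `D = ⌊K^(1/20)⌋₊`.  For `k` with
`Lam (a+qk) ≠ 0` and `D < (a+qk).minFac`: `Ps D q (a+qk) = Gs D q` (`ps_pp`), so
`Lam (a+qk) ≤ X Ps²/Gs²`; the other `k` are at most `2 D X` (`tkl_count` in `WL.TKL`, private: copy it), each
term `≤ X`.  `sel_rough`; `Gs ≥ 1` (`gs_one_le`), `Gs ≥ (φ(q)/q) log(D+1) ≥ (φ(q)/q) (log K)/20` (`gs_ge`).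
Total `≤ 2X² K^(1/20) + 20 X K (q/φ(q))/log K · E + 2 X K^(1/5) K^(1/10)`, `X ≤ K^(1/10)`.
-/

set_option autoImplicit false

namespace Pool.Agent.H35.U

open Finset
open Pool.Agent.H91.EHA (Lam)
open Pool.Agent.H87.WL (PP PPc Mu Om gR Ps Gs Sd Td)

private lemma RghL_count (a q K D : ℕ) (X : ℝ) (hq : 1 ≤ q) (hX0 : 0 ≤ X)
    (hX : ∀ k ∈ Icc 1 K, Real.log ((a + q * k : ℕ) : ℝ) ≤ X) :
    (((Icc 1 K).filter (fun k => Lam (a + q * k) ≠ 0 ∧ (a + q * k).minFac ≤ D)).card : ℝ) ≤
      D * (2 * X) := by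
  set A := (Icc 1 K).filter (fun k => Lam (a + q * k) ≠ 0 ∧ (a + q * k).minFac ≤ D) with hA
  have hpp : ∀ k ∈ A, IsPrimePow (a + q * k) := by
    intro k hk
    rw [hA, mem_filter] at hk
    exact ArithmeticFunction.vonMangoldt_ne_zero_iff.1 hk.2.1
  have h1 : A.card ≤ (Icc 1 D ×ˢ Icc 1 ⌊2 * X⌋₊).card := by
    apply card_le_card_of_injOn
      (fun k => ((a + q * k).minFac, (a + q * k).factorization (a + q * k).minFac))
    · intro k hk
      have hk' : k ∈ A := hk
      have h2 := hpp k hk'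
      have h3 := h2.minFac_pow_factorization_eq
      rw [hA, mem_filter] at hk'
      have hn0 : a + q * k ≠ 0 := h2.ne_zero
      have hprime : (a + q * k).minFac.Prime := Nat.minFac_prime h2.ne_one
      rw [mem_coe, mem_product, mem_Icc, mem_Icc]
      refine ⟨⟨hprime.one_le, hk'.2.2⟩, ?_, ?_⟩
      · show 1 ≤ (a + q * k).factorization (a + q * k).minFac
        exact hprime.factorization_pos_of_dvd hn0 (Nat.minFac_dvd _)
      · show (a + q * k).factorization (a + q * k).minFac ≤ ⌊2 * X⌋₊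
        apply Nat.le_floor
        set j := (a + q * k).factorization (a + q * k).minFac with hj
        have h4 : 2 ^ j ≤ a + q * k := by
          calc 2 ^ j ≤ (a + q * k).minFac ^ j := Nat.pow_le_pow_left hprime.two_le j
            _ = a + q * k := h3
        have h5 : (j : ℝ) * Real.log 2 ≤ X := by
          refine le_trans ?_ (hX k hk'.1)
          rw [← Real.log_pow]
          apply Real.log_le_log (by positivity)
          exact_mod_cast h4
        have h6 : (1:ℝ) / 2 ≤ Real.log 2 := by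
          have := Real.log_two_gt_d9
          linarith
        have h7 : (0:ℝ) ≤ j := Nat.cast_nonneg _
        nlinarith
    · intro k hk k' hk' h
      have h2 := (hpp k hk).minFac_pow_factorization_eq
      have h3 := (hpp k' hk').minFac_pow_factorization_eq
      simp only [Prod.mk.injEq] at h
      rw [← h.2, ← h.1] at h3
      rw [h2] at h3
      have h4 : q * k = q * k' := by omega
      exact Nat.eq_of_mul_eq_mul_left (by omega) h4
  rw [card_product, Nat.card_Icc, Nat.card_Icc, Nat.add_sub_cancel, Nat.add_sub_cancel] at h1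
  calc (A.card : ℝ) ≤ ((D * ⌊2 * X⌋₊ : ℕ) : ℝ) := by exact_mod_cast h1
    _ = D * (⌊2 * X⌋₊ : ℝ) := by push_cast; ring
    _ ≤ D * (2 * X) := mul_le_mul_of_nonneg_left (Nat.floor_le (by linarith)) (Nat.cast_nonneg _)

theorem rgh_lam : ∃ C : ℝ, 0 < C ∧ ∃ K0 : ℕ, ∀ K : ℕ, K0 ≤ K → ∀ (a q P r : ℕ) (S : Finset ℕ),
    1 ≤ q → Nat.Coprime a q → 1 ≤ P → 4 * r ≤ P →
    (∀ p ∈ S, p.Prime ∧ P < p ∧ ¬ p ∣ a * q) →
    ((S.card : ℝ) + 1) ^ (2 * r) ≤ (K : ℝ) ^ ((1 : ℝ) / 10) →
    Real.log ((a : ℝ) + q * K) ≤ (K : ℝ) ^ ((1 : ℝ) / 10) →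
    ∑ k ∈ rS S K, Lam (a + q * k) ≤
      C * (Real.log ((a : ℝ) + q * K) / Real.log K) * (K * ((q : ℝ) / q.totient)) *
        (eb S (2 * r) + 8 * r / P * Real.exp (Mu S)) + (K : ℝ) ^ ((4 : ℝ) / 5) := by
  refine ⟨20, by norm_num, 32, ?_⟩
  intro K hK a q P r S hq haq hP hr hS hSr hX
  have hK3 : (32:ℝ) ≤ K := by exact_mod_cast hK
  have hK0 : (0:ℝ) < K := by linarith
  set X := Real.log ((a : ℝ) + q * K) with hXdef
  set T : ℝ := (K : ℝ) ^ ((1 : ℝ) / 20) with hT
  set D := ⌊T⌋₊ with hD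
  set G := Gs D q with hG
  set E := eb S (2 * r) + 8 * r / P * Real.exp (Mu S) with hE
  have hE0 : 0 ≤ E := by
    have h1 := eb_nonneg S (2 * r)
    have h2 : 0 ≤ 8 * (r:ℝ) / P * Real.exp (Mu S) := by positivity
    rw [hE]
    linarith
  have hqR : (1:ℝ) ≤ q := by exact_mod_cast hq
  -- facts on T and D
  have hT1 : 1 ≤ T := Real.one_le_rpow (by linarith) (by norm_num)
  have hT0 : 0 < T := by linarith
  have hT20 : T ^ 20 = K := by
    rw [hT, ← Real.rpow_natCast, ← Real.rpow_mul hK0.le]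
    norm_num
  have hT2 : (K : ℝ) ^ ((1 : ℝ) / 10) = T ^ 2 := by
    rw [hT, ← Real.rpow_natCast, ← Real.rpow_mul hK0.le]
    norm_num
  have hT16 : (K : ℝ) ^ ((4 : ℝ) / 5) = T ^ 16 := by
    rw [hT, ← Real.rpow_natCast, ← Real.rpow_mul hK0.le]
    norm_num
  rw [hT2] at hX hSr
  rw [hT16]
  have hT4 : 2 ≤ T ^ 4 := by
    by_contra hlt
    have h1 : T ^ 4 < 2 := not_le.1 hlt
    have h2 : (T ^ 4) ^ 5 < 2 ^ 5 := pow_lt_pow_left₀ h1 (by positivity) (by norm_num)
    have h3 : (T ^ 4) ^ 5 = T ^ 20 := by ring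
    rw [h3, hT20] at h2
    norm_num at h2
    linarith
  have hT8 : 4 ≤ T ^ 8 := by
    have h1 : T ^ 8 = T ^ 4 * T ^ 4 := by ring
    rw [h1]
    nlinarith
  have hDT : (D : ℝ) ≤ T := Nat.floor_le hT0.le
  have hTD : T < (D : ℝ) + 1 := Nat.lt_floor_add_one T
  have hD1 : 1 ≤ D := by
    rw [hD, Nat.one_le_floor_iff]
    exact hT1
  -- log K
  have hlogK : 0 < Real.log K := Real.log_pos (by linarith)
  have hXK : Real.log K ≤ X := by
    apply Real.log_le_log hK0
    have h1 : (0:ℝ) ≤ a := Nat.cast_nonneg _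
    nlinarith
  have hX0 : 0 < X := by linarith
  have hlogT : Real.log T = Real.log K / 20 := by
    rw [hT, Real.log_rpow hK0]
    ring
  have hG1 : 1 ≤ G := Pool.Agent.H87.WL.gs_one_le D q hD1
  have hG0 : 0 < G := by linarith
  have hlogn : ∀ k ∈ Icc 1 K, Real.log ((a + q * k : ℕ) : ℝ) ≤ X := by
    intro k hk
    rw [mem_Icc] at hk
    have h1 : 0 < a + q * k := by
      have : 0 < q * k := Nat.mul_pos (by omega) (by omega)
      omega
    apply Real.log_le_log (by exact_mod_cast h1)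
    push_cast
    have h2 : (k:ℝ) ≤ K := by exact_mod_cast hk.2
    nlinarith
  have hLam : ∀ k ∈ Icc 1 K, Lam (a + q * k) ≤ X := fun k hk =>
    (ArithmeticFunction.vonMangoldt_le_log).trans (hlogn k hk)
  have hsub : rS S K ⊆ Icc 1 K := by
    unfold rS
    exact filter_subset _ _
  -- the termwise bound
  have hterm : ∀ k ∈ rS S K, Lam (a + q * k) ≤
      (if Lam (a + q * k) ≠ 0 ∧ (a + q * k).minFac ≤ D then X else 0) +
      X / G ^ 2 * Ps D q (a + q * k) ^ 2 := by
    intro k hk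
    have hk1 := hsub hk
    have hg : 0 ≤ X / G ^ 2 * Ps D q (a + q * k) ^ 2 := by positivity
    split_ifs with hc
    · have h1 := hLam k hk1
      linarith
    · by_cases h0 : Lam (a + q * k) = 0
      · rw [h0, zero_add]
        exact hg
      · have h1 : D < (a + q * k).minFac := by
          by_contra h2
          exact hc ⟨h0, by omega⟩
        have h2 := Pool.Agent.H87.WL.ps_pp D q (a + q * k) h0 h1
        rw [h2, zero_add, ← hG]
        have h3 : X / G ^ 2 * G ^ 2 = X := by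
          field_simp
        rw [h3]
        exact hLam k hk1
  have hsum := sum_le_sum hterm
  rw [sum_add_distrib, ← mul_sum] at hsum
  -- part 1
  have hpart1 : ∑ k ∈ rS S K, (if Lam (a + q * k) ≠ 0 ∧ (a + q * k).minFac ≤ D
      then X else 0) ≤ 2 * T ^ 8 := by
    have h0 : ∑ k ∈ rS S K, (if Lam (a + q * k) ≠ 0 ∧ (a + q * k).minFac ≤ D
      then X else 0) ≤ ∑ k ∈ Icc 1 K, (if Lam (a + q * k) ≠ 0 ∧ (a + q * k).minFac ≤ D
      then X else 0) := by
      apply sum_le_sum_of_subset_of_nonneg hsub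
      intro k _ _
      split_ifs
      · exact hX0.le
      · exact le_rfl
    refine h0.trans ?_
    rw [← sum_filter, sum_const, nsmul_eq_mul]
    have h1 := RghL_count a q K D X hq hX0.le hlogn
    calc _ ≤ (D * (2 * X)) * X := mul_le_mul_of_nonneg_right h1 hX0.le
      _ = 2 * ((D:ℝ) * (X * X)) := by ring
      _ ≤ 2 * (T * (T ^ 2 * T ^ 2)) := by
          apply mul_le_mul_of_nonneg_left _ (by norm_num)
          exact mul_le_mul hDT (mul_le_mul hX hX hX0.le (by positivity)) (by positivity) hT0.le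
      _ = 2 * T ^ 5 := by ring
      _ ≤ 2 * T ^ 8 := by
          apply mul_le_mul_of_nonneg_left _ (by norm_num)
          exact pow_le_pow_right₀ hT1 (by norm_num)
  -- part 2
  have hsel := sel_rough D q a K P r S hq haq hP hS hr
  rw [← hG, ← hE] at hsel
  have hpart2 := mul_le_mul_of_nonneg_left hsel (show 0 ≤ X / G ^ 2 by positivity)
  have hphi : (0:ℝ) < q.totient := by exact_mod_cast Nat.totient_pos.2 hq
  have hq0 : (0:ℝ) < q := by linarith
  have hGge : (q.totient : ℝ) / q * (Real.log K / 20) ≤ G := by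
    refine le_trans ?_ (Pool.Agent.H87.WL.gs_ge D q hq)
    apply mul_le_mul_of_nonneg_left _ (by positivity)
    rw [← hlogT]
    exact Real.log_le_log hT0 hTD.le
  have hinv : 1 / G ≤ 20 * ((q:ℝ) / q.totient) / Real.log K := by
    rw [div_le_iff₀ hG0]
    have h1 : 20 * ((q:ℝ) / q.totient) / Real.log K * ((q.totient : ℝ) / q * (Real.log K / 20))
        = 1 := by
      field_simp
    calc (1:ℝ) = 20 * ((q:ℝ) / q.totient) / Real.log K *
          ((q.totient : ℝ) / q * (Real.log K / 20)) := h1.symm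
      _ ≤ 20 * ((q:ℝ) / q.totient) / Real.log K * G :=
          mul_le_mul_of_nonneg_left hGge (by positivity)
  have hA : X / G ^ 2 * (K * G * E) ≤
      20 * (X / Real.log K) * (K * ((q : ℝ) / q.totient)) * E := by
    have h1 : X / G ^ 2 * (K * G * E) = (X * K * E) * (1 / G) := by
      field_simp
    rw [h1]
    calc (X * K * E) * (1 / G) ≤ (X * K * E) * (20 * ((q:ℝ) / q.totient) / Real.log K) :=
          mul_le_mul_of_nonneg_left hinv (by positivity)
      _ = 20 * (X / Real.log K) * (K * ((q : ℝ) / q.totient)) * E := by ring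
  have hB : X / G ^ 2 * (2 * (D : ℝ) ^ 4 * ((S.card : ℝ) + 1) ^ (2 * r)) ≤ 2 * T ^ 8 := by
    have h1 : X / G ^ 2 ≤ X := by
      apply div_le_self hX0.le
      exact one_le_pow₀ hG1
    have h2 : (D:ℝ) ^ 4 ≤ T ^ 4 := pow_le_pow_left₀ (by positivity) hDT 4
    calc X / G ^ 2 * (2 * (D : ℝ) ^ 4 * ((S.card : ℝ) + 1) ^ (2 * r))
        ≤ T ^ 2 * (2 * T ^ 4 * T ^ 2) := by
          apply mul_le_mul (h1.trans hX) _ (by positivity) (by positivity)
          exact mul_le_mul (mul_le_mul_of_nonneg_left h2 (by norm_num)) hSr (by positivity)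
            (by positivity)
      _ = 2 * T ^ 8 := by ring
  have hsplit : X / G ^ 2 * (K * G * E + 2 * (D : ℝ) ^ 4 * ((S.card : ℝ) + 1) ^ (2 * r)) =
      X / G ^ 2 * (K * G * E) + X / G ^ 2 * (2 * (D : ℝ) ^ 4 * ((S.card : ℝ) + 1) ^ (2 * r)) := by
    ring
  rw [hsplit] at hpart2
  have hT16' : 4 * T ^ 8 ≤ T ^ 16 := by
    have h1 : T ^ 16 = T ^ 8 * T ^ 8 := by ring
    rw [h1]
    exact mul_le_mul_of_nonneg_right hT8 (by positivity)
  linarith

end Pool.Agent.H35.U
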