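import Pool.Agent.H35.U.Bonf
import Pool.Agent.H87.WL.Sel4

/-!
# U SelD: the diagonal form `Sd D q d` for `d` a product of large primes

Let `d = pr T`, all `p ∈ T` prime, `p > P`, `p ∤ q`, `t = |T|`, `2t ≤ P`.
* Lower bound: `Ad d y ≥ 1` for `y ≥ 1` (term `e = 1`), so `Sd D q d ≥ Gs D (q d)`; iterating
  `gs_cop` (`(1-1/p) Gs D q ≤ Gs D (q p)`, `p ∤ q`) over the elements of `T`:
  `Gs D (q d) ≥ ∏ (1-1/p) Gs D q ≥ (1 - t/P) Gs D q`.
* Upper bound: `Ad d y ≤ ∑_{e ∣ d} μ²(e)/φ(e) = ∏ p/(p-1) ≤ (1+1/P)^t` (or induction on `T`: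
  `Ad (d p) y ≤ (1 + 1/(p-1)) Ad'`, see the private lemmas `sel4_ad_prime`, `sel4_ad_two`, `sel4_sd_le` of
  `WL.Sel4`), so `Sd D q d ≤ (1+1/P)^(2t) Gs D q ≤ exp(2t/P) Gs ≤ (1+4t/P) Gs` as `2t/P ≤ 1`.
-/

set_option autoImplicit false

namespace Pool.Agent.H35.U

open Finset
open Pool.Agent.H87.WL (PP PPc Mu Om gR Ps Gs Sd Td Ad mo)

private lemma selD_nn (e : ℕ) : 0 ≤ mo e ^ 2 / (e.totient : ℝ) := by positivity

private lemma selD_gs_nn (D q : ℕ) : 0 ≤ Gs D q := sum_nonneg fun e _ => selD_nn e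

private lemma selD_ad_nn (d y : ℕ) : 0 ≤ Ad d y := sum_nonneg fun e _ => selD_nn e

private lemma selD_val_one : mo 1 ^ 2 / ((1 : ℕ).totient : ℝ) = 1 := by simp [mo]

private lemma selD_ad_ge {d y : ℕ} (hd : d ≠ 0) (hy : 1 ≤ y) : 1 ≤ Ad d y := by
  have h1 : (1 : ℕ) ∈ d.divisors.filter (fun e => e ≤ y) := by
    rw [mem_filter]
    exact ⟨Nat.one_mem_divisors.2 hd, hy⟩
  have h2 : mo 1 ^ 2 / ((1 : ℕ).totient : ℝ) ≤ Ad d y :=
    single_le_sum (f := fun e : ℕ => mo e ^ 2 / (e.totient : ℝ)) (fun e _ => selD_nn e) h1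
  rwa [selD_val_one] at h2

private lemma selD_mono (D q m : ℕ) : Gs D (q * m) ≤ Gs D q := by
  unfold Gs
  refine sum_le_sum_of_subset_of_nonneg ?_ fun e _ _ => selD_nn e
  intro l hl
  rw [mem_filter] at hl ⊢
  exact ⟨hl.1, Nat.Coprime.coprime_mul_right_right hl.2⟩

private lemma selD_sd_le (D q d : ℕ) (c : ℝ) (h : ∀ y, Ad d y ≤ c) : Sd D q d ≤ c ^ 2 * Gs D q := by
  have h1 : Sd D q d ≤ c ^ 2 * Gs D (q * d) := by
    unfold Sd Gs
    rw [mul_sum]
    refine sum_le_sum fun l _ => ?_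
    have h2 : Ad d (D / l) ^ 2 ≤ c ^ 2 := pow_le_pow_left₀ (selD_ad_nn _ _) (h _) 2
    calc mo l ^ 2 / (l.totient : ℝ) * Ad d (D / l) ^ 2 ≤ mo l ^ 2 / (l.totient : ℝ) * c ^ 2 :=
          mul_le_mul_of_nonneg_left h2 (selD_nn l)
      _ = c ^ 2 * (mo l ^ 2 / (l.totient : ℝ)) := mul_comm _ _
  exact h1.trans (mul_le_mul_of_nonneg_left (selD_mono D q d) (sq_nonneg c))

private lemma selD_gs_le_sd (D q d : ℕ) (hd : d ≠ 0) : Gs D (q * d) ≤ Sd D q d := by
  unfold Gs Sd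
  refine sum_le_sum fun l hl => ?_
  rw [mem_filter, mem_Icc] at hl
  have h1 : 1 ≤ Ad d (D / l) := selD_ad_ge hd (Nat.div_pos hl.1.2 hl.1.1)
  have h2 : 1 ≤ Ad d (D / l) ^ 2 := one_le_pow₀ h1
  calc mo l ^ 2 / (l.totient : ℝ) = mo l ^ 2 / (l.totient : ℝ) * 1 := (mul_one _).symm
    _ ≤ mo l ^ 2 / (l.totient : ℝ) * Ad d (D / l) ^ 2 := mul_le_mul_of_nonneg_left h2 (selD_nn l)

private lemma selD_not_dvd {p : ℕ} (hp : p.Prime) (T : Finset ℕ) (hT : ∀ r ∈ T, r.Prime) (hpT : p ∉ T) :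
    ¬ p ∣ pr T := by
  intro h
  unfold pr at h
  obtain ⟨r, hr, hpr⟩ := (hp.prime.dvd_finset_prod_iff _).1 h
  have := (Nat.prime_dvd_prime_iff_eq hp (hT r hr)).1 hpr
  exact hpT (this ▸ hr)

private lemma selD_pr_ne {T : Finset ℕ} (hT : ∀ r ∈ T, r.Prime) : pr T ≠ 0 := by
  unfold pr
  exact prod_ne_zero_iff.2 fun r hr => (hT r hr).ne_zero

private lemma selD_low (D q P : ℕ) (hP : 1 ≤ P) (T : Finset ℕ) :
    (∀ p ∈ T, p.Prime ∧ P < p ∧ ¬ p ∣ q) →
      (1 - (T.card : ℝ) / P) * Gs D q ≤ Gs D (q * pr T) := by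
  classical
  induction T using Finset.induction_on with
  | empty => intro _; simp [pr]
  | insert p T hp ih =>
    intro hT
    have hTT : ∀ r ∈ T, r.Prime ∧ P < r ∧ ¬ r ∣ q := fun r hr => hT r (mem_insert_of_mem hr)
    obtain ⟨hpp, hPp, hpq⟩ := hT p (mem_insert_self _ _)
    have ih' := ih hTT
    have hnd : ¬ p ∣ q * pr T := by
      intro h
      rcases (hpp.dvd_mul).1 h with h | h
      · exact hpq h
      · exact selD_not_dvd hpp T (fun r hr => (hTT r hr).1) hp h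
    have h1 := Pool.Agent.H87.WL.gs_cop D (q * pr T) p hpp hnd
    have h2 : q * pr (insert p T) = q * pr T * p := by
      unfold pr
      rw [prod_insert hp]
      ring
    rw [h2, card_insert_of_notMem hp]
    refine le_trans ?_ h1
    have hP0 : (0 : ℝ) < P := by exact_mod_cast hP
    have hp0 : (P : ℝ) < p := by exact_mod_cast hPp
    have hp1 : 1 / (p : ℝ) ≤ 1 / P := one_div_le_one_div_of_le hP0 hp0.le
    have hp2 : (1 : ℝ) / P ≤ 1 := by
      rw [div_le_one hP0]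
      exact_mod_cast hP
    have hp3 : (0 : ℝ) ≤ 1 / (p : ℝ) := by positivity
    have hG := selD_gs_nn D q
    have h3 : (1 - 1 / (p : ℝ)) * ((1 - (T.card : ℝ) / P) * Gs D q) ≤
        (1 - 1 / (p : ℝ)) * Gs D (q * pr T) :=
      mul_le_mul_of_nonneg_left ih' (by linarith)
    refine le_trans ?_ h3
    rw [← mul_assoc]
    refine mul_le_mul_of_nonneg_right ?_ hG
    have h4 : (0 : ℝ) ≤ 1 / (p : ℝ) * ((T.card : ℝ) / P) := by positivity
    have h5 : (((T.card + 1 : ℕ) : ℝ)) / P = (T.card : ℝ) / P + 1 / P := by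
      push_cast
      ring
    rw [h5]
    nlinarith

private lemma selD_sum (T : Finset ℕ) (P : ℕ) (hP : 1 ≤ P) :
    (∀ p ∈ T, p.Prime ∧ P < p) →
      ∑ e ∈ (pr T).divisors, mo e ^ 2 / (e.totient : ℝ) ≤ (1 + 1 / (P : ℝ)) ^ T.card := by
  classical
  induction T using Finset.induction_on with
  | empty =>
    intro _
    simp [pr, mo]
  | insert p T hp ih =>
    intro hT
    have hTT : ∀ r ∈ T, r.Prime ∧ P < r := fun r hr => hT r (mem_insert_of_mem hr)
    obtain ⟨hpp, hPp⟩ := hT p (mem_insert_self _ _)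
    have ih' := ih hTT
    have hnd : ¬ p ∣ pr T := selD_not_dvd hpp T (fun r hr => (hTT r hr).1) hp
    have hne : pr T ≠ 0 := selD_pr_ne fun r hr => (hTT r hr).1
    have h2 : pr (insert p T) = p * pr T := by
      unfold pr
      rw [prod_insert hp]
    set f : ℕ → ℝ := fun e => mo e ^ 2 / (e.totient : ℝ) with hf
    have hfn : ∀ e, 0 ≤ f e := fun e => selD_nn e
    have hP0 : (0 : ℝ) < P := by exact_mod_cast hP
    have hp0 : (P : ℝ) + 1 ≤ p := by exact_mod_cast hPp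
    have htp : ((p.totient : ℕ) : ℝ) = (p : ℝ) - 1 := by
      rw [Nat.totient_prime hpp, Nat.cast_sub hpp.one_lt.le, Nat.cast_one]
    have h3 : ∀ e ∈ (pr T).divisors, f (p * e) ≤ 1 / (P : ℝ) * f e := by
      intro e he
      have hpe : Nat.Coprime p e := by
        rw [Nat.Prime.coprime_iff_not_dvd hpp]
        intro h
        exact hnd (h.trans (Nat.dvd_of_mem_divisors he))
      have h4 : mo (p * e) = - mo e := by
        unfold mo
        rw [ArithmeticFunction.isMultiplicative_moebius.map_mul_of_coprime hpe,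
          ArithmeticFunction.moebius_apply_prime hpp]
        push_cast
        ring
      have h5 : f (p * e) = 1 / ((p : ℝ) - 1) * f e := by
        simp only [hf]
        rw [h4, Nat.totient_mul hpe, Nat.cast_mul, htp, neg_sq, one_div, div_eq_mul_inv, mul_inv,
          div_eq_mul_inv]
        ring
      rw [h5]
      refine mul_le_mul_of_nonneg_right ?_ (hfn e)
      exact one_div_le_one_div_of_le hP0 (by linarith)
    have hsub : (pr (insert p T)).divisors ⊆ (pr T).divisors ∪ ((pr T).divisors).image (fun e => p * e) := by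
      intro e he
      rw [h2, Nat.mem_divisors] at he
      rw [mem_union, mem_image]
      by_cases hpe : p ∣ e
      · right
        obtain ⟨m, rfl⟩ := hpe
        exact ⟨m, Nat.mem_divisors.2 ⟨Nat.dvd_of_mul_dvd_mul_left hpp.pos he.1, hne⟩, rfl⟩
      · left
        refine Nat.mem_divisors.2 ⟨?_, hne⟩
        exact Nat.Coprime.dvd_of_dvd_mul_left ((Nat.Prime.coprime_iff_not_dvd hpp).2 hpe).symm he.1
    calc ∑ e ∈ (pr (insert p T)).divisors, f e
        ≤ ∑ e ∈ (pr T).divisors ∪ ((pr T).divisors).image (fun e => p * e), f e :=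
          sum_le_sum_of_subset_of_nonneg hsub fun e _ _ => hfn e
      _ ≤ ∑ e ∈ (pr T).divisors, f e + ∑ e ∈ ((pr T).divisors).image (fun e => p * e), f e := by
          rw [← sum_union_inter]
          have : 0 ≤ ∑ e ∈ (pr T).divisors ∩ ((pr T).divisors).image (fun e => p * e), f e :=
            sum_nonneg fun e _ => hfn e
          linarith
      _ = ∑ e ∈ (pr T).divisors, f e + ∑ e ∈ (pr T).divisors, f (p * e) := by
          rw [sum_image fun a _ b _ hab => Nat.eq_of_mul_eq_mul_left hpp.pos hab]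
      _ ≤ ∑ e ∈ (pr T).divisors, f e + ∑ e ∈ (pr T).divisors, 1 / (P : ℝ) * f e :=
          add_le_add le_rfl (sum_le_sum h3)
      _ = (1 + 1 / (P : ℝ)) * ∑ e ∈ (pr T).divisors, f e := by
          rw [← mul_sum]
          ring
      _ ≤ (1 + 1 / (P : ℝ)) * (1 + 1 / (P : ℝ)) ^ T.card :=
          mul_le_mul_of_nonneg_left ih' (by positivity)
      _ = (1 + 1 / (P : ℝ)) ^ (insert p T).card := by
          rw [card_insert_of_notMem hp, pow_succ]
          ring

theorem sd_near (D q P : ℕ) (T : Finset ℕ) (hP : 1 ≤ P)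
    (hT : ∀ p ∈ T, p.Prime ∧ P < p ∧ ¬ p ∣ q) (hc : 2 * T.card ≤ P) :
    |Sd D q (pr T) - Gs D q| ≤ 4 * T.card / P * Gs D q := by
  have hP0 : (0 : ℝ) < P := by exact_mod_cast hP
  have hG := selD_gs_nn D q
  have ht0 : (0 : ℝ) ≤ (T.card : ℝ) / P := by positivity
  have hlow : (1 - (T.card : ℝ) / P) * Gs D q ≤ Sd D q (pr T) :=
    (selD_low D q P hP T hT).trans (selD_gs_le_sd D q (pr T) (selD_pr_ne fun r hr => (hT r hr).1))
  have hup : Sd D q (pr T) ≤ ((1 + 1 / (P : ℝ)) ^ T.card) ^ 2 * Gs D q := by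
    refine selD_sd_le D q (pr T) _ fun y => ?_
    refine le_trans ?_ (selD_sum T P hP fun p hp => ⟨(hT p hp).1, (hT p hp).2.1⟩)
    unfold Ad
    exact sum_le_sum_of_subset_of_nonneg (filter_subset _ _) fun e _ _ => selD_nn e
  have hx1 : 2 * ((T.card : ℝ) / P) ≤ 1 := by
    rw [← mul_div_assoc, div_le_one hP0]
    exact_mod_cast hc
  have hexp : ((1 + 1 / (P : ℝ)) ^ T.card) ^ 2 ≤ 1 + 4 * ((T.card : ℝ) / P) := by
    set x : ℝ := 2 * ((T.card : ℝ) / P) with hx
    have hx0 : 0 ≤ x := by positivity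
    have h1 : ((1 + 1 / (P : ℝ)) ^ T.card) ^ 2 ≤ Real.exp x := by
      have h2 : (1 + 1 / (P : ℝ)) ≤ Real.exp (1 / (P : ℝ)) := by
        have := Real.add_one_le_exp (1 / (P : ℝ))
        linarith
      calc ((1 + 1 / (P : ℝ)) ^ T.card) ^ 2 = (1 + 1 / (P : ℝ)) ^ (T.card * 2) := by rw [pow_mul]
        _ ≤ Real.exp (1 / (P : ℝ)) ^ (T.card * 2) := pow_le_pow_left₀ (by positivity) h2 _
        _ = Real.exp x := by
            rw [← Real.exp_nat_mul]
            congr 1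
            rw [hx]
            push_cast
            ring
    have h3 : Real.exp x ≤ 1 + 2 * x := by
      have h4 := Real.abs_exp_sub_one_sub_id_le (x := x) (by rw [abs_of_nonneg hx0]; exact hx1)
      have h5 := (abs_le.1 h4).2
      nlinarith
    calc ((1 + 1 / (P : ℝ)) ^ T.card) ^ 2 ≤ Real.exp x := h1
      _ ≤ 1 + 2 * x := h3
      _ = 1 + 4 * ((T.card : ℝ) / P) := by rw [hx]; ring
  have hup2 : Sd D q (pr T) ≤ (1 + 4 * ((T.card : ℝ) / P)) * Gs D q :=
    hup.trans (mul_le_mul_of_nonneg_right hexp hG)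
  have he : 4 * (T.card : ℝ) / P * Gs D q = 4 * ((T.card : ℝ) / P) * Gs D q := by ring
  rw [he, abs_le]
  constructor
  · nlinarith [mul_nonneg ht0 hG]
  · nlinarith

end Pool.Agent.H35.U
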