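import Pool.Agent.H35.U.SelD
import Pool.Agent.H87.WL.Sel2
import Pool.Agent.H87.WL.Sel3

/-!
# U SelR: Selberg's weight on the rough integers `k`

`∑_{k ≤ K, no p ∈ S divides k} Ps² ≤ ∑_{T ∈ sb S (2r)} (-1)^|T| Td D q a (pr T) K` (`bonf_upper`, `Ps² ≥ 0`;
`Td D q a d K = ∑_{k ≤ K, d ∣ k} Ps²`).  `td_qf` and `qf_eq`: `|Td - (K/d) Sd D q d| ≤ 2 D⁴`
(`d = pr T` is coprime to `a q` because no `p ∈ S` divides `a q`).  So the right side is at most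
`K ∑_T (-1)^|T| Gs/pr T + K ∑_T |Sd - Gs|/pr T + 2 D⁴ #(sb S (2r))`, use `bonf_mu`, `sd_near`
(`|T| ≤ 2r`, `2|T| ≤ 4r ≤ P`, so `|Sd - Gs| ≤ 8r/P Gs`), `sb_inv`, `sb_card`.
-/

set_option autoImplicit false

namespace Pool.Agent.H35.U

open Finset
open Pool.Agent.H87.WL (PP PPc Mu Om gR Ps Gs Sd Td Qf)

private theorem SelR_gs_nonneg (D q : ℕ) : 0 ≤ Gs D q := by
  unfold Gs
  exact sum_nonneg fun h _ => by positivity

private theorem SelR_one (S : Finset ℕ) (hSp : ∀ p ∈ S, p.Prime) (D q a K r : ℕ) :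
    ∑ k ∈ rS S K, Ps D q (a + q * k) ^ 2 ≤
      ∑ T ∈ sb S (2 * r), (-1 : ℝ) ^ T.card * Td D q a (pr T) K := by
  have e1 : ∑ k ∈ rS S K, Ps D q (a + q * k) ^ 2 =
      ∑ k ∈ Icc 1 K, (if ∀ p ∈ S, ¬ p ∣ k then (1 : ℝ) else 0) * Ps D q (a + q * k) ^ 2 := by
    unfold rS
    rw [sum_filter]
    refine sum_congr rfl fun k _ => ?_
    split_ifs <;> simp
  have e2 : ∑ T ∈ sb S (2 * r), (-1 : ℝ) ^ T.card * Td D q a (pr T) K =
      ∑ k ∈ Icc 1 K, (∑ T ∈ sb S (2 * r), (-1 : ℝ) ^ T.card * (if pr T ∣ k then 1 else 0)) *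
        Ps D q (a + q * k) ^ 2 := by
    simp_rw [sum_mul]
    rw [sum_comm]
    refine sum_congr rfl fun T _ => ?_
    unfold Td
    rw [sum_filter, mul_sum]
    refine sum_congr rfl fun k _ => ?_
    split_ifs <;> ring
  rw [e1, e2]
  exact sum_le_sum fun k _ =>
    mul_le_mul_of_nonneg_right (bonf_upper S hSp r k) (sq_nonneg (Ps D q (a + q * k)))

theorem sel_rough (D q a K P r : ℕ) (S : Finset ℕ) (hq : 1 ≤ q) (haq : Nat.Coprime a q)
    (hP : 1 ≤ P) (hS : ∀ p ∈ S, p.Prime ∧ P < p ∧ ¬ p ∣ a * q) (hr : 4 * r ≤ P) :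
    ∑ k ∈ rS S K, Ps D q (a + q * k) ^ 2 ≤
      K * Gs D q * (eb S (2 * r) + 8 * r / P * Real.exp (Mu S)) +
        2 * (D : ℝ) ^ 4 * ((S.card : ℝ) + 1) ^ (2 * r) := by
  have hSp : ∀ p ∈ S, p.Prime := fun p hp => (hS p hp).1
  have hG := SelR_gs_nonneg D q
  have hP0 : (0 : ℝ) < P := by exact_mod_cast hP
  have hK0 : (0 : ℝ) ≤ K := Nat.cast_nonneg K
  have h2 : ∀ T ∈ sb S (2 * r), (-1 : ℝ) ^ T.card * Td D q a (pr T) K ≤
      (K : ℝ) * Gs D q * ((-1 : ℝ) ^ T.card / (pr T : ℝ)) +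
        (K : ℝ) * Gs D q * (8 * r / P) * (1 / (pr T : ℝ)) + 2 * (D : ℝ) ^ 4 := by
    intro T hT
    rw [mem_sb] at hT
    obtain ⟨hTS, hTc⟩ := hT
    have hd := pr_pos S hSp T hTS
    have hcopq : Nat.Coprime (pr T) (a * q) := by
      unfold pr
      exact Nat.Coprime.prod_left fun p hp =>
        (Nat.Prime.coprime_iff_not_dvd (hS p (hTS hp)).1).2 (hS p (hTS hp)).2.2
    have hca : Nat.Coprime (pr T) a := Nat.Coprime.coprime_mul_right_right hcopq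
    have hcq : Nat.Coprime (pr T) q := Nat.Coprime.coprime_mul_left_right hcopq
    have h3 := Pool.Agent.H87.WL.td_qf D q a (pr T) K hq hd
      (Nat.Coprime.mul_right haq hca.symm)
    rw [Pool.Agent.H87.WL.qf_eq D q (pr T) hq hd hcq] at h3
    have h4 := sd_near D q P T hP (fun p hp => ⟨(hS p (hTS hp)).1, (hS p (hTS hp)).2.1,
      fun h => (hS p (hTS hp)).2.2 (h.mul_left a)⟩) (by omega)
    have hd0 : (0 : ℝ) < (pr T : ℝ) := by exact_mod_cast hd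
    have hTr : (T.card : ℝ) ≤ 2 * r := by exact_mod_cast hTc
    have h5 : |Sd D q (pr T) - Gs D q| ≤ 8 * r / P * Gs D q := by
      refine h4.trans ?_
      refine mul_le_mul_of_nonneg_right ?_ hG
      rw [div_le_div_iff_of_pos_right hP0]
      linarith
    have hs : |(-1 : ℝ) ^ T.card| = 1 := by
      rw [abs_pow, abs_neg, abs_one, one_pow]
    have h6 : (-1 : ℝ) ^ T.card * (Td D q a (pr T) K - (K : ℝ) / (pr T : ℝ) * Sd D q (pr T)) ≤
        2 * (D : ℝ) ^ 4 := by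
      refine (le_abs_self _).trans ?_
      rw [abs_mul, hs, one_mul]
      exact h3
    have h7 : (-1 : ℝ) ^ T.card * ((K : ℝ) / (pr T : ℝ) * (Sd D q (pr T) - Gs D q)) ≤
        (K : ℝ) / (pr T : ℝ) * (8 * r / P * Gs D q) := by
      refine (le_abs_self _).trans ?_
      rw [abs_mul, hs, one_mul, abs_mul, abs_of_nonneg (div_nonneg hK0 hd0.le)]
      exact mul_le_mul_of_nonneg_left h5 (div_nonneg hK0 hd0.le)
    have e : (-1 : ℝ) ^ T.card * Td D q a (pr T) K =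
        (-1 : ℝ) ^ T.card * (Td D q a (pr T) K - (K : ℝ) / (pr T : ℝ) * Sd D q (pr T)) +
        (-1 : ℝ) ^ T.card * ((K : ℝ) / (pr T : ℝ) * (Sd D q (pr T) - Gs D q)) +
        (K : ℝ) * Gs D q * ((-1 : ℝ) ^ T.card / (pr T : ℝ)) := by ring
    have e' : (K : ℝ) / (pr T : ℝ) * (8 * r / P * Gs D q) =
        (K : ℝ) * Gs D q * (8 * r / P) * (1 / (pr T : ℝ)) := by ring
    rw [e]
    linarith
  have h8 := (le_abs_self _).trans (bonf_mu S hSp (2 * r))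
  have h9 := sb_inv S hSp (2 * r)
  have h10 := sb_card S (2 * r)
  have hKG : 0 ≤ (K : ℝ) * Gs D q := mul_nonneg hK0 hG
  have hc : 0 ≤ (K : ℝ) * Gs D q * (8 * r / P) := mul_nonneg hKG (by positivity)
  calc ∑ k ∈ rS S K, Ps D q (a + q * k) ^ 2
      ≤ ∑ T ∈ sb S (2 * r), (-1 : ℝ) ^ T.card * Td D q a (pr T) K :=
        SelR_one S hSp D q a K r
    _ ≤ ∑ T ∈ sb S (2 * r), ((K : ℝ) * Gs D q * ((-1 : ℝ) ^ T.card / (pr T : ℝ)) +
        (K : ℝ) * Gs D q * (8 * r / P) * (1 / (pr T : ℝ)) + 2 * (D : ℝ) ^ 4) := sum_le_sum h2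
    _ = (K : ℝ) * Gs D q * ∑ T ∈ sb S (2 * r), (-1 : ℝ) ^ T.card / (pr T : ℝ) +
        (K : ℝ) * Gs D q * (8 * r / P) * ∑ T ∈ sb S (2 * r), 1 / (pr T : ℝ) +
        2 * (D : ℝ) ^ 4 * ((sb S (2 * r)).card : ℝ) := by
          rw [sum_add_distrib, sum_add_distrib, ← mul_sum, ← mul_sum, sum_const, nsmul_eq_mul]
          ring
    _ ≤ (K : ℝ) * Gs D q * eb S (2 * r) +
        (K : ℝ) * Gs D q * (8 * r / P) * Real.exp (Mu S) +
        2 * (D : ℝ) ^ 4 * ((S.card : ℝ) + 1) ^ (2 * r) := by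
          have i1 := mul_le_mul_of_nonneg_left h8 hKG
          have i2 := mul_le_mul_of_nonneg_left h9 hc
          have i3 := mul_le_mul_of_nonneg_left h10 (show (0 : ℝ) ≤ 2 * (D : ℝ) ^ 4 by positivity)
          linarith
    _ = K * Gs D q * (eb S (2 * r) + 8 * r / P * Real.exp (Mu S)) +
        2 * (D : ℝ) ^ 4 * ((S.card : ℝ) + 1) ^ (2 * r) := by ring

end Pool.Agent.H35.U
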