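import Pool.Agent.H35.U.Defs
import Pool.Agent.H35.W.SqCount

/-!
# U TauM: moments of the divisor function

* `tau_pow`: `∑_{m ≤ n} τ(m)^j ≤ n F_j(n)`, `F_j(n) = ∑_{m ≤ n} τ(m)^j/m`.  `F_0(n) ≤ 1 + log n`;
  `F_{j+1}(n) ≤ F_j(n)^2` because `τ(m)^{j+1} = ∑_{ab=m} τ(ab)^j ≤ ∑_{ab=m} τ(a)^j τ(b)^j`
  (submultiplicativity of `τ`).  See `Pool/Agent/H70/EHC/Tau.lean` (private lemmas `tau_S`) for the same proof.
* `tw_sum`: `tw S m k ≤ 4^(Om S k)/2^m` (if `m < ω` then `2^ω = 4^ω/2^ω ≤ 4^ω/2^m`), `2^(Om S k) ≤ τ(k)`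
  (`Om S k ≤ k.primeFactors.card`, `2^ω(k) ≤ τ(k)`), so for `k ∣ l`: `tw S m k ≤ τ(l)^2/2^m`, the inner sum is
  `≤ τ(l)^3/2^m`, its square `≤ τ(l)^6/4^m`; `tau_pow` with `j = 6`, `2^6 = 64`.
* `sqs_sum`: the inner sum is `≤ τ(l)` if `l ∈ sqs P n` and `0` otherwise (`p^2 ∣ k ∣ l`), so by Cauchy-Schwarz
  the sum is `≤ (#(sqs P n) · ∑ τ^4)^(1/2) ≤ (n/P · n (1+log n)^16)^(1/2)`; `#(sqs P n) ≤ n/P` is
  `Pool.Agent.H35.W.sq_count`.
-/

set_option autoImplicit false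

namespace Pool.Agent.H35.U

open Finset
open Pool.Agent.H87.WL (PP PPc Mu Om)
open Pool.Agent.H35.W (sqs)

open scoped Pointwise in
private theorem TauM_mul_le (d e : ℕ) :
    (d * e).divisors.card ≤ d.divisors.card * e.divisors.card := by
  rw [Nat.divisors_mul]
  exact card_mul_le

private noncomputable def TauM_S (k n : ℕ) : ℝ := ∑ m ∈ Icc 1 n, (m.divisors.card : ℝ) ^ k / m

private theorem TauM_S_nonneg (k n : ℕ) : 0 ≤ TauM_S k n :=
  sum_nonneg fun _ _ => by positivity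

private theorem TauM_S_succ (k n : ℕ) : TauM_S (k + 1) n ≤ TauM_S k n ^ 2 := by
  obtain ⟨f, hf⟩ : ∃ f : ℕ × ℕ → ℝ, f = fun p => ((p.1.divisors.card : ℝ) ^ k / p.1) *
      ((p.2.divisors.card : ℝ) ^ k / p.2) := ⟨_, rfl⟩
  have hf0 : ∀ p, 0 ≤ f p := fun p => by rw [hf]; positivity
  have h1 : TauM_S k n ^ 2 = ∑ p ∈ Icc 1 n ×ˢ Icc 1 n, f p := by
    unfold TauM_S
    rw [sq, sum_mul_sum, sum_product, hf]
  have h2 : ∀ m ∈ Icc 1 n, (m.divisors.card : ℝ) ^ (k + 1) / m ≤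
      ∑ p ∈ ((Icc 1 n ×ˢ Icc 1 n).filter (fun p => p.1 * p.2 ∈ Icc 1 n)).filter
        (fun p => p.1 * p.2 = m), f p := by
    intro m hm
    have hm' := mem_Icc.1 hm
    have e1 : ((Icc 1 n ×ˢ Icc 1 n).filter (fun p => p.1 * p.2 ∈ Icc 1 n)).filter
        (fun p => p.1 * p.2 = m) = m.divisorsAntidiagonal := by
      ext p
      rw [mem_filter, mem_filter, mem_product, mem_Icc, mem_Icc, Nat.mem_divisorsAntidiagonal]
      constructor
      · rintro ⟨_, h⟩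
        exact ⟨h, by omega⟩
      · rintro ⟨h, _⟩
        have hp1 : 1 ≤ p.1 := Nat.one_le_iff_ne_zero.2 (by rintro h0; rw [h0, zero_mul] at h; omega)
        have hp2 : 1 ≤ p.2 := Nat.one_le_iff_ne_zero.2 (by rintro h0; rw [h0, mul_zero] at h; omega)
        have h3 : p.1 ≤ m := h ▸ Nat.le_mul_of_pos_right _ hp2
        have h4 : p.2 ≤ m := h ▸ Nat.le_mul_of_pos_left _ hp1
        exact ⟨⟨⟨⟨hp1, by omega⟩, ⟨hp2, by omega⟩⟩, h ▸ hm⟩, h⟩
    rw [e1]
    have e2 : (m.divisors.card : ℝ) = ∑ _p ∈ m.divisorsAntidiagonal, (1:ℝ) := by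
      rw [Nat.sum_divisorsAntidiagonal (fun _ _ => (1:ℝ))]
      simp
    have e3 : (m.divisors.card : ℝ) ^ (k + 1) / m =
        ∑ _p ∈ m.divisorsAntidiagonal, (m.divisors.card : ℝ) ^ k / m := by
      rw [← mul_one ((m.divisors.card : ℝ) ^ k / m), ← mul_sum, ← e2, pow_succ]
      ring
    rw [e3]
    refine sum_le_sum fun p hp => ?_
    rw [Nat.mem_divisorsAntidiagonal] at hp
    rw [hf]
    have h5 := TauM_mul_le p.1 p.2
    rw [hp.1] at h5
    have h6 : (m.divisors.card : ℝ) ≤ (p.1.divisors.card : ℝ) * (p.2.divisors.card : ℝ) := by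
      exact_mod_cast h5
    have h7 : (m : ℝ) = (p.1 : ℝ) * p.2 := by rw [← hp.1]; push_cast; rfl
    show (m.divisors.card : ℝ) ^ k / m ≤ ((p.1.divisors.card : ℝ) ^ k / p.1) *
      ((p.2.divisors.card : ℝ) ^ k / p.2)
    rw [div_mul_div_comm, ← mul_pow, ← h7]
    exact div_le_div_of_nonneg_right (pow_le_pow_left₀ (by positivity) h6 k) (by positivity)
  rw [h1]
  unfold TauM_S
  calc ∑ m ∈ Icc 1 n, (m.divisors.card : ℝ) ^ (k + 1) / m
      ≤ ∑ m ∈ Icc 1 n, ∑ p ∈ ((Icc 1 n ×ˢ Icc 1 n).filter (fun p => p.1 * p.2 ∈ Icc 1 n)).filter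
        (fun p => p.1 * p.2 = m), f p := sum_le_sum h2
    _ = ∑ p ∈ (Icc 1 n ×ˢ Icc 1 n).filter (fun p => p.1 * p.2 ∈ Icc 1 n), f p :=
        sum_fiberwise_of_maps_to (fun p hp => (mem_filter.1 hp).2) f
    _ ≤ ∑ p ∈ Icc 1 n ×ˢ Icc 1 n, f p :=
        sum_le_sum_of_subset_of_nonneg (filter_subset _ _) (fun p _ _ => hf0 p)

private theorem TauM_S_zero (n : ℕ) : TauM_S 0 n ≤ 1 + Real.log n := by
  have h := harmonic_le_one_add_log n
  refine le_trans (le_of_eq ?_) h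
  unfold TauM_S
  rw [harmonic_eq_sum_Icc]
  push_cast
  refine sum_congr rfl fun m _ => ?_
  rw [pow_zero, one_div]

private theorem TauM_S_pow (n k : ℕ) : TauM_S k n ≤ (1 + Real.log n) ^ (2 ^ k) := by
  induction k with
  | zero => simpa using TauM_S_zero n
  | succ k ih =>
    refine (TauM_S_succ k n).trans ?_
    rw [pow_succ 2 k, pow_mul]
    exact pow_le_pow_left₀ (TauM_S_nonneg k n) ih 2

/-- `2^ω(k) ≤ τ(k)`, for the primes of `S` only -/
private theorem TauM_two_pow_Om (S : Finset ℕ) (hS : ∀ p ∈ S, p.Prime) (k : ℕ) (hk : k ≠ 0) :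
    2 ^ Om S k ≤ k.divisors.card := by
  have h1 : Om S k ≤ k.primeFactors.card := by
    unfold Om
    refine card_le_card fun p hp => ?_
    rw [mem_filter] at hp
    exact Nat.mem_primeFactors.2 ⟨hS p hp.1, hp.2, hk⟩
  have h2 : 2 ^ k.primeFactors.card ≤ k.divisors.card := by
    rw [Nat.card_divisors hk, ← prod_const]
    refine prod_le_prod' fun p hp => ?_
    have h3 : 1 ≤ k.factorization p :=
      (Nat.prime_of_mem_primeFactors hp).factorization_pos_of_dvd hk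
        (Nat.dvd_of_mem_primeFactors hp)
    omega
  exact (Nat.pow_le_pow_right (by norm_num) h1).trans h2

private theorem TauM_tw (S : Finset ℕ) (hS : ∀ p ∈ S, p.Prime) (m k l : ℕ) (hl : l ≠ 0)
    (hk : k ∣ l) : tw S m k ≤ (l.divisors.card : ℝ) ^ 2 / 2 ^ m := by
  unfold tw
  split_ifs with h
  · have hk0 : k ≠ 0 := by rintro rfl; exact hl (Nat.eq_zero_of_zero_dvd hk)
    have h1 : (2:ℝ) ^ Om S k ≤ (l.divisors.card : ℝ) := by
      have h2 := (TauM_two_pow_Om S hS k hk0).trans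
        (card_le_card (Nat.divisors_subset_of_dvd hl hk))
      exact_mod_cast h2
    have h3 : (2:ℝ) ^ m ≤ 2 ^ Om S k := pow_le_pow_right₀ (by norm_num) h.le
    rw [le_div_iff₀ (by positivity), sq]
    exact mul_le_mul h1 (h3.trans h1) (by positivity) (by positivity)
  · positivity

private theorem TauM_sqi_le (P k : ℕ) : sqi P k ≤ 1 := by
  unfold sqi; split_ifs <;> norm_num

private theorem TauM_sqi_nonneg (P k : ℕ) : 0 ≤ sqi P k := by
  unfold sqi; split_ifs <;> norm_num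

theorem tau_pow (j n : ℕ) :
    ∑ m ∈ Icc 1 n, (m.divisors.card : ℝ) ^ j ≤ n * (1 + Real.log n) ^ (2 ^ j) := by
  have h1 : ∑ m ∈ Icc 1 n, (m.divisors.card : ℝ) ^ j ≤ n * TauM_S j n := by
    unfold TauM_S
    rw [mul_sum]
    refine sum_le_sum fun m hm => ?_
    have hm' := mem_Icc.1 hm
    have hm0 : (0:ℝ) < m := by exact_mod_cast hm'.1
    have hmn : (m:ℝ) ≤ n := by exact_mod_cast hm'.2
    rw [← mul_div_assoc, le_div_iff₀ hm0, mul_comm]
    exact mul_le_mul_of_nonneg_right hmn (by positivity)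
  exact h1.trans (mul_le_mul_of_nonneg_left (TauM_S_pow n j) (by positivity))

theorem tw_sum (S : Finset ℕ) (hS : ∀ p ∈ S, p.Prime) (m n : ℕ) :
    ∑ l ∈ Icc 1 n, (∑ k ∈ l.divisors, tw S m k) ^ 2 ≤ n * (1 + Real.log n) ^ 64 / 4 ^ m := by
  have h1 : ∀ l ∈ Icc 1 n, (∑ k ∈ l.divisors, tw S m k) ^ 2 ≤
      (l.divisors.card : ℝ) ^ 6 * (1 / 4 ^ m) := by
    intro l hl
    have hl0 : l ≠ 0 := by have := (mem_Icc.1 hl).1; omega
    have h2 : ∑ k ∈ l.divisors, tw S m k ≤ (l.divisors.card : ℝ) ^ 3 / 2 ^ m := by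
      calc ∑ k ∈ l.divisors, tw S m k ≤ ∑ _k ∈ l.divisors, (l.divisors.card : ℝ) ^ 2 / 2 ^ m :=
            sum_le_sum fun k hk => TauM_tw S hS m k l hl0 (Nat.dvd_of_mem_divisors hk)
        _ = (l.divisors.card : ℝ) ^ 3 / 2 ^ m := by
            rw [sum_const, nsmul_eq_mul]; ring
    calc (∑ k ∈ l.divisors, tw S m k) ^ 2 ≤ ((l.divisors.card : ℝ) ^ 3 / 2 ^ m) ^ 2 :=
          pow_le_pow_left₀ (sum_nonneg fun k _ => tw_nonneg S m k) h2 2
      _ = (l.divisors.card : ℝ) ^ 6 * (1 / 4 ^ m) := by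
          rw [div_pow, ← pow_mul, ← pow_mul, show (4:ℝ) = 2 ^ 2 by norm_num, ← pow_mul,
            mul_comm m 2]
          ring
  refine (sum_le_sum h1).trans ?_
  rw [← sum_mul]
  have h3 := tau_pow 6 n
  calc (∑ l ∈ Icc 1 n, (l.divisors.card : ℝ) ^ 6) * (1 / 4 ^ m)
      ≤ (n * (1 + Real.log n) ^ (2 ^ 6)) * (1 / 4 ^ m) :=
        mul_le_mul_of_nonneg_right h3 (by positivity)
    _ = n * (1 + Real.log n) ^ 64 / 4 ^ m := by
        rw [show (2:ℕ) ^ 6 = 64 by norm_num]; ring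

theorem sqs_sum (P n : ℕ) (hP : 1 ≤ P) :
    ∑ l ∈ Icc 1 n, (∑ k ∈ l.divisors, sqi P k) ^ 2 ≤ n * (1 + Real.log n) ^ 8 / Real.sqrt P := by
  classical
  have hP' : (0:ℝ) < P := by exact_mod_cast hP
  have hlog : 0 ≤ Real.log n := Real.log_natCast_nonneg n
  have h1 : ∀ l ∈ Icc 1 n, (∑ k ∈ l.divisors, sqi P k) ^ 2 ≤
      if l ∈ sqs P n then (l.divisors.card : ℝ) ^ 2 else 0 := by
    intro l hl
    have hl0 : l ≠ 0 := by have := (mem_Icc.1 hl).1; omega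
    split_ifs with h
    · refine pow_le_pow_left₀ (sum_nonneg fun k _ => TauM_sqi_nonneg P k) ?_ 2
      calc ∑ k ∈ l.divisors, sqi P k ≤ ∑ _k ∈ l.divisors, (1:ℝ) :=
            sum_le_sum fun k _ => TauM_sqi_le P k
        _ = (l.divisors.card : ℝ) := by rw [sum_const, nsmul_eq_mul, mul_one]
    · have h2 : ∑ k ∈ l.divisors, sqi P k = 0 := by
        refine sum_eq_zero fun k hk => ?_
        unfold sqi
        rw [if_neg]
        rintro ⟨p, hp1, hp2, hp3⟩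
        refine h ?_
        unfold sqs
        exact mem_filter.2 ⟨hl, p, hp1, hp2, hp3.trans (Nat.dvd_of_mem_divisors hk)⟩
      rw [h2]; norm_num
  refine (sum_le_sum h1).trans ?_
  have hsub : sqs P n ⊆ Icc 1 n := by
    intro l hl
    unfold sqs at hl
    exact (mem_filter.1 hl).1
  have h3 : ∑ l ∈ Icc 1 n, (if l ∈ sqs P n then (l.divisors.card : ℝ) ^ 2 else 0) =
      ∑ l ∈ sqs P n, (l.divisors.card : ℝ) ^ 2 := by
    rw [← sum_filter]
    congr 1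
    ext l
    rw [mem_filter]
    exact ⟨fun h => h.2, fun h => ⟨hsub h, h⟩⟩
  rw [h3]
  have h4 : (∑ l ∈ sqs P n, (l.divisors.card : ℝ) ^ 2) ^ 2 ≤
      ((sqs P n).card : ℝ) * ∑ l ∈ sqs P n, (l.divisors.card : ℝ) ^ 4 := by
    have h := sq_sum_le_card_mul_sum_sq (s := sqs P n) (f := fun l => (l.divisors.card : ℝ) ^ 2)
    refine h.trans (le_of_eq ?_)
    congr 1
    refine sum_congr rfl fun l _ => ?_
    ring
  have h5 : ∑ l ∈ sqs P n, (l.divisors.card : ℝ) ^ 4 ≤ n * (1 + Real.log n) ^ 16 := by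
    refine (sum_le_sum_of_subset_of_nonneg hsub fun l _ _ => by positivity).trans ?_
    have h := tau_pow 4 n
    rw [show (2:ℕ) ^ 4 = 16 by norm_num] at h
    exact h
  have h6 : (∑ l ∈ sqs P n, (l.divisors.card : ℝ) ^ 2) ^ 2 ≤
      (n * (1 + Real.log n) ^ 8 / Real.sqrt P) ^ 2 := by
    refine h4.trans ?_
    calc ((sqs P n).card : ℝ) * ∑ l ∈ sqs P n, (l.divisors.card : ℝ) ^ 4
        ≤ ((n:ℝ) / P) * (n * (1 + Real.log n) ^ 16) :=
          mul_le_mul (Pool.Agent.H35.W.sq_count P n hP) h5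
            (sum_nonneg fun _ _ => by positivity) (by positivity)
      _ = (n * (1 + Real.log n) ^ 8 / Real.sqrt P) ^ 2 := by
          rw [div_pow, Real.sq_sqrt hP'.le]
          ring
  exact le_of_sq_le_sq h6 (by positivity)

end Pool.Agent.H35.U
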